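import Pool.Agent.Helper217.KT.Defs

set_option autoImplicit false

namespace Pool.Agent.Helper217.KT

open Classical

/-- The vertex `u` as a point of the realization. -/
noncomputable def vtx {V : Type} (u : V) : V → ℝ := fun w => if w = u then 1 else 0

/-- The point at parameter `t` on the edge from `u` to `v`. -/
noncomputable def pt {V : Type} (u v : V) (t : ℝ) : V → ℝ :=
  fun w => (1 - t) * vtx u w + t * vtx v w

lemma vtx_self {V : Type} (u : V) : vtx u u = 1 := by simp [vtx]

lemma vtx_ne {V : Type} {u w : V} (h : w ≠ u) : vtx u w = 0 := by simp [vtx, h]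

lemma vtx_injective {V : Type} : Function.Injective (vtx : V → V → ℝ) := by
  intro u v h
  by_contra hne
  have h1 : vtx u u = vtx v u := by rw [h]
  rw [vtx_self, vtx_ne hne] at h1
  norm_num at h1

lemma pt_zero {V : Type} (u v : V) : pt u v 0 = vtx u := by
  funext w; simp [pt]

lemma pt_one {V : Type} (u v : V) : pt u v 1 = vtx v := by
  funext w; simp [pt]

lemma pt_swap {V : Type} (u v : V) (t : ℝ) : pt v u (1 - t) = pt u v t := by
  funext w; simp only [pt]; ring

lemma pt_left {V : Type} {u v : V} (h : u ≠ v) (t : ℝ) : pt u v t u = 1 - t := by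
  simp [pt, vtx_self, vtx_ne h]

lemma pt_right {V : Type} {u v : V} (h : u ≠ v) (t : ℝ) : pt u v t v = t := by
  simp [pt, vtx_self, vtx_ne h.symm]

lemma pt_other {V : Type} {u v w : V} (h : w ≠ u) (h' : w ≠ v) (t : ℝ) : pt u v t w = 0 := by
  simp [pt, vtx_ne h, vtx_ne h']

lemma continuous_pt {V : Type} (u v : V) : Continuous (pt u v) := by
  apply continuous_pi
  intro w
  unfold pt
  fun_prop

lemma sum_vtx {V : Type} [Fintype V] (u : V) : ∑ w, vtx u w = 1 := by
  simp [vtx]

lemma vtx_mem {V : Type} [Fintype V] (G : SimpleGraph V) (u : V) : vtx u ∈ real G := by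
  refine ⟨fun v => ?_, sum_vtx u, u, u, Or.inl rfl, fun w hw => ?_⟩
  · unfold vtx; split_ifs <;> norm_num
  · left
    by_contra hne
    exact hw (vtx_ne hne)

lemma pt_mem {V : Type} [Fintype V] {G : SimpleGraph V} {u v : V} (h : G.Adj u v) {t : ℝ}
    (h0 : 0 ≤ t) (h1 : t ≤ 1) : pt u v t ∈ real G := by
  refine ⟨fun w => ?_, ?_, u, v, Or.inr h, fun w hw => ?_⟩
  · unfold pt vtx
    split_ifs <;> linarith
  · simp only [pt, Finset.sum_add_distrib, ← Finset.mul_sum, sum_vtx]
    ring
  · by_contra hne
    push Not at hne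
    exact hw (pt_other hne.1 hne.2 t)

lemma exists_pt {V : Type} [Fintype V] {G : SimpleGraph V} {x : V → ℝ} (hx : x ∈ real G) :
    (∃ u, x = vtx u) ∨ ∃ u v t, G.Adj u v ∧ 0 < t ∧ t < 1 ∧ x = pt u v t := by
  obtain ⟨hnn, hsum, u, v, huv, hsupp⟩ := hx
  have key : ∀ u : V, (∀ w, w ≠ u → x w = 0) → x = vtx u := by
    intro u hu
    have h1 : ∑ w, x w = x u := by
      apply Finset.sum_eq_single u
      · intro w _ hw; exact hu w hw
      · intro h; exact absurd (Finset.mem_univ u) h
    funext w
    by_cases hw : w = u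
    · subst hw; rw [vtx_self]; linarith
    · rw [vtx_ne hw, hu w hw]
  rcases huv with rfl | hadj
  · left
    refine ⟨u, key u fun w hw => ?_⟩
    by_contra h
    have := hsupp w h
    tauto
  · have hne : u ≠ v := hadj.ne
    have h2 : ∑ w, x w = x u + x v := by
      rw [← Finset.sum_subset (Finset.subset_univ {u, v})]
      · rw [Finset.sum_pair hne]
      · intro w _ hw
        by_contra h
        have := hsupp w h
        simp at hw
        tauto
    have hother : ∀ w, w ≠ u → w ≠ v → x w = 0 := by
      intro w h1 h2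
      by_contra h
      have := hsupp w h
      tauto
    by_cases hu : x u = 0
    · left
      refine ⟨v, key v fun w hw => ?_⟩
      by_cases hwu : w = u
      · rw [hwu, hu]
      · exact hother w hwu hw
    by_cases hv : x v = 0
    · left
      refine ⟨u, key u fun w hw => ?_⟩
      by_cases hwv : w = v
      · rw [hwv, hv]
      · exact hother w hw hwv
    right
    have hu' : 0 < x u := lt_of_le_of_ne (hnn u) (Ne.symm hu)
    have hv' : 0 < x v := lt_of_le_of_ne (hnn v) (Ne.symm hv)
    refine ⟨u, v, x v, hadj, hv', by linarith, ?_⟩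
    funext w
    by_cases hwu : w = u
    · subst hwu; rw [pt_left hne]; linarith
    · by_cases hwv : w = v
      · subst hwv; rw [pt_right hne]
      · rw [pt_other hwu hwv, hother w hwu hwv]

lemma exists_pt_half {V : Type} [Fintype V] {G : SimpleGraph V} {x : V → ℝ} (hx : x ∈ real G) :
    (∃ u, x = vtx u) ∨ ∃ u v t, G.Adj u v ∧ 0 < t ∧ t ≤ 1 / 2 ∧ x = pt u v t := by
  rcases exists_pt hx with h | ⟨u, v, t, h, h0, h1, rfl⟩
  · exact Or.inl h
  · right
    rcases le_total t (1 / 2) with h2 | h2
    · exact ⟨u, v, t, h, h0, h2, rfl⟩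
    · exact ⟨v, u, 1 - t, h.symm, by linarith, by linarith, (pt_swap u v t).symm⟩

lemma pt_ne_vtx {V : Type} {u v : V} (h : u ≠ v) {t : ℝ} (h0 : 0 < t) (h1 : t < 1) (w : V) :
    pt u v t ≠ vtx w := by
  intro he
  have hu : pt u v t u = vtx w u := by rw [he]
  have hv : pt u v t v = vtx w v := by rw [he]
  rw [pt_left h] at hu
  rw [pt_right h] at hv
  unfold vtx at hu hv
  split_ifs at hu hv <;> linarith

lemma pt_eq_pt {V : Type} {u v u' v' : V} (h : u ≠ v) (h' : u' ≠ v') {t t' : ℝ} (h0 : 0 < t)
    (h1 : t < 1) (he : pt u v t = pt u' v' t') :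
    (u = u' ∧ v = v' ∧ t = t') ∨ (u = v' ∧ v = u' ∧ t = 1 - t') := by
  have hu : u = u' ∨ u = v' := by
    by_contra hc
    push Not at hc
    have := congrFun he u
    rw [pt_left h, pt_other hc.1 hc.2] at this
    linarith
  have hv : v = u' ∨ v = v' := by
    by_contra hc
    push Not at hc
    have := congrFun he v
    rw [pt_right h, pt_other hc.1 hc.2] at this
    linarith
  rcases hu with rfl | rfl
  · rcases hv with rfl | rfl
    · exact absurd rfl h
    · left
      have := congrFun he v
      rw [pt_right h, pt_right h] at this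
      exact ⟨rfl, rfl, this⟩
  · rcases hv with rfl | rfl
    · right
      have := congrFun he v
      rw [pt_right h, pt_left h'] at this
      exact ⟨rfl, rfl, this⟩
    · exact absurd rfl h

lemma real_eq {V : Type} [Fintype V] (G : SimpleGraph V) :
    real G = (⋃ u : V, {vtx u}) ∪
      ⋃ p : {p : V × V // G.Adj p.1 p.2}, pt p.1.1 p.1.2 '' Set.Icc (0 : ℝ) 1 := by
  ext x
  constructor
  · intro hx
    rcases exists_pt hx with ⟨u, rfl⟩ | ⟨u, v, t, h, h0, h1, rfl⟩
    · left
      simp
    · right
      simp only [Set.mem_iUnion]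
      exact ⟨⟨(u, v), h⟩, t, ⟨h0.le, h1.le⟩, rfl⟩
  · rintro (hx | hx)
    · simp only [Set.mem_iUnion, Set.mem_singleton_iff] at hx
      obtain ⟨u, rfl⟩ := hx
      exact vtx_mem G u
    · simp only [Set.mem_iUnion] at hx
      obtain ⟨⟨⟨u, v⟩, h⟩, t, ⟨h0, h1⟩, rfl⟩ := hx
      exact pt_mem h h0 h1

lemma isCompact_real {V : Type} [Fintype V] (G : SimpleGraph V) : IsCompact (real G) := by
  rw [real_eq]
  exact (isCompact_iUnion fun u => isCompact_singleton).union
    (isCompact_iUnion fun p => isCompact_Icc.image (continuous_pt _ _))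

instance {V : Type} [Fintype V] (G : SimpleGraph V) : CompactSpace (real G) :=
  isCompact_iff_compactSpace.mp (isCompact_real G)

end Pool.Agent.Helper217.KT
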