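import Pool.Agent.Helper217.KT.Basic

set_option autoImplicit false

namespace Pool.Agent.Helper217.KT

open Classical

/-- the darts of `G` lying over the dart `(a, b)` -/
noncomputable def darts {V W : Type} [Fintype V] (G : SimpleGraph V) (φ : V → W)
    (δ : V → V → W) (a b : W) : Finset (V × V) :=
  Finset.univ.filter (fun p : V × V => G.Adj p.1 p.2 ∧ φ p.1 = a ∧ δ p.1 p.2 = b)

/-- the `b`-th coordinate of `f` along the edge `u v` -/
noncomputable def coord {V W : Type} [Fintype V] [Fintype W] (G : SimpleGraph V)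
    (H : SimpleGraph W) (f : real G → real H) (b : W) (u v : V) (t : ℝ) : ℝ :=
  if h : G.Adj u v ∧ 0 ≤ t ∧ t ≤ 1 then (f ⟨pt u v t, pt_mem h.1 h.2.1 h.2.2⟩ : W → ℝ) b else 0

end Pool.Agent.Helper217.KT
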