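import Mathlib

set_option autoImplicit false

/-!
Definitions for `MP_cde9db_gt` (exactly `k`-to-1 maps between finite graphs).
-/

namespace Pool.Agent.Helper217.KT

/-- The geometric realization of a finite simple graph: the points of `V → ℝ` which are convex
combinations of the two ends of an edge, or a vertex. -/
def real {V : Type} [Fintype V] (G : SimpleGraph V) : Set (V → ℝ) :=
  {x | (∀ v, 0 ≤ x v) ∧ ∑ v, x v = 1 ∧
    ∃ u v : V, (u = v ∨ G.Adj u v) ∧ ∀ w, x w ≠ 0 → w = u ∨ w = v}

/-- The graph obtained from `G` by putting a new vertex (called `none`) on the edge `uv`. -/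
def subdivideEdge {V : Type} (G : SimpleGraph V) (u v : V) : SimpleGraph (Option V) where
  Adj x y :=
    (∃ a b : V, x = some a ∧ y = some b ∧ G.Adj a b ∧ ¬ ((a = u ∧ b = v) ∨ (a = v ∧ b = u))) ∨
    (x = none ∧ (y = some u ∨ y = some v)) ∨
    (y = none ∧ (x = some u ∨ x = some v))
  symm := ⟨by
    rintro x y (⟨a, b, rfl, rfl, h, h'⟩ | ⟨rfl, h⟩ | ⟨rfl, h⟩)
    · exact Or.inl ⟨b, a, rfl, rfl, h.symm, fun hh => h' (by tauto)⟩
    · exact Or.inr (Or.inr ⟨rfl, h⟩)
    · exact Or.inr (Or.inl ⟨rfl, h⟩)⟩
  loopless := ⟨by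
    rintro x (⟨a, b, rfl, hb, h, -⟩ | ⟨rfl, h | h⟩ | ⟨rfl, h | h⟩)
    · cases hb
      exact h.ne rfl
    · cases h
    · cases h
    · cases h
    · cases h⟩

/-- `IsSubdivision G G'`: the graph `G'` is obtained from `G` by finitely many edge subdivisions
(up to isomorphism). -/
inductive IsSubdivision : {V W : Type} → SimpleGraph V → SimpleGraph W → Prop
  | iso {V W : Type} (G : SimpleGraph V) (G' : SimpleGraph W) :
      Nonempty (G ≃g G') → IsSubdivision G G'
  | step {V W : Type} (G : SimpleGraph V) (u v : V) (G' : SimpleGraph W) :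
      G.Adj u v → IsSubdivision (subdivideEdge G u v) G' → IsSubdivision G G'

/-- The number of ordered pairs of adjacent vertices of `G`, the first one mapped to `a` and the
second one to `b` by `φ`. If `A` is the adjacency matrix of `G` and `P` the 0-1 matrix of `φ`, this
is the `(a, b)` entry of `Pᵀ A P`. -/
noncomputable def edgeCount {V W : Type} (G : SimpleGraph V) (φ : V → W) (a b : W) : ℕ :=
  Nat.card {p : V × V // G.Adj p.1 p.2 ∧ φ p.1 = a ∧ φ p.2 = b}

/-- The degree of a vertex. -/
noncomputable def deg {W : Type} (H : SimpleGraph W) (a : W) : ℕ :=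
  Nat.card {b : W // H.Adj a b}

/-- The combinatorial condition: `φ` is an exactly `k`-to-1 map of the vertex sets, and the matrix
`B = edgeCount G φ` satisfies the following conditions with respect to the adjacency relation
of `H`. -/
structure Compatible {V W : Type} [Fintype W] (k : ℕ) (G : SimpleGraph V) (H : SimpleGraph W)
    (φ : V → W) : Prop where
  fiber : ∀ a : W, Nat.card {u : V // φ u = a} = k
  nonadj : ∀ a b : W, a ≠ b → ¬ H.Adj a b → edgeCount G φ a b = 0
  le : ∀ a b : W, H.Adj a b → edgeCount G φ a b ≤ k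
  parity : ∀ a b : W, H.Adj a b → edgeCount G φ a b % 2 = k % 2
  row : ∀ a : W, ∑ b : W, edgeCount G φ a b ≤ k * deg H a
  loops : ∀ a : W,
    2 * Nat.card {b : W // H.Adj a b ∧ edgeCount G φ a b = 0} ≤ edgeCount G φ a a

end Pool.Agent.Helper217.KT
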