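import Pool.Agent.Helper217.KT.Darts

set_option autoImplicit false

namespace Pool.Agent.Helper217.KT

open Classical

/-- TARGET -/
theorem card_fiber_lt {V W : Type} [Fintype V] [Fintype W] (G : SimpleGraph V)
    (H : SimpleGraph W) (φ : V → W) (δ : V → V → W)
    (hδ : ∀ u v, G.Adj u v → H.Adj (φ u) (δ u v) ∧ s(φ u, δ u v) = s(φ v, δ v u))
    (Z : V → V → ℝ → ℝ) (hZ1 : ∀ u v, Z u v (1 / 2) = 1 / 2)
    (hZ : ∀ u v t, 0 < t → t ≤ 1 / 2 → 0 < Z u v t ∧ Z u v t ≤ 1 / 2)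
    (f : real G → real H) (hfv : ∀ u, (f ⟨vtx u, vtx_mem G u⟩ : W → ℝ) = vtx (φ u))
    (hfe : ∀ u v (huv : G.Adj u v) t (h0 : 0 ≤ t) (h1 : t ≤ 1 / 2),
        (f ⟨pt u v t, pt_mem huv h0 (h1.trans (by norm_num))⟩ : W → ℝ)
          = pt (φ u) (δ u v) (Z u v t))
    (a b : W) (hab : H.Adj a b) (τ : ℝ) (h0 : 0 < τ) (h1 : τ < 1 / 2)
    (hfin : ∀ u v, {t : ℝ | 0 < t ∧ t < 1 / 2 ∧ Z u v t = τ}.Finite) :
    Nat.card {x : real G // (f x : W → ℝ) = pt a b τ}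
      = ∑ p ∈ darts G φ δ a b, {t : ℝ | 0 < t ∧ t < 1 / 2 ∧ Z p.1 p.2 t = τ}.ncard := by
  classical
  have hadj : ∀ p ∈ darts G φ δ a b, G.Adj p.1 p.2 ∧ φ p.1 = a ∧ δ p.1 p.2 = b := by
    intro p hp
    exact (Finset.mem_filter.1 hp).2
  let S : V × V → Set ℝ := fun p => {t : ℝ | 0 < t ∧ t < 1 / 2 ∧ Z p.1 p.2 t = τ}
  let F : (Σ p : {p // p ∈ darts G φ δ a b}, S p.1) → {x : real G // (f x : W → ℝ) = pt a b τ} :=
    fun q => ⟨⟨pt q.1.1.1 q.1.1.2 q.2.1, pt_mem (hadj _ q.1.2).1 q.2.2.1.le (by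
      have h3 : (q.2.1 : ℝ) < 1 / 2 := q.2.2.2.1
      linarith)⟩, by
      have h2 := hfe _ _ (hadj _ q.1.2).1 q.2.1 q.2.2.1.le q.2.2.2.1.le
      rw [h2, (hadj _ q.1.2).2.1, (hadj _ q.1.2).2.2, q.2.2.2.2]⟩
  have hinj : Function.Injective F := by
    rintro ⟨⟨⟨u, v⟩, hp⟩, ⟨t, ht⟩⟩ ⟨⟨⟨u', v'⟩, hp'⟩, ⟨t', ht'⟩⟩ hq
    have h2 : pt u v t = pt u' v' t' := congrArg (fun z => (z.1 : V → ℝ)) hq
    have ht1 : 0 < t := ht.1
    have ht2 : t < 1 / 2 := ht.2.1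
    have ht3 : t' < 1 / 2 := ht'.2.1
    rcases pt_eq_pt (hadj _ hp).1.ne (hadj _ hp').1.ne ht1 (by linarith) h2 with
      ⟨rfl, rfl, rfl⟩ | ⟨-, -, h3⟩
    · rfl
    · linarith
  have hsurj : Function.Surjective F := by
    rintro ⟨⟨x, hx⟩, hfx⟩
    rcases exists_pt_half hx with ⟨u, rfl⟩ | ⟨u, v, t, huv, ht0, ht1, rfl⟩
    · exfalso
      have h2 := hfv u
      have h3 : pt a b τ = vtx (φ u) := by rw [← hfx, ← h2]
      exact pt_ne_vtx hab.ne h0 (by linarith) _ h3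
    · have h2 := hfe u v huv t ht0.le ht1
      have h3 : pt (φ u) (δ u v) (Z u v t) = pt a b τ := by rw [← h2, ← hfx]
      have h4 := hZ u v t ht0 ht1
      rcases pt_eq_pt (hδ u v huv).1.ne hab.ne h4.1 (by linarith) h3 with ⟨h5, h6, h7⟩ | ⟨-, -, h7⟩
      · have h8 : t < 1 / 2 := by
          rcases lt_or_eq_of_le ht1 with h | h
          · exact h
          · rw [h, hZ1] at h7
            linarith
        exact ⟨⟨⟨(u, v), Finset.mem_filter.2 ⟨Finset.mem_univ _, huv, h5, h6⟩⟩,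
          ⟨t, ht0, h8, h7⟩⟩, rfl⟩
      · exfalso
        linarith
  have hF : ∀ p : {p // p ∈ darts G φ δ a b}, Finite (S p.1) := fun p => (hfin p.1.1 p.1.2).to_subtype
  rw [← Nat.card_eq_of_bijective F ⟨hinj, hsurj⟩, Nat.card_sigma]
  rw [← Finset.sum_coe_sort (darts G φ δ a b)]
  apply Finset.sum_congr rfl
  intro p _
  exact Nat.card_coe_set_eq _

end Pool.Agent.Helper217.KT
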