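import Pool.Agent.Helper217.KT.Darts

set_option autoImplicit false

namespace Pool.Agent.Helper217.KT

open Classical

theorem Nat.card_eq_card_toFinset_aux_h217 {α : Type} (s : Finset α) : Nat.card {x // x ∈ s} = s.card := by
  rw [Nat.card_eq_fintype_card, Fintype.card_coe]

/-- TARGET -/
theorem card_fiber_mid {V W : Type} [Fintype V] [Fintype W] (G : SimpleGraph V)
    (H : SimpleGraph W) (φ : V → W) (δ : V → V → W)
    (hδ : ∀ u v, G.Adj u v → H.Adj (φ u) (δ u v) ∧ s(φ u, δ u v) = s(φ v, δ v u))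
    (Z : V → V → ℝ → ℝ) (hZ1 : ∀ u v, Z u v (1 / 2) = 1 / 2)
    (hZ : ∀ u v t, 0 < t → t ≤ 1 / 2 → 0 < Z u v t ∧ Z u v t ≤ 1 / 2)
    (f : real G → real H) (hfv : ∀ u, (f ⟨vtx u, vtx_mem G u⟩ : W → ℝ) = vtx (φ u))
    (hfe : ∀ u v (huv : G.Adj u v) t (h0 : 0 ≤ t) (h1 : t ≤ 1 / 2),
        (f ⟨pt u v t, pt_mem huv h0 (h1.trans (by norm_num))⟩ : W → ℝ)
          = pt (φ u) (δ u v) (Z u v t))
    (a b : W) (hab : H.Adj a b)
    (hfin : ∀ u v, {t : ℝ | 0 < t ∧ t < 1 / 2 ∧ Z u v t = 1 / 2}.Finite) :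
    2 * Nat.card {x : real G // (f x : W → ℝ) = pt a b (1 / 2)}
      = (darts G φ δ a b).card + (darts G φ δ b a).card
        + 2 * (∑ p ∈ darts G φ δ a b, {t : ℝ | 0 < t ∧ t < 1 / 2 ∧ Z p.1 p.2 t = 1 / 2}.ncard
          + ∑ p ∈ darts G φ δ b a, {t : ℝ | 0 < t ∧ t < 1 / 2 ∧ Z p.1 p.2 t = 1 / 2}.ncard) := by
  have hab' : a ≠ b := hab.ne
  have hdisj : Disjoint (darts G φ δ a b) (darts G φ δ b a) := by
    rw [Finset.disjoint_left]
    intro p hp hp'
    unfold darts at hp hp'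
    rw [Finset.mem_filter] at hp hp'
    exact hab' (hp.2.2.1.symm.trans hp'.2.2.1)
  set D : Finset (V × V) := darts G φ δ a b ∪ darts G φ δ b a with hD
  have hmem : ∀ p : V × V, p ∈ D ↔ G.Adj p.1 p.2 ∧
      ((φ p.1 = a ∧ δ p.1 p.2 = b) ∨ (φ p.1 = b ∧ δ p.1 p.2 = a)) := by
    intro p
    rw [hD]
    unfold darts
    simp only [Finset.mem_union, Finset.mem_filter, Finset.mem_univ, true_and]
    tauto
  have hswap : ∀ p : V × V, p ∈ D → p.swap ∈ D := by
    rintro ⟨u, v⟩ hp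
    rw [hmem] at hp ⊢
    obtain ⟨hadj, hcase⟩ := hp
    simp only [Prod.swap] at hcase hadj ⊢
    refine ⟨hadj.symm, ?_⟩
    have h1 := (hδ u v hadj).2
    rw [Sym2.eq_iff] at h1
    rcases hcase with ⟨h2, h3⟩ | ⟨h2, h3⟩ <;> rw [h2, h3] at h1 <;> rcases h1 with ⟨h4, h5⟩ | ⟨h4, h5⟩
    · exact Or.inl ⟨h4.symm, h5.symm⟩
    · exact Or.inr ⟨h5.symm, h4.symm⟩
    · exact Or.inr ⟨h4.symm, h5.symm⟩
    · exact Or.inl ⟨h5.symm, h4.symm⟩
  let S : V × V → Finset ℝ := fun p => (hfin p.1 p.2).toFinset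
  have hS : ∀ p t, t ∈ S p ↔ 0 < t ∧ t < 1 / 2 ∧ Z p.1 p.2 t = 1 / 2 := by
    intro p t
    simp only [S, Set.Finite.mem_toFinset, Set.mem_setOf_eq]
  let g : V × V → (V → ℝ) := fun p => pt p.1 p.2 (1 / 2)
  let k : (Σ _ : V × V, ℝ) → (V → ℝ) := fun q => pt q.1.1 q.1.2 q.2
  let MM : Finset (V → ℝ) := D.image g
  let TT : Finset (V → ℝ) := (D.sigma S).image k
  -- the target values
  have hval : ∀ p ∈ D, pt (φ p.1) (δ p.1 p.2) (1 / 2) = pt a b (1 / 2) := by
    intro p hp
    rw [hmem] at hp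
    rcases hp.2 with ⟨h2, h3⟩ | ⟨h2, h3⟩
    · rw [h2, h3]
    · rw [h2, h3]
      have := pt_swap a b (1 / 2)
      norm_num at this
      norm_num
      exact this
  -- description of the fibre
  have hfib : ∀ x : V → ℝ, (∃ hx : x ∈ real G, (f ⟨x, hx⟩ : W → ℝ) = pt a b (1 / 2)) ↔
      x ∈ MM ∪ TT := by
    intro x
    rw [Finset.mem_union]
    constructor
    · rintro ⟨hx, hfx⟩
      rcases exists_pt_half hx with ⟨u, rfl⟩ | ⟨u, v, t, hadj, h0, h1, rfl⟩
      · exfalso
        have h2 := hfv u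
        rw [hfx] at h2
        exact pt_ne_vtx hab' (by norm_num) (by norm_num) _ h2
      · have h2 := hfe u v hadj t h0.le h1
        rw [hfx] at h2
        have hz := hZ u v t h0 h1
        have h3 := pt_eq_pt (hδ u v hadj).1.ne hab' hz.1 (lt_of_le_of_lt hz.2 (by norm_num)) h2.symm
        have h4 : (u, v) ∈ D ∧ Z u v t = 1 / 2 := by
          rcases h3 with ⟨h5, h6, h7⟩ | ⟨h5, h6, h7⟩
          · exact ⟨(hmem _).mpr ⟨hadj, Or.inl ⟨h5, h6⟩⟩, h7⟩
          · refine ⟨(hmem _).mpr ⟨hadj, Or.inr ⟨h5, h6⟩⟩, ?_⟩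
            rw [h7]; norm_num
        rcases h1.lt_or_eq with h5 | h5
        · right
          rw [Finset.mem_image]
          refine ⟨⟨(u, v), t⟩, ?_, rfl⟩
          rw [Finset.mem_sigma]
          exact ⟨h4.1, (hS _ _).mpr ⟨h0, h5, h4.2⟩⟩
        · left
          rw [Finset.mem_image]
          exact ⟨(u, v), h4.1, by rw [h5]⟩
    · rintro (hx | hx)
      · rw [Finset.mem_image] at hx
        obtain ⟨p, hp, rfl⟩ := hx
        have hadj := ((hmem p).mp hp).1
        refine ⟨pt_mem hadj (by norm_num) (by norm_num), ?_⟩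
        have h2 := hfe p.1 p.2 hadj (1 / 2) (by norm_num) le_rfl
        rw [hZ1] at h2
        exact h2.trans (hval p hp)
      · rw [Finset.mem_image] at hx
        obtain ⟨⟨p, t⟩, hq, rfl⟩ := hx
        rw [Finset.mem_sigma] at hq
        obtain ⟨hp, ht⟩ := hq
        rw [hS] at ht
        have hadj := ((hmem p).mp hp).1
        refine ⟨pt_mem hadj ht.1.le (by linarith [ht.2.1]), ?_⟩
        have h2 := hfe p.1 p.2 hadj t ht.1.le ht.2.1.le
        have h3 : Z p.1 p.2 t = 1 / 2 := ht.2.2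
        exact h2.trans ((congrArg (fun z => pt (φ p.1) (δ p.1 p.2) z) h3).trans (hval p hp))
  have hcard : Nat.card {x : real G // (f x : W → ℝ) = pt a b (1 / 2)} = (MM ∪ TT).card := by
    rw [← Nat.card_eq_card_toFinset_aux_h217 (MM ∪ TT)]
    refine Nat.card_congr
      { toFun := fun x => ⟨x.1.1, (hfib x.1.1).mp ⟨x.1.2, x.2⟩⟩
        invFun := fun y => ⟨⟨y.1, ((hfib y.1).mpr y.2).choose⟩, ((hfib y.1).mpr y.2).choose_spec⟩
        left_inv := fun x => by
          apply Subtype.ext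
          apply Subtype.ext
          rfl
        right_inv := fun y => by
          apply Subtype.ext
          rfl }
  have hMT : Disjoint MM TT := by
    rw [Finset.disjoint_left]
    intro x hx hx'
    rw [Finset.mem_image] at hx hx'
    obtain ⟨p, hp, rfl⟩ := hx
    obtain ⟨⟨p', t⟩, hq, he⟩ := hx'
    rw [Finset.mem_sigma] at hq
    obtain ⟨hp', ht⟩ := hq
    rw [hS] at ht
    have hadj := ((hmem p).mp hp).1
    have hadj' := ((hmem p').mp hp').1
    have h1 := pt_eq_pt hadj'.ne hadj.ne ht.1 (by linarith [ht.2.1]) he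
    rcases h1 with ⟨-, -, h2⟩ | ⟨-, -, h2⟩
    · have h3 : t = 1 / 2 := h2
      have h4 : t < 1 / 2 := ht.2.1
      linarith
    · have h3 : t = 1 - 1 / 2 := h2
      have h4 : t < 1 / 2 := ht.2.1
      linarith
  have hTT : TT.card = ∑ p ∈ D, {t : ℝ | 0 < t ∧ t < 1 / 2 ∧ Z p.1 p.2 t = 1 / 2}.ncard := by
    have h1 : TT.card = (D.sigma S).card := by
      apply Finset.card_image_of_injOn
      rintro ⟨p, t⟩ hq ⟨p', t'⟩ hq' he
      simp only [Finset.coe_sigma, Set.mem_sigma_iff, Finset.mem_coe] at hq hq'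
      obtain ⟨hp, ht⟩ := hq
      obtain ⟨hp', ht'⟩ := hq'
      rw [hS] at ht ht'
      have hadj := ((hmem p).mp hp).1
      have hadj' := ((hmem p').mp hp').1
      have h1 := pt_eq_pt hadj.ne hadj'.ne ht.1 (by linarith [ht.2.1]) he
      rcases h1 with ⟨h2, h3, h4⟩ | ⟨-, -, h2⟩
      · subst h4
        have : p = p' := Prod.ext h2 h3
        subst this
        rfl
      · exfalso
        linarith [ht.2.1, ht'.2.1]
    rw [h1, Finset.card_sigma]
    apply Finset.sum_congr rfl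
    intro p _
    exact (Set.ncard_eq_toFinset_card _ (hfin p.1 p.2)).symm
  have hMM : D.card = 2 * MM.card := by
    have h1 : D.card = ∑ b ∈ D.image g, (D.filter (fun p => g p = b)).card :=
      Finset.card_eq_sum_card_image g D
    have h2 : ∀ y ∈ D.image g, (D.filter (fun p => g p = y)).card = 2 := by
      intro y hy
      rw [Finset.mem_image] at hy
      obtain ⟨p, hp, rfl⟩ := hy
      have hadj := ((hmem p).mp hp).1
      have h3 : D.filter (fun q => g q = g p) = {p, p.swap} := by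
        ext q
        rw [Finset.mem_filter, Finset.mem_insert, Finset.mem_singleton]
        constructor
        · rintro ⟨hq, he⟩
          have hadjq := ((hmem q).mp hq).1
          have h4 := pt_eq_pt hadjq.ne hadj.ne (by norm_num) (by norm_num) he
          rcases h4 with ⟨h5, h6, -⟩ | ⟨h5, h6, -⟩
          · left; exact Prod.ext h5 h6
          · right; exact Prod.ext h5 h6
        · rintro (rfl | rfl)
          · exact ⟨hp, rfl⟩
          · refine ⟨hswap p hp, ?_⟩
            show pt p.2 p.1 (1 / 2) = pt p.1 p.2 (1 / 2)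
            have := pt_swap p.1 p.2 (1 / 2)
            norm_num at this
            norm_num
            exact this
      rw [h3]
      apply Finset.card_pair
      intro h4
      exact hadj.ne (congrArg Prod.fst h4)
    rw [h1, Finset.sum_congr rfl h2, Finset.sum_const, smul_eq_mul, mul_comm]
  rw [hcard, Finset.card_union_of_disjoint hMT, mul_add, ← hMM, hTT, hD,
    Finset.card_union_of_disjoint hdisj, Finset.sum_union hdisj]

end Pool.Agent.Helper217.KT
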