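import Pool.Agent.Helper217.KT.Darts

set_option autoImplicit false

namespace Pool.Agent.Helper217.KT

open Classical

/-- TARGET -/
theorem card_fiber_vtx {V W : Type} [Fintype V] [Fintype W] (G : SimpleGraph V)
    (H : SimpleGraph W) (φ : V → W) (δ : V → V → W)
    (hδ : ∀ u v, G.Adj u v → H.Adj (φ u) (δ u v) ∧ s(φ u, δ u v) = s(φ v, δ v u))
    (Z : V → V → ℝ → ℝ) (hZ1 : ∀ u v, Z u v (1 / 2) = 1 / 2)
    (hZ : ∀ u v t, 0 < t → t ≤ 1 / 2 → 0 < Z u v t ∧ Z u v t ≤ 1 / 2)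
    (f : real G → real H) (hfv : ∀ u, (f ⟨vtx u, vtx_mem G u⟩ : W → ℝ) = vtx (φ u))
    (hfe : ∀ u v (huv : G.Adj u v) t (h0 : 0 ≤ t) (h1 : t ≤ 1 / 2),
        (f ⟨pt u v t, pt_mem huv h0 (h1.trans (by norm_num))⟩ : W → ℝ)
          = pt (φ u) (δ u v) (Z u v t))
    (a : W) :
    Nat.card {x : real G // (f x : W → ℝ) = vtx a} = Nat.card {u : V // φ u = a} := by
  symm
  let g : {u : V // φ u = a} → {x : real G // (f x : W → ℝ) = vtx a} := fun u =>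
    ⟨⟨vtx u.1, vtx_mem G u.1⟩, by rw [hfv, u.2]⟩
  refine Nat.card_congr (Equiv.ofBijective g ⟨?_, ?_⟩)
  · intro u v huv
    apply Subtype.ext
    apply vtx_injective
    have h1 := congrArg Subtype.val huv
    exact congrArg Subtype.val h1
  · rintro ⟨⟨x, hx⟩, hfx⟩
    rcases exists_pt_half hx with ⟨u, rfl⟩ | ⟨u, v, t, huv, h0, h1, rfl⟩
    · rw [hfv] at hfx
      exact ⟨⟨u, vtx_injective hfx⟩, rfl⟩
    · exfalso
      rw [hfe u v huv t h0.le h1] at hfx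
      obtain ⟨z0, z1⟩ := hZ u v t h0 h1
      exact pt_ne_vtx (hδ u v huv).1.ne z0 (by linarith) a hfx

end Pool.Agent.Helper217.KT
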