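import Pool.Agent.Helper217.KT.Darts

set_option autoImplicit false

namespace Pool.Agent.Helper217.KT

open Classical

theorem cod_edgeCount {V W : Type} [Fintype V] (G : SimpleGraph V) (φ : V → W) (a b : W) :
    edgeCount G φ a b =
      (Finset.univ.filter (fun p : V × V => G.Adj p.1 p.2 ∧ φ p.1 = a ∧ φ p.2 = b)).card := by
  unfold edgeCount
  rw [Nat.card_eq_fintype_card, Fintype.card_subtype]

/-- TARGET -/
theorem compatible_of_darts {V W : Type} [Fintype V] [Fintype W] (k : ℕ) (hk : 1 < k)
    (G : SimpleGraph V) (H : SimpleGraph W) (φ : V → W)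
    (hφ : ∀ a : W, Nat.card {u : V // φ u = a} = k) (δ : V → V → W)
    (hδ : ∀ u v, G.Adj u v → H.Adj (φ u) (δ u v) ∧ s(φ u, δ u v) = s(φ v, δ v u))
    (h1 : ∀ a b, H.Adj a b → (darts G φ δ a b).card ≤ k)
    (h2 : ∀ a b, H.Adj a b → (darts G φ δ a b).Nonempty)
    (h3 : ∀ a b, H.Adj a b → edgeCount G φ a b % 2 = k % 2) :
    Compatible k G H φ := by
  have hne : ∀ {u v : V} {a b : W}, G.Adj u v → φ u = a → φ v = b → a ≠ b → δ u v = b := by
    intro u v a b h ha hb hab
    have h4 := (hδ u v h).2
    rw [ha, hb, Sym2.eq_iff] at h4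
    rcases h4 with ⟨h5, _⟩ | ⟨_, h5⟩
    · exact absurd h5 hab
    · exact h5
  refine ⟨hφ, ?_, ?_, h3, ?_, ?_⟩
  · intro a b hab hH
    rw [cod_edgeCount, Finset.card_eq_zero, Finset.filter_eq_empty_iff]
    rintro ⟨u, v⟩ _ ⟨h4, h5, h6⟩
    apply hH
    have h7 := (hδ u v h4).1
    rw [hne h4 h5 h6 hab] at h7
    change φ u = a at h5
    rw [h5] at h7
    exact h7
  · intro a b hH
    rw [cod_edgeCount]
    refine (Finset.card_le_card ?_).trans (h1 a b hH)
    rintro ⟨u, v⟩ hp
    rw [Finset.mem_filter] at hp
    obtain ⟨_, h4, h5, h6⟩ := hp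
    unfold darts
    rw [Finset.mem_filter]
    exact ⟨Finset.mem_univ _, h4, h5, hne h4 h5 h6 hH.ne⟩
  · intro a
    have e1 : ∑ b : W, edgeCount G φ a b =
        (Finset.univ.filter (fun p : V × V => G.Adj p.1 p.2 ∧ φ p.1 = a)).card := by
      rw [Finset.card_eq_sum_card_fiberwise (f := fun p : V × V => φ p.2)
        (t := (Finset.univ : Finset W)) (fun _ _ => Finset.mem_coe.2 (Finset.mem_univ _))]
      refine Finset.sum_congr rfl fun b _ => ?_
      rw [cod_edgeCount, Finset.filter_filter]
      congr 1
      ext p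
      simp only [Finset.mem_filter, Finset.mem_univ, true_and]
      tauto
    have e2 : (Finset.univ.filter (fun p : V × V => G.Adj p.1 p.2 ∧ φ p.1 = a)).card =
        ∑ b : W, (darts G φ δ a b).card := by
      rw [Finset.card_eq_sum_card_fiberwise (f := fun p : V × V => δ p.1 p.2)
        (t := (Finset.univ : Finset W)) (fun _ _ => Finset.mem_coe.2 (Finset.mem_univ _))]
      refine Finset.sum_congr rfl fun b _ => ?_
      unfold darts
      rw [Finset.filter_filter]
      congr 1
      ext p
      simp only [Finset.mem_filter, Finset.mem_univ, true_and]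
      tauto
    have e3 : deg H a = (Finset.univ.filter (fun b : W => H.Adj a b)).card := by
      unfold deg
      rw [Nat.card_eq_fintype_card, Fintype.card_subtype]
    rw [e1, e2, e3]
    have e4 : ∑ b : W, (darts G φ δ a b).card =
        ∑ b ∈ Finset.univ.filter (fun b : W => H.Adj a b), (darts G φ δ a b).card := by
      symm
      apply Finset.sum_subset (Finset.subset_univ _)
      intro b _ hb
      rw [Finset.mem_filter] at hb
      rw [Finset.card_eq_zero]
      unfold darts
      rw [Finset.filter_eq_empty_iff]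
      rintro ⟨u, v⟩ _ ⟨h4, h5, h6⟩
      apply hb
      refine ⟨Finset.mem_univ _, ?_⟩
      have h7 := (hδ u v h4).1
      change φ u = a at h5
      change δ u v = b at h6
      rw [h5, h6] at h7
      exact h7
    rw [e4]
    calc ∑ b ∈ Finset.univ.filter (fun b : W => H.Adj a b), (darts G φ δ a b).card
        ≤ ∑ b ∈ Finset.univ.filter (fun b : W => H.Adj a b), k := by
          refine Finset.sum_le_sum fun b hb => ?_
          rw [Finset.mem_filter] at hb
          exact h1 a b hb.2
      _ = k * (Finset.univ.filter (fun b : W => H.Adj a b)).card := by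
          rw [Finset.sum_const, smul_eq_mul, mul_comm]
  · intro a
    have e3 : Nat.card {b : W // H.Adj a b ∧ edgeCount G φ a b = 0} =
        (Finset.univ.filter (fun b : W => H.Adj a b ∧ edgeCount G φ a b = 0)).card := by
      rw [Nat.card_eq_fintype_card, Fintype.card_subtype]
    rw [e3, cod_edgeCount]
    rw [Finset.card_eq_sum_card_fiberwise (f := fun p : V × V => δ p.1 p.2)
        (s := Finset.univ.filter (fun p : V × V => G.Adj p.1 p.2 ∧ φ p.1 = a ∧ φ p.2 = a))
        (t := (Finset.univ : Finset W)) (fun _ _ => Finset.mem_coe.2 (Finset.mem_univ _))]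
    calc 2 * (Finset.univ.filter (fun b : W => H.Adj a b ∧ edgeCount G φ a b = 0)).card
        = ∑ b ∈ Finset.univ.filter (fun b : W => H.Adj a b ∧ edgeCount G φ a b = 0), 2 := by
          rw [Finset.sum_const, smul_eq_mul, mul_comm]
      _ ≤ ∑ b ∈ Finset.univ.filter (fun b : W => H.Adj a b ∧ edgeCount G φ a b = 0),
          ((Finset.univ.filter (fun p : V × V => G.Adj p.1 p.2 ∧ φ p.1 = a ∧ φ p.2 = a)).filter
            (fun p : V × V => δ p.1 p.2 = b)).card := by
          refine Finset.sum_le_sum fun b hb => ?_
          rw [Finset.mem_filter] at hb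
          obtain ⟨_, hH, h0⟩ := hb
          obtain ⟨⟨u, v⟩, hp⟩ := h2 a b hH
          unfold darts at hp
          rw [Finset.mem_filter] at hp
          obtain ⟨_, h4, h5, h6⟩ := hp
          change G.Adj u v at h4
          change φ u = a at h5
          change δ u v = b at h6
          have h7 := (hδ u v h4).2
          rw [h5, h6, Sym2.eq_iff] at h7
          rcases h7 with ⟨h8, h9⟩ | ⟨h8, h9⟩
          · have : 1 < ((Finset.univ.filter
                (fun p : V × V => G.Adj p.1 p.2 ∧ φ p.1 = a ∧ φ p.2 = a)).filter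
                (fun p : V × V => δ p.1 p.2 = b)).card := by
              rw [Finset.one_lt_card]
              refine ⟨(u, v), ?_, (v, u), ?_, ?_⟩
              · simp only [Finset.mem_filter, Finset.mem_univ, true_and]
                exact ⟨⟨h4, h5, h8.symm⟩, h6⟩
              · simp only [Finset.mem_filter, Finset.mem_univ, true_and]
                exact ⟨⟨h4.symm, h8.symm, h5⟩, h9.symm⟩
              · intro he
                exact h4.ne (Prod.ext_iff.1 he).1
            exact this
          · exfalso
            rw [cod_edgeCount, Finset.card_eq_zero, Finset.filter_eq_empty_iff] at h0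
            exact h0 (Finset.mem_univ (u, v)) ⟨h4, h5, h9.symm⟩
      _ ≤ ∑ b : W,
          ((Finset.univ.filter (fun p : V × V => G.Adj p.1 p.2 ∧ φ p.1 = a ∧ φ p.2 = a)).filter
            (fun p : V × V => δ p.1 p.2 = b)).card :=
          Finset.sum_le_sum_of_subset (Finset.subset_univ _)

end Pool.Agent.Helper217.KT
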