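import Pool.Agent.Helper217.KT.Darts

set_option autoImplicit false

namespace Pool.Agent.Helper217.KT

open Classical

lemma darts_aux {V W : Type} [Fintype V] [Fintype W]
    (G : SimpleGraph V)
    (H : SimpleGraph W) (f : real G → real H) (hf : Continuous f)
    (φ : V → W) (hφ : ∀ u, (f ⟨vtx u, vtx_mem G u⟩ : W → ℝ) = vtx (φ u))
    (δ : V → V → W) (hδ : ∀ u v (huv : G.Adj u v),
      H.Adj (φ u) (δ u v) ∧ s(φ u, δ u v) = s(φ v, δ v u) ∧
      ∀ t (h0 : 0 < t) (h1 : t < 1), ∃ s, 0 < s ∧ s < 1 ∧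
        (f ⟨pt u v t, pt_mem huv h0.le h1.le⟩ : W → ℝ) = pt (φ u) (δ u v) s)
    (a b : W) (hab : H.Adj a b) (u v : V) (huv : G.Adj u v) (hua : φ u = a) (hvb : δ u v = b) :
    ∃ c : ℝ, 0 < c ∧ ∀ y, 0 < y → y < c → ∃ t, 0 < t ∧ t < 1 / 2 ∧
      ∀ h : pt u v t ∈ real G, (f ⟨pt u v t, h⟩ : W → ℝ) = pt a b y := by
  have hne : a ≠ b := hab.ne
  let γ : Set.Icc (0 : ℝ) 1 → real G := fun t => ⟨pt u v t.1, pt_mem huv t.2.1 t.2.2⟩
  have hγ : Continuous γ := by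
    apply Continuous.subtype_mk
    exact (continuous_pt u v).comp continuous_subtype_val
  let g : ℝ → ℝ := fun t => (f (γ (Set.projIcc 0 1 zero_le_one t)) : W → ℝ) b
  have hg : Continuous g := by
    have h1 : Continuous fun t : ℝ => (f (γ (Set.projIcc 0 1 zero_le_one t)) : W → ℝ) :=
      continuous_subtype_val.comp (hf.comp (hγ.comp continuous_projIcc))
    exact (continuous_apply b).comp h1
  have hgval : ∀ t (h0 : 0 < t) (h1 : t < 1),
      g t = (f ⟨pt u v t, pt_mem huv h0.le h1.le⟩ : W → ℝ) b := by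
    intro t h0 h1
    have : Set.projIcc (0 : ℝ) 1 zero_le_one t = ⟨t, h0.le, h1.le⟩ :=
      Set.projIcc_of_mem zero_le_one ⟨h0.le, h1.le⟩
    simp only [g, γ, this]
  have hg0 : g 0 = 0 := by
    have h2 : Set.projIcc (0 : ℝ) 1 zero_le_one 0 = ⟨0, le_rfl, zero_le_one⟩ :=
      Set.projIcc_of_mem zero_le_one ⟨le_rfl, zero_le_one⟩
    have h3 : γ ⟨0, le_rfl, zero_le_one⟩ = ⟨vtx u, vtx_mem G u⟩ := by
      apply Subtype.ext
      exact pt_zero u v
    simp only [g, h2, h3, hφ u, hua]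
    exact vtx_ne hne.symm
  have hform : ∀ t (h0 : 0 < t) (h1 : t < 1), 0 < g t ∧
      (f ⟨pt u v t, pt_mem huv h0.le h1.le⟩ : W → ℝ) = pt a b (g t) := by
    intro t h0 h1
    obtain ⟨s, hs0, hs1, hs⟩ := (hδ u v huv).2.2 t h0 h1
    rw [hua, hvb] at hs
    have hgs : g t = s := by
      rw [hgval t h0 h1, hs, pt_right hne]
    rw [hgs]
    exact ⟨hs0, hs⟩
  refine ⟨g (1 / 2), (hform (1 / 2) (by norm_num) (by norm_num)).1, ?_⟩
  intro y hy0 hy1
  have hivt := intermediate_value_Icc (show (0 : ℝ) ≤ 1 / 2 by norm_num) (hg.continuousOn (s := Set.Icc (0 : ℝ) (1 / 2)))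
  have hmem : y ∈ Set.Icc (g 0) (g (1 / 2)) := by
    rw [hg0]
    exact ⟨hy0.le, hy1.le⟩
  obtain ⟨t, ⟨ht0, ht1⟩, hty⟩ := hivt hmem
  have ht0' : 0 < t := by
    rcases ht0.lt_or_eq with h | h
    · exact h
    · exfalso
      rw [← h, hg0] at hty
      linarith
  have ht1' : t < 1 / 2 := by
    rcases ht1.lt_or_eq with h | h
    · exact h
    · exfalso
      rw [h] at hty
      linarith
  refine ⟨t, ht0', ht1', ?_⟩
  intro h
  rw [← hty]
  exact (hform t ht0' (by linarith)).2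

/-- TARGET -/
theorem darts_card_le {V W : Type} [Fintype V] [Fintype W] (k : ℕ) (hk : 1 < k)
    (G : SimpleGraph V)
    (H : SimpleGraph W) (f : real G → real H) (hf : Continuous f)
    (hfib : ∀ y, Nat.card {x // f x = y} = k)
    (φ : V → W) (hφ : ∀ u, (f ⟨vtx u, vtx_mem G u⟩ : W → ℝ) = vtx (φ u))
    (δ : V → V → W) (hδ : ∀ u v (huv : G.Adj u v),
      H.Adj (φ u) (δ u v) ∧ s(φ u, δ u v) = s(φ v, δ v u) ∧
      ∀ t (h0 : 0 < t) (h1 : t < 1), ∃ s, 0 < s ∧ s < 1 ∧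
        (f ⟨pt u v t, pt_mem huv h0.le h1.le⟩ : W → ℝ) = pt (φ u) (δ u v) s)
    (a b : W) (hab : H.Adj a b) : (darts G φ δ a b).card ≤ k := by
  obtain ⟨c, hc⟩ : ∃ c : V × V → ℝ, ∀ p ∈ darts G φ δ a b, 0 < c p ∧ ∀ y, 0 < y → y < c p →
      ∃ t, 0 < t ∧ t < 1 / 2 ∧
      ∀ h : pt p.1 p.2 t ∈ real G, (f ⟨pt p.1 p.2 t, h⟩ : W → ℝ) = pt a b y := by
    have hex : ∀ p : V × V, ∃ c : ℝ, p ∈ darts G φ δ a b → 0 < c ∧ ∀ y, 0 < y → y < c →
      ∃ t, 0 < t ∧ t < 1 / 2 ∧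
      ∀ h : pt p.1 p.2 t ∈ real G, (f ⟨pt p.1 p.2 t, h⟩ : W → ℝ) = pt a b y := by
      intro p
      by_cases hp : p ∈ darts G φ δ a b
      · have hp' := hp
        simp only [darts, Finset.mem_filter, Finset.mem_univ, true_and] at hp'
        obtain ⟨c, hc0, hc⟩ := darts_aux G H f hf φ hφ δ hδ a b hab p.1 p.2 hp'.1 hp'.2.1 hp'.2.2
        exact ⟨c, fun _ => ⟨hc0, hc⟩⟩
      · exact ⟨0, fun h => absurd h hp⟩
    choose c hc using hex
    exact ⟨c, hc⟩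
  obtain ⟨y, hy0, hy1, hy⟩ : ∃ y : ℝ, 0 < y ∧ y < 1 ∧ ∀ p ∈ darts G φ δ a b, y < c p := by
    have h1 : ∀ᶠ y in nhdsWithin (0 : ℝ) (Set.Ioi 0), ∀ p ∈ darts G φ δ a b, y < c p := by
      rw [Filter.eventually_all_finset]
      intro p hp
      filter_upwards [Ioo_mem_nhdsGT (hc p hp).1] with y hy
      exact hy.2
    have h2 : ∀ᶠ y in nhdsWithin (0 : ℝ) (Set.Ioi 0), 0 < y ∧ y < 1 := by
      filter_upwards [Ioo_mem_nhdsGT (show (0 : ℝ) < 1 from one_pos)] with y hy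
      exact hy
    obtain ⟨y, h3, h4⟩ := (h1.and h2).exists
    exact ⟨y, h4.1, h4.2, h3⟩
  have hT : ∀ p : {p // p ∈ darts G φ δ a b}, ∃ t, 0 < t ∧ t < 1 / 2 ∧
      ∀ h : pt p.1.1 p.1.2 t ∈ real G, (f ⟨pt p.1.1 p.1.2 t, h⟩ : W → ℝ) = pt a b y :=
    fun p => (hc p.1 p.2).2 y hy0 (hy p.1 p.2)
  choose T hT0 hT1 hT2 using hT
  have hadj : ∀ p : {p // p ∈ darts G φ δ a b}, G.Adj p.1.1 p.1.2 := by
    intro p
    have hp' := p.2
    simp only [darts, Finset.mem_filter, Finset.mem_univ, true_and] at hp'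
    exact hp'.1
  have hTmem : ∀ p, pt p.1.1 p.1.2 (T p) ∈ real G := fun p =>
    pt_mem (hadj p) (hT0 p).le (by linarith [hT1 p])
  let Y : real H := ⟨pt a b y, pt_mem hab hy0.le hy1.le⟩
  have hfin : Finite {x // f x = Y} := by
    apply Nat.finite_of_card_ne_zero
    rw [hfib Y]
    omega
  let F : {p // p ∈ darts G φ δ a b} → {x // f x = Y} := fun p =>
    ⟨⟨pt p.1.1 p.1.2 (T p), hTmem p⟩, Subtype.ext (hT2 p (hTmem p))⟩
  have hF : Function.Injective F := by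
    intro p q hpq
    have h1 : pt p.1.1 p.1.2 (T p) = pt q.1.1 q.1.2 (T q) := by
      have h2 := congrArg (fun z : {x // f x = Y} => (z.1 : V → ℝ)) hpq
      exact h2
    rcases pt_eq_pt (hadj p).ne (hadj q).ne (hT0 p) (by linarith [hT1 p]) h1 with h | h
    · apply Subtype.ext
      exact Prod.ext h.1 h.2.1
    · exfalso
      have h3 := hT1 p
      have h4 := hT1 q
      linarith [h.2.2]
  have hle := Nat.card_le_card_of_injective F hF
  rw [hfib Y] at hle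
  have hcard : Nat.card {p // p ∈ darts G φ δ a b} = (darts G φ δ a b).card := by
    rw [Nat.card_eq_fintype_card, Fintype.card_coe]
  rw [hcard] at hle
  exact hle

end Pool.Agent.Helper217.KT
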