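import Pool.Agent.Helper217.KT.Darts

set_option autoImplicit false

namespace Pool.Agent.Helper217.KT

open Classical

/-- TARGET -/
theorem darts_nonempty {V W : Type} [Fintype V] [Fintype W] (k : ℕ) (hk : 1 < k)
    (G : SimpleGraph V)
    (H : SimpleGraph W) (f : real G → real H) (hf : Continuous f)
    (hfib : ∀ y, Nat.card {x // f x = y} = k)
    (φ : V → W) (hφ : ∀ u, (f ⟨vtx u, vtx_mem G u⟩ : W → ℝ) = vtx (φ u))
    (δ : V → V → W) (hδ : ∀ u v (huv : G.Adj u v),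
      H.Adj (φ u) (δ u v) ∧ s(φ u, δ u v) = s(φ v, δ v u) ∧
      ∀ t (h0 : 0 < t) (h1 : t < 1), ∃ s, 0 < s ∧ s < 1 ∧
        (f ⟨pt u v t, pt_mem huv h0.le h1.le⟩ : W → ℝ) = pt (φ u) (δ u v) s)
    (a b : W) (hab : H.Adj a b) : (darts G φ δ a b).Nonempty := by
  by_contra hemp
  have hno : ∀ u v, G.Adj u v → φ u = a → δ u v ≠ b := by
    intro u v huv h1 h2
    apply hemp
    exact ⟨(u, v), by simp [darts, huv, h1, h2]⟩
  have hne : a ≠ b := hab.ne
  -- the darts over the edge `ab`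
  have hE : ∀ u v, G.Adj u v → s(φ u, δ u v) = s(a, b) → φ u = b ∧ δ u v = a ∧ φ v = b := by
    intro u v huv he
    have h1 : φ u = b ∧ δ u v = a := by
      rcases Sym2.eq_iff.mp he with ⟨h1, h2⟩ | ⟨h1, h2⟩
      · exact absurd h2 (hno u v huv h1)
      · exact ⟨h1, h2⟩
    have h2 : s(φ v, δ v u) = s(a, b) := by rw [← (hδ u v huv).2.1, he]
    rcases Sym2.eq_iff.mp h2 with ⟨h3, h4⟩ | ⟨h3, h4⟩
    · exact absurd h4 (hno v u huv.symm h3)
    · exact ⟨h1.1, h1.2, h3⟩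
  let I : Type := {p : V × V // G.Adj p.1 p.2 ∧ s(φ p.1, δ p.1 p.2) = s(a, b)}
  haveI : Finite I := by
    show Finite {p : V × V // G.Adj p.1 p.2 ∧ s(φ p.1, δ p.1 p.2) = s(a, b)}
    infer_instance
  let C0 : Set (V → ℝ) := ⋃ p : I, pt p.1.1 p.1.2 '' Set.Icc (0 : ℝ) 1
  have hC0 : IsCompact C0 :=
    isCompact_iUnion fun p => isCompact_Icc.image (continuous_pt _ _)
  let C : Set (real G) := Subtype.val ⁻¹' C0
  have hC : IsCompact C := (hC0.isClosed.preimage continuous_subtype_val).isCompact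
  let h : real G → ℝ := fun x => (f x : W → ℝ) a
  have hh : Continuous h := (continuous_apply a).comp (continuous_subtype_val.comp hf)
  have hlt : ∀ x ∈ C, h x < 1 := by
    intro x hx
    have hx' : (x : V → ℝ) ∈ C0 := hx
    simp only [C0, Set.mem_iUnion] at hx'
    obtain ⟨⟨⟨u, v⟩, huv, he⟩, t, ⟨h0, h1⟩, hxt⟩ := hx'
    simp only at huv he hxt
    obtain ⟨hu, hd, hv⟩ := hE u v huv he
    rcases h0.eq_or_lt with h0' | h0'
    · have : x = ⟨vtx u, vtx_mem G u⟩ := by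
        apply Subtype.ext
        rw [← hxt, ← h0', pt_zero]
      show (f x : W → ℝ) a < 1
      rw [this, hφ, hu, vtx_ne hne]
      norm_num
    · rcases h1.eq_or_lt with h1' | h1'
      · have : x = ⟨vtx v, vtx_mem G v⟩ := by
          apply Subtype.ext
          rw [← hxt, h1', pt_one]
        show (f x : W → ℝ) a < 1
        rw [this, hφ, hv, vtx_ne hne]
        norm_num
      · have : x = ⟨pt u v t, pt_mem huv h0'.le h1'.le⟩ := Subtype.ext hxt.symm
        obtain ⟨s, hs0, hs1, hs⟩ := (hδ u v huv).2.2 t h0' h1'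
        show (f x : W → ℝ) a < 1
        rw [this, hs, hu, hd, pt_right hne.symm]
        exact hs1
  obtain ⟨c, hc1, hc⟩ : ∃ c : ℝ, c < 1 ∧ ∀ x ∈ C, h x ≤ c := by
    rcases C.eq_empty_or_nonempty with hCe | hCn
    · refine ⟨0, by norm_num, fun x hx => ?_⟩
      rw [hCe] at hx
      exact absurd hx (Set.notMem_empty x)
    · obtain ⟨x0, hx0, hmax⟩ := hC.exists_isMaxOn hCn hh.continuousOn
      exact ⟨h x0, hlt x0 hx0, fun x hx => hmax hx⟩
  have hM : max c 0 < 1 := max_lt hc1 (by norm_num)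
  have hM0 : 0 ≤ max c 0 := le_max_right _ _
  have hMc : c ≤ max c 0 := le_max_left _ _
  set ε : ℝ := (1 - max c 0) / 2 with hε
  have hε0 : 0 < ε := by rw [hε]; linarith
  have hε1 : ε < 1 := by rw [hε]; linarith
  have hεc : c < 1 - ε := by rw [hε]; linarith
  let y0 : real H := ⟨pt a b ε, pt_mem hab hε0.le hε1.le⟩
  have hfy := hfib y0
  have hnon : Nonempty {x // f x = y0} := by
    by_contra hcon
    rw [not_nonempty_iff] at hcon
    rw [Nat.card_of_isEmpty] at hfy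
    omega
  obtain ⟨x, hx⟩ := hnon
  have hxv : (f x : W → ℝ) = pt a b ε := by rw [hx]
  rcases exists_pt x.2 with ⟨u, hu⟩ | ⟨u, v, t, huv, h0, h1, hxt⟩
  · have : x = ⟨vtx u, vtx_mem G u⟩ := Subtype.ext hu
    rw [this, hφ] at hxv
    exact pt_ne_vtx hne hε0 hε1 (φ u) hxv.symm
  · have hxe : x = ⟨pt u v t, pt_mem huv h0.le h1.le⟩ := Subtype.ext hxt
    obtain ⟨s, hs0, hs1, hs⟩ := (hδ u v huv).2.2 t h0 h1
    have h2 : pt (φ u) (δ u v) s = pt a b ε := by rw [← hs, ← hxe, hxv]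
    have hmem : s(φ u, δ u v) = s(a, b) := by
      rcases pt_eq_pt (hδ u v huv).1.ne hne hs0 hs1 h2 with ⟨e1, e2, -⟩ | ⟨e1, e2, -⟩
      · rw [e1, e2]
      · rw [e1, e2]
        exact Sym2.eq_swap
    have hxC : x ∈ C := by
      show (x : V → ℝ) ∈ C0
      simp only [C0, Set.mem_iUnion]
      exact ⟨⟨(u, v), huv, hmem⟩, t, ⟨h0.le, h1.le⟩, hxt.symm⟩
    have h3 := hc x hxC
    have h4 : h x = 1 - ε := by
      show (f x : W → ℝ) a = 1 - ε
      rw [hxv, pt_left hne]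
    linarith

end Pool.Agent.Helper217.KT
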