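import Pool.Agent.Helper217.KT.Darts

set_option autoImplicit false

namespace Pool.Agent.Helper217.KT

open Classical

lemma j12027_edge {W : Type} [Fintype W] (H : SimpleGraph W) (F : ℝ → W → ℝ)
    (hF : Continuous F) (hreal : ∀ t, F t ∈ real H)
    (hnv : ∀ t ∈ Set.Ioo (0 : ℝ) 1, ∀ a, F t ≠ vtx a) (p : W) (h0 : F 0 = vtx p) :
    ∃ d, H.Adj p d ∧ ∀ t ∈ Set.Ioo (0 : ℝ) 1, ∃ s, 0 < s ∧ s < 1 ∧ F t = pt p d s := by
  have hpt : ∀ t ∈ Set.Ioo (0 : ℝ) 1, ∃ a b s, H.Adj a b ∧ 0 < s ∧ s < 1 ∧ F t = pt a b s := by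
    intro t ht
    rcases exists_pt (hreal t) with ⟨a, ha⟩ | h
    · exact absurd ha (hnv t ht a)
    · exact h
  obtain ⟨a, b, s0, hab, hs0, hs1, hF0⟩ := hpt (1/2) ⟨by norm_num, by norm_num⟩
  have hFw : ∀ w, Continuous fun t => F t w := fun w => (continuous_apply w).comp hF
  let A : Set (Set.Ioo (0:ℝ) 1) := {t | F t a ≠ 0 ∧ F t b ≠ 0}
  have hcompl : Aᶜ = ⋃ w : W, ⋃ (_ : w ≠ a ∧ w ≠ b), {t : Set.Ioo (0:ℝ) 1 | F t w ≠ 0} := by
    ext t
    obtain ⟨a', b', s, hab', hs, hs', hFt⟩ := hpt t t.2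
    have ha' : F t a' ≠ 0 := by
      rw [hFt, pt_left hab'.ne]; linarith
    have hb' : F t b' ≠ 0 := by
      rw [hFt, pt_right hab'.ne]; linarith
    have hother : ∀ w, F t w ≠ 0 → w = a' ∨ w = b' := by
      intro w hw
      by_contra hc
      push Not at hc
      exact hw (by rw [hFt, pt_other hc.1 hc.2])
    constructor
    · intro ht
      by_contra hc
      simp only [Set.mem_iUnion, not_exists] at hc
      have hc' : ∀ w, F t w ≠ 0 → w = a ∨ w = b := by
        intro w hw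
        by_contra hcw
        push Not at hcw
        exact hc w hcw hw
      apply ht
      rcases hc' a' ha' with h1 | h1
      · rcases hc' b' hb' with h2 | h2
        · exact absurd (h1.trans h2.symm) hab'.ne
        · exact ⟨h1 ▸ ha', h2 ▸ hb'⟩
      · rcases hc' b' hb' with h2 | h2
        · exact ⟨h2 ▸ hb', h1 ▸ ha'⟩
        · exact absurd (h1.trans h2.symm) hab'.ne
    · intro ht
      simp only [Set.mem_iUnion] at ht
      obtain ⟨w, ⟨hwa, hwb⟩, hw⟩ := ht
      intro htA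
      rcases hother w hw with h1 | h1 <;> rcases hother a htA.1 with h2 | h2 <;>
        rcases hother b htA.2 with h3 | h3
      · exact hwa (h1.trans h2.symm)
      · exact hwa (h1.trans h2.symm)
      · exact hwb (h1.trans h3.symm)
      · exact hab.ne (h2.trans h3.symm)
      · exact hab.ne (h2.trans h3.symm)
      · exact hwb (h1.trans h3.symm)
      · exact hwa (h1.trans h2.symm)
      · exact hwa (h1.trans h2.symm)
  have hFs : ∀ w, Continuous fun t : Set.Ioo (0:ℝ) 1 => F t w := fun w =>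
    (hFw w).comp continuous_subtype_val
  have hopen : ∀ w, IsOpen {t : Set.Ioo (0:ℝ) 1 | F t w ≠ 0} := fun w =>
    isOpen_ne_fun (hFs w) continuous_const
  have hAo : IsOpen A := (hopen a).inter (hopen b)
  have hAc : IsClosed A := by
    rw [← isOpen_compl_iff, hcompl]
    exact isOpen_iUnion fun w => isOpen_iUnion fun _ => hopen w
  haveI : PreconnectedSpace (Set.Ioo (0:ℝ) 1) :=
    Subtype.preconnectedSpace isPreconnected_Ioo
  have hA : A = Set.univ := by
    refine IsClopen.eq_univ ⟨hAc, hAo⟩ ⟨⟨1/2, by norm_num, by norm_num⟩, ?_, ?_⟩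
    · change F (1/2) a ≠ 0
      rw [hF0, pt_left hab.ne]; linarith
    · change F (1/2) b ≠ 0
      rw [hF0, pt_right hab.ne]; linarith
  have hall : ∀ t ∈ Set.Ioo (0 : ℝ) 1, ∃ s, 0 < s ∧ s < 1 ∧ F t = pt a b s := by
    intro t ht
    have hmem : (⟨t, ht⟩ : Set.Ioo (0:ℝ) 1) ∈ A := by rw [hA]; trivial
    have h1 : F t a ≠ 0 := hmem.1
    have h2 : F t b ≠ 0 := hmem.2
    obtain ⟨a', b', s, hab', hs, hs', hFt⟩ := hpt t ht
    have hother : ∀ w, F t w ≠ 0 → w = a' ∨ w = b' := by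
      intro w hw
      by_contra hc
      push Not at hc
      exact hw (by rw [hFt, pt_other hc.1 hc.2])
    rcases hother a h1 with h3 | h3
    · rcases hother b h2 with h4 | h4
      · exact absurd (h3.trans h4.symm) hab.ne
      · exact ⟨s, hs, hs', by rw [hFt, h3, h4]⟩
    · rcases hother b h2 with h4 | h4
      · exact ⟨1 - s, by linarith, by linarith, by rw [hFt, h3, h4, pt_swap]⟩
      · exact absurd (h3.trans h4.symm) hab.ne
  have hp : p = a ∨ p = b := by
    by_contra hc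
    push Not at hc
    have hsub : Set.Ioo (0:ℝ) 1 ⊆ {t | F t p = 0} := by
      intro t ht
      obtain ⟨s, _, _, hs⟩ := hall t ht
      change F t p = 0
      rw [hs, pt_other hc.1 hc.2]
    have hcl : IsClosed {t | F t p = 0} := isClosed_eq (hFw p) continuous_const
    have h1 := closure_minimal hsub hcl
    rw [closure_Ioo (by norm_num)] at h1
    have h2 : F 0 p = 0 := h1 ⟨le_rfl, zero_le_one⟩
    rw [h0, vtx_self] at h2
    exact one_ne_zero h2
  rcases hp with rfl | rfl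
  · exact ⟨b, hab, hall⟩
  · refine ⟨a, hab.symm, fun t ht => ?_⟩
    obtain ⟨s, h1, h2, h3⟩ := hall t ht
    exact ⟨1 - s, by linarith, by linarith, by rw [h3, pt_swap]⟩

/-- TARGET -/
theorem edge_image {V W : Type} [Fintype V] [Fintype W] (G : SimpleGraph V)
    (H : SimpleGraph W) (f : real G → real H) (hf : Continuous f)
    (φ : V → W) (hφ : ∀ u, (f ⟨vtx u, vtx_mem G u⟩ : W → ℝ) = vtx (φ u))
    (hv : ∀ x : real G, (∃ a, (f x : W → ℝ) = vtx a) → ∃ u, (x : V → ℝ) = vtx u) :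
    ∃ δ : V → V → W, ∀ u v (huv : G.Adj u v),
      H.Adj (φ u) (δ u v) ∧ s(φ u, δ u v) = s(φ v, δ v u) ∧
      ∀ t (h0 : 0 < t) (h1 : t < 1), ∃ s, 0 < s ∧ s < 1 ∧
        (f ⟨pt u v t, pt_mem huv h0.le h1.le⟩ : W → ℝ) = pt (φ u) (δ u v) s := by
  have key : ∀ u v : V, ∃ d : W, ∀ huv : G.Adj u v, H.Adj (φ u) d ∧
      ∀ t (h0 : 0 < t) (h1 : t < 1), ∃ s, 0 < s ∧ s < 1 ∧
        (f ⟨pt u v t, pt_mem huv h0.le h1.le⟩ : W → ℝ) = pt (φ u) d s := by
    intro u v
    by_cases huv : G.Adj u v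
    · let c : Set.Icc (0:ℝ) 1 → real G := fun t => ⟨pt u v t, pt_mem huv t.2.1 t.2.2⟩
      have hc : Continuous c :=
        Continuous.subtype_mk ((continuous_pt u v).comp continuous_subtype_val) _
      let F : ℝ → W → ℝ := fun t => f (c (Set.projIcc 0 1 zero_le_one t))
      have hFc : Continuous F :=
        continuous_subtype_val.comp (hf.comp (hc.comp continuous_projIcc))
      have hFt : ∀ t (ht0 : 0 ≤ t) (ht1 : t ≤ 1),
          F t = (f ⟨pt u v t, pt_mem huv ht0 ht1⟩ : W → ℝ) := by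
        intro t ht0 ht1
        change (f (c (Set.projIcc 0 1 zero_le_one t)) : W → ℝ) = _
        rw [Set.projIcc_of_mem zero_le_one (⟨ht0, ht1⟩ : t ∈ Set.Icc (0:ℝ) 1)]
      obtain ⟨d, hd1, hd2⟩ := j12027_edge H F hFc (fun t => (f _).2) (by
        intro t ht a hta
        obtain ⟨w, hw⟩ := hv (c (Set.projIcc 0 1 zero_le_one t)) ⟨a, hta⟩
        rw [Set.projIcc_of_mem zero_le_one (⟨ht.1.le, ht.2.le⟩ : t ∈ Set.Icc (0:ℝ) 1)] at hw
        exact pt_ne_vtx huv.ne ht.1 ht.2 w hw) (φ u) (by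
        rw [hFt 0 le_rfl zero_le_one, ← hφ u]
        congr 2
        exact Subtype.ext (pt_zero u v))
      refine ⟨d, fun _ => ⟨hd1, fun t h0 h1 => ?_⟩⟩
      rw [← hFt t h0.le h1.le]
      exact hd2 t ⟨h0, h1⟩
    · exact ⟨φ u, fun h => absurd h huv⟩
  choose δ hδ using key
  refine ⟨δ, fun u v huv => ⟨(hδ u v huv).1, ?_, (hδ u v huv).2⟩⟩
  obtain ⟨s, hs0, hs1, hs⟩ := (hδ u v huv).2 (1/2) (by norm_num) (by norm_num)
  obtain ⟨s', hs0', hs1', hs'⟩ := (hδ v u huv.symm).2 (1/2) (by norm_num) (by norm_num)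
  have hsw : pt v u (1/2) = pt u v (1/2) := by
    have := pt_swap u v (1/2)
    have h2 : (1 - 1/2 : ℝ) = 1/2 := by norm_num
    rwa [h2] at this
  have heq : pt (φ u) (δ u v) s = pt (φ v) (δ v u) s' := by
    rw [← hs, ← hs']
    congr 2
    exact Subtype.ext hsw.symm
  rcases pt_eq_pt (hδ u v huv).1.ne (hδ v u huv.symm).1.ne hs0 hs1 heq with h | h
  · rw [h.1, h.2.1]
  · rw [h.1, h.2.1, Sym2.eq_swap]

end Pool.Agent.Helper217.KT
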