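import Pool.Agent.Helper217.KT.Darts

set_option autoImplicit false

namespace Pool.Agent.Helper217.KT

open Classical

theorem cev_rat {P : ℝ → Prop} {t : ℝ} (h : ∀ᶠ x in nhds t, P x) :
    ∃ p q : ℚ, (p : ℝ) < t ∧ t < q ∧ ∀ x : ℝ, (p : ℝ) < x → x < q → P x := by
  rw [Metric.eventually_nhds_iff] at h
  obtain ⟨e, he, h⟩ := h
  obtain ⟨p, hp1, hp2⟩ := exists_rat_btwn (show t - e < t by linarith)
  obtain ⟨q, hq1, hq2⟩ := exists_rat_btwn (show t < t + e by linarith)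
  refine ⟨p, q, hp2, hq1, fun x hx1 hx2 => h ?_⟩
  rw [Real.dist_eq, abs_lt]
  constructor <;> linarith

/-- TARGET -/
theorem countable_extr_values (g : ℝ → ℝ) :
    {y : ℝ | ∃ t, 0 < t ∧ t < 1 ∧ g t = y ∧ (IsLocalMin g t ∨ IsLocalMax g t)}.Countable := by
  have hc : (⋃ p : ℚ, ⋃ q : ℚ,
      ({y : ℝ | ∃ t : ℝ, (p : ℝ) < t ∧ t < q ∧ g t = y ∧ ∀ x : ℝ, (p : ℝ) < x → x < q → y ≤ g x} ∪
       {y : ℝ | ∃ t : ℝ, (p : ℝ) < t ∧ t < q ∧ g t = y ∧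
        ∀ x : ℝ, (p : ℝ) < x → x < q → g x ≤ y})).Countable := by
    refine Set.countable_iUnion (fun p => Set.countable_iUnion (fun q => ?_))
    refine Set.Countable.union ?_ ?_
    · apply Set.Subsingleton.countable
      rintro y ⟨t, h1, h2, h3, h4⟩ y' ⟨t', h1', h2', h3', h4'⟩
      apply le_antisymm
      · rw [← h3']; exact h4 t' h1' h2'
      · rw [← h3]; exact h4' t h1 h2
    · apply Set.Subsingleton.countable
      rintro y ⟨t, h1, h2, h3, h4⟩ y' ⟨t', h1', h2', h3', h4'⟩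
      apply le_antisymm
      · rw [← h3]; exact h4' t h1 h2
      · rw [← h3']; exact h4 t' h1' h2'
  refine hc.mono ?_
  rintro y ⟨t, _, _, hy, h | h⟩
  · obtain ⟨p, q, h1, h2, h3⟩ := cev_rat h
    refine Set.mem_iUnion.2 ⟨p, Set.mem_iUnion.2 ⟨q, Or.inl ⟨t, h1, h2, hy, ?_⟩⟩⟩
    intro x hx1 hx2
    rw [← hy]
    exact h3 x hx1 hx2
  · obtain ⟨p, q, h1, h2, h3⟩ := cev_rat h
    refine Set.mem_iUnion.2 ⟨p, Set.mem_iUnion.2 ⟨q, Or.inr ⟨t, h1, h2, hy, ?_⟩⟩⟩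
    intro x hx1 hx2
    rw [← hy]
    exact h3 x hx1 hx2

end Pool.Agent.Helper217.KT
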