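import Pool.Agent.Helper217.KT.Darts

set_option autoImplicit false

namespace Pool.Agent.Helper217.KT

open Classical

theorem oc_sgn (g : ℝ → ℝ) (hg : ContinuousOn g (Set.Icc 0 1)) (y : ℝ) {a b : ℝ} (ha : 0 ≤ a)
    (hab : a ≤ b) (hb : b ≤ 1) (h : ∀ s, a ≤ s → s ≤ b → g s ≠ y) : y < g a ↔ y < g b := by
  have hc : ContinuousOn g (Set.Icc a b) := hg.mono (Set.Icc_subset_Icc ha hb)
  constructor
  · intro h1
    by_contra h2
    obtain ⟨s, hs, hsy⟩ := intermediate_value_Icc' hab hc ⟨not_lt.1 h2, h1.le⟩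
    exact h s hs.1 hs.2 hsy
  · intro h1
    by_contra h2
    obtain ⟨s, hs, hsy⟩ := intermediate_value_Icc hab hc ⟨not_lt.1 h2, h1.le⟩
    exact h s hs.1 hs.2 hsy

theorem oc_aux (g : ℝ → ℝ) (hg : ContinuousOn g (Set.Icc 0 1)) (y : ℝ) (h0 : g 0 < y)
    (hloc : ∀ t, 0 < t → t < 1 → g t = y → ¬ IsLocalMin g t ∧ ¬ IsLocalMax g t) (n : ℕ) :
    ∀ q, 0 < q → q ≤ 1 → g q ≠ y → {t : ℝ | 0 < t ∧ t < q ∧ g t = y}.Finite →
      {t : ℝ | 0 < t ∧ t < q ∧ g t = y}.ncard = n → (Odd n ↔ y < g q) := by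
  induction n with
  | zero =>
    intro q hq0 hq1 hqy hfin hcard
    rw [Set.ncard_eq_zero hfin] at hcard
    have h1 : ∀ s, 0 ≤ s → s ≤ q → g s ≠ y := by
      intro s hs0 hsq he
      rcases hs0.eq_or_lt with h | h
      · rw [← h] at he; exact absurd he h0.ne
      · rcases hsq.eq_or_lt with h' | h'
        · rw [h'] at he; exact hqy he
        · have : s ∈ {t : ℝ | 0 < t ∧ t < q ∧ g t = y} := ⟨h, h', he⟩
          rw [hcard] at this
          exact this
    have h2 := oc_sgn g hg y le_rfl hq0.le hq1 h1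
    constructor
    · intro h; exact absurd h (by decide)
    · intro h; exact absurd (h2.2 h) (not_lt.2 h0.le)
  | succ n ih =>
    intro q hq0 hq1 hqy hfin hcard
    set Z := {t : ℝ | 0 < t ∧ t < q ∧ g t = y} with hZ
    have hne : Z.Nonempty := by
      rw [← Set.ncard_pos hfin]; omega
    obtain ⟨t, htZ, htmax⟩ := hfin.exists_maximal hne
    have htm : ∀ s ∈ Z, s ≤ t := by
      intro s hs
      rcases le_total s t with h | h
      · exact h
      · exact htmax hs h
    obtain ⟨ht0, htq, hty⟩ := htZ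
    have htZ' : t ∈ Z := ⟨ht0, htq, hty⟩
    -- no zero on (t, q]
    have hr : ∀ s, t < s → s ≤ q → g s ≠ y := by
      intro s hs1 hs2 he
      rcases hs2.eq_or_lt with h | h
      · rw [h] at he; exact hqy he
      · exact absurd (htm s ⟨ht0.trans hs1, h, he⟩) (not_le.2 hs1)
    have hrs : ∀ s, t < s → s ≤ q → (y < g s ↔ y < g q) := by
      intro s hs1 hs2
      exact oc_sgn g hg y (ht0.trans hs1).le hs2 hq1 fun r hr1 hr2 => hr r (hs1.trans_le hr1) hr2
    -- no zero just left of t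
    have hfin' : (Z \ {t}).Finite := hfin.subset Set.diff_subset
    have hopen : IsOpen ((Z \ {t})ᶜ) := hfin'.isClosed.isOpen_compl
    have hmem : t ∈ (Z \ {t})ᶜ := by simp
    obtain ⟨δ, hδ, hball⟩ := Metric.isOpen_iff.1 hopen t hmem
    set a := max 0 (t - δ) with ha
    have hat : a < t := by rw [ha]; exact max_lt ht0 (by linarith)
    have ha0 : 0 ≤ a := le_max_left _ _
    have haδ : t - δ ≤ a := le_max_right _ _
    have hl : ∀ s, a < s → s < t → g s ≠ y := by
      intro s hs1 hs2 he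
      have h1 : s ∈ Metric.ball t δ := by
        rw [Metric.mem_ball, Real.dist_eq, abs_lt]
        constructor <;> linarith
      have h2 := hball h1
      apply h2
      exact ⟨⟨ha0.trans_lt hs1, hs2.trans htq, he⟩, by simpa using hs2.ne⟩
    have hls : ∀ s r, a < s → s ≤ r → r < t → (y < g s ↔ y < g r) := by
      intro s r hs1 hsr hr2
      exact oc_sgn g hg y (ha0.trans hs1.le) hsr (hr2.le.trans (htq.le.trans hq1))
        fun u hu1 hu2 => hl u (hs1.trans_le hu1) (hu2.trans_lt hr2)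
    obtain ⟨c, hac, hct⟩ := exists_between hat
    have hc0 : 0 < c := ha0.trans_lt hac
    have hcs : ∀ s, a < s → s < t → (y < g s ↔ y < g c) := by
      intro s hs1 hs2
      rcases le_total s c with h | h
      · exact hls s c hs1 h hct
      · exact (hls c s hac h hs2).symm
    have hZc : {s : ℝ | 0 < s ∧ s < c ∧ g s = y} = Z \ {t} := by
      ext s
      constructor
      · rintro ⟨h1, h2, h3⟩
        exact ⟨⟨h1, h2.trans (hct.trans htq), h3⟩, by simpa using (h2.trans hct).ne⟩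
      · rintro ⟨⟨h1, h2, h3⟩, h4⟩
        have h5 : s ≠ t := by simpa using h4
        have h6 : s < t := lt_of_le_of_ne (htm s ⟨h1, h2, h3⟩) h5
        refine ⟨h1, ?_, h3⟩
        by_contra h7
        exact hl s (hac.trans_le (not_lt.1 h7)) h6 h3
    have hcardc : {s : ℝ | 0 < s ∧ s < c ∧ g s = y}.ncard = n := by
      rw [hZc, Set.ncard_diff_singleton_of_mem htZ', hcard]
      omega
    have hIH := ih c hc0 (hct.le.trans (htq.le.trans hq1)) (hl c hac hct) (by rw [hZc]; exact hfin') hcardc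
    have hext := hloc t ht0 (htq.trans_le hq1) hty
    have hnbhd : Set.Ioo a q ∈ nhds t := Ioo_mem_nhds hat htq
    rw [Nat.odd_add_one, hIH]
    constructor
    · intro h1
      by_contra h2
      apply hext.2
      filter_upwards [hnbhd] with s hs
      rcases lt_trichotomy s t with h | h | h
      · have h3 : ¬ y < g s := fun h' => h1 ((hcs s hs.1 h).1 h')
        rw [hty]; exact not_lt.1 h3
      · rw [h]
      · have h3 : ¬ y < g s := fun h' => h2 ((hrs s h hs.2.le).1 h')
        rw [hty]; exact not_lt.1 h3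
    · intro h1 h2
      apply hext.1
      filter_upwards [hnbhd] with s hs
      rcases lt_trichotomy s t with h | h | h
      · rw [hty]; exact ((hcs s hs.1 h).2 h2).le
      · rw [h]
      · rw [hty]; exact ((hrs s h hs.2.le).2 h1).le

/-- TARGET -/
theorem odd_crossings (g : ℝ → ℝ) (hg : ContinuousOn g (Set.Icc 0 1)) (y : ℝ) (h0 : g 0 < y)
    (h1 : g 1 ≠ y) (hfin : {t : ℝ | 0 < t ∧ t < 1 ∧ g t = y}.Finite)
    (hloc : ∀ t, 0 < t → t < 1 → g t = y → ¬ IsLocalMin g t ∧ ¬ IsLocalMax g t) :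
    Odd ({t : ℝ | 0 < t ∧ t < 1 ∧ g t = y}.ncard) ↔ y < g 1 :=
  oc_aux g hg y h0 hloc _ 1 one_pos le_rfl h1 hfin rfl

end Pool.Agent.Helper217.KT
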