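import Pool.Agent.Helper217.KT.Darts
import Pool.Agent.Helper217.KT.JOddCrossings

set_option autoImplicit false

namespace Pool.Agent.Helper217.KT

open Classical

/-- TARGET -/
theorem edge_parity {V W : Type} [Fintype V] [Fintype W] 
    (G : SimpleGraph V)
    (H : SimpleGraph W) (f : real G → real H) (hf : Continuous f)
    (φ : V → W) (hφ : ∀ u, (f ⟨vtx u, vtx_mem G u⟩ : W → ℝ) = vtx (φ u))
    (δ : V → V → W) (hδ : ∀ u v (huv : G.Adj u v),
      H.Adj (φ u) (δ u v) ∧ s(φ u, δ u v) = s(φ v, δ v u) ∧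
      ∀ t (h0 : 0 < t) (h1 : t < 1), ∃ s, 0 < s ∧ s < 1 ∧
        (f ⟨pt u v t, pt_mem huv h0.le h1.le⟩ : W → ℝ) = pt (φ u) (δ u v) s)
    (a b : W) (hab : H.Adj a b)
    (u v : V) (huv : G.Adj u v) (hs : s(φ u, δ u v) = s(a, b)) (y : ℝ) (hy0 : 0 < y) (hy1 : y < 1)
    (hfin : {t : ℝ | 0 < t ∧ t < 1 ∧ coord G H f b u v t = y}.Finite)
    (hloc : ∀ t, 0 < t → t < 1 → coord G H f b u v t = y →
      ¬ IsLocalMin (coord G H f b u v) t ∧ ¬ IsLocalMax (coord G H f b u v) t) :
    Odd ({t : ℝ | 0 < t ∧ t < 1 ∧ coord G H f b u v t = y}.ncard) ↔ φ u ≠ φ v := by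
  set g := coord G H f b u v with hg
  have hgt : ∀ (t : ℝ) (h0 : 0 ≤ t) (h1 : t ≤ 1),
      g t = (f ⟨pt u v t, pt_mem huv h0 h1⟩ : W → ℝ) b := by
    intro t h0 h1
    rw [hg]
    unfold coord
    rw [dif_pos ⟨huv, h0, h1⟩]
  have hcont : ContinuousOn g (Set.Icc 0 1) := by
    rw [continuousOn_iff_continuous_domRestrict]
    have h1 : (Set.Icc (0 : ℝ) 1).domRestrict g = fun t : Set.Icc (0 : ℝ) 1 =>
        (f ⟨pt u v t.1, pt_mem huv t.2.1 t.2.2⟩ : W → ℝ) b := by
      funext t
      exact hgt t.1 t.2.1 t.2.2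
    rw [h1]
    refine (continuous_apply b).comp (continuous_subtype_val.comp (hf.comp ?_))
    exact ((continuous_pt u v).comp continuous_subtype_val).subtype_mk _
  have hg0 : g 0 = vtx (φ u) b := by
    have h1 : (⟨pt u v 0, pt_mem huv le_rfl zero_le_one⟩ : real G) = ⟨vtx u, vtx_mem G u⟩ :=
      Subtype.ext (pt_zero u v)
    rw [hgt 0 le_rfl zero_le_one, ← hφ u, h1]
  have hg1 : g 1 = vtx (φ v) b := by
    have h1 : (⟨pt u v 1, pt_mem huv zero_le_one le_rfl⟩ : real G) = ⟨vtx v, vtx_mem G v⟩ :=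
      Subtype.ext (pt_one u v)
    rw [hgt 1 zero_le_one le_rfl, ← hφ v, h1]
  have hab' : b ≠ a := hab.ne'
  have hu : φ u = a ∨ φ u = b := by
    rcases Sym2.eq_iff.1 hs with h | h
    · exact Or.inl h.1
    · exact Or.inr h.1
  have hv : φ v = a ∨ φ v = b := by
    rw [(hδ u v huv).2.1] at hs
    rcases Sym2.eq_iff.1 hs with h | h
    · exact Or.inl h.1
    · exact Or.inr h.1
  rcases hu with hu | hu
  · rw [hu, vtx_ne hab'] at hg0
    rcases hv with hv | hv
    · rw [hv, vtx_ne hab'] at hg1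
      rw [odd_crossings g hcont y (by rw [hg0]; exact hy0) (by rw [hg1]; exact hy0.ne) hfin hloc,
        hg1, hu, hv]
      constructor
      · intro h; exact absurd h (not_lt.2 hy0.le)
      · intro h; exact absurd rfl h
    · rw [hv, vtx_self] at hg1
      rw [odd_crossings g hcont y (by rw [hg0]; exact hy0) (by rw [hg1]; exact hy1.ne') hfin hloc,
        hg1, hu, hv]
      constructor
      · intro _; exact hab'.symm
      · intro _; exact hy1
  · rw [hu, vtx_self] at hg0
    have hset : {t : ℝ | 0 < t ∧ t < 1 ∧ g t = y} =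
        {t : ℝ | 0 < t ∧ t < 1 ∧ (fun t => 1 - g t) t = 1 - y} := by
      ext t
      simp only [Set.mem_ofPred_eq]
      constructor
      · rintro ⟨h0, h1, h2⟩
        exact ⟨h0, h1, by rw [h2]⟩
      · rintro ⟨h0, h1, h2⟩
        exact ⟨h0, h1, by linarith⟩
    have hcont' : ContinuousOn (fun t => 1 - g t) (Set.Icc 0 1) := continuousOn_const.sub hcont
    have hloc' : ∀ t, 0 < t → t < 1 → (fun t => 1 - g t) t = 1 - y →
        ¬ IsLocalMin (fun t => 1 - g t) t ∧ ¬ IsLocalMax (fun t => 1 - g t) t := by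
      intro t h0 h1 h2
      have h3 : g t = y := by
        have : 1 - g t = 1 - y := h2
        linarith
      obtain ⟨h4, h5⟩ := hloc t h0 h1 h3
      refine ⟨fun h => h5 ?_, fun h => h4 ?_⟩
      · exact Filter.Eventually.mono h fun x hx => by
          have : 1 - g t ≤ 1 - g x := hx
          linarith
      · exact Filter.Eventually.mono h fun x hx => by
          have : 1 - g x ≤ 1 - g t := hx
          linarith
    have hfin' : {t : ℝ | 0 < t ∧ t < 1 ∧ (fun t => 1 - g t) t = 1 - y}.Finite := by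
      rw [← hset]; exact hfin
    have hy' : (0 : ℝ) < 1 - y := by linarith
    have hy'' : 1 - y < 1 := by linarith
    rw [hset]
    rcases hv with hv | hv
    · rw [hv, vtx_ne hab'] at hg1
      rw [odd_crossings (fun t => 1 - g t) hcont' (1 - y) (by show 1 - g 0 < 1 - y; linarith)
        (by show 1 - g 1 ≠ 1 - y; intro h; linarith) hfin' hloc', hu, hv]
      constructor
      · intro _; exact hab'
      · intro _
        show 1 - y < 1 - g 1
        linarith
    · rw [hv, vtx_self] at hg1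
      rw [odd_crossings (fun t => 1 - g t) hcont' (1 - y) (by show 1 - g 0 < 1 - y; linarith)
        (by show 1 - g 1 ≠ 1 - y; intro h; linarith) hfin' hloc', hu, hv]
      constructor
      · intro h
        have : 1 - y < 1 - g 1 := h
        linarith
      · intro h; exact absurd rfl h

end Pool.Agent.Helper217.KT
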