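import Pool.Agent.Helper217.KT.Darts

set_option autoImplicit false

namespace Pool.Agent.Helper217.KT

open Classical

lemma fcs_key {V W : Type} [Fintype V] [Fintype W]
    (G : SimpleGraph V) (H : SimpleGraph W) (f : real G → real H)
    (φ : V → W)
    (δ : V → V → W) (hδ : ∀ u v (huv : G.Adj u v),
      H.Adj (φ u) (δ u v) ∧ s(φ u, δ u v) = s(φ v, δ v u) ∧
      ∀ t (h0 : 0 < t) (h1 : t < 1), ∃ s, 0 < s ∧ s < 1 ∧
        (f ⟨pt u v t, pt_mem huv h0.le h1.le⟩ : W → ℝ) = pt (φ u) (δ u v) s)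
    (a b : W) (hab : H.Adj a b) (y : ℝ) (hy0 : 0 < y) (hy1 : y < 1)
    (u v : V) (huv : G.Adj u v) (hs : s(φ u, δ u v) = s(a, b)) (t : ℝ) (h0 : 0 < t) (h1 : t < 1) :
    f ⟨pt u v t, pt_mem huv h0.le h1.le⟩ = ⟨pt a b y, pt_mem hab hy0.le hy1.le⟩ ↔
      coord G H f b u v t = y := by
  have hc : coord G H f b u v t = (f ⟨pt u v t, pt_mem huv h0.le h1.le⟩ : W → ℝ) b := by
    unfold coord
    rw [dif_pos ⟨huv, h0.le, h1.le⟩]
  rw [hc]
  constructor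
  · intro h
    rw [h]
    exact pt_right hab.ne y
  · intro h
    apply Subtype.ext
    obtain ⟨s, hs0, hs1, hfs⟩ := (hδ u v huv).2.2 t h0 h1
    rw [hfs] at h ⊢
    show pt (φ u) (δ u v) s = pt a b y
    rcases Sym2.eq_iff.1 hs with ⟨e1, e2⟩ | ⟨e1, e2⟩
    · rw [e1, e2] at h ⊢
      rw [pt_right hab.ne] at h
      rw [h]
    · rw [e1, e2] at h ⊢
      rw [pt_left hab.ne.symm] at h
      rw [← h, ← pt_swap b a s]

/-- TARGET -/
theorem fiber_card_sum {V W : Type} [Fintype V] [Fintype W] (k : ℕ) (hk : 1 < k)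
    (G : SimpleGraph V)
    (H : SimpleGraph W) (f : real G → real H) (hf : Continuous f)
    (hfib : ∀ y, Nat.card {x // f x = y} = k)
    (φ : V → W) (hφ : ∀ u, (f ⟨vtx u, vtx_mem G u⟩ : W → ℝ) = vtx (φ u))
    (δ : V → V → W) (hδ : ∀ u v (huv : G.Adj u v),
      H.Adj (φ u) (δ u v) ∧ s(φ u, δ u v) = s(φ v, δ v u) ∧
      ∀ t (h0 : 0 < t) (h1 : t < 1), ∃ s, 0 < s ∧ s < 1 ∧
        (f ⟨pt u v t, pt_mem huv h0.le h1.le⟩ : W → ℝ) = pt (φ u) (δ u v) s)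
    (a b : W) (hab : H.Adj a b)
    (r : V → ℕ) (hr : Function.Injective r) (y : ℝ) (hy0 : 0 < y) (hy1 : y < 1) :
    (∀ u v, G.Adj u v → s(φ u, δ u v) = s(a, b) →
      {t : ℝ | 0 < t ∧ t < 1 ∧ coord G H f b u v t = y}.Finite) ∧
    k = ∑ p ∈ Finset.univ.filter (fun p : V × V =>
        r p.1 < r p.2 ∧ G.Adj p.1 p.2 ∧ s(φ p.1, δ p.1 p.2) = s(a, b)),
      {t : ℝ | 0 < t ∧ t < 1 ∧ coord G H f b p.1 p.2 t = y}.ncard := by
  have key := fcs_key G H f φ δ hδ a b hab y hy0 hy1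
  have hcard := hfib ⟨pt a b y, pt_mem hab hy0.le hy1.le⟩
  have hfinF : Finite {x // f x = ⟨pt a b y, pt_mem hab hy0.le hy1.le⟩} :=
    Nat.finite_of_card_ne_zero (by rw [hcard]; omega)
  have hfin : ∀ u v, G.Adj u v → s(φ u, δ u v) = s(a, b) →
      {t : ℝ | 0 < t ∧ t < 1 ∧ coord G H f b u v t = y}.Finite := by
    intro u v huv hs
    let g : {t : ℝ | 0 < t ∧ t < 1 ∧ coord G H f b u v t = y} →
        {x // f x = ⟨pt a b y, pt_mem hab hy0.le hy1.le⟩} := fun t =>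
      ⟨⟨pt u v t.1, pt_mem huv t.2.1.le t.2.2.1.le⟩,
        (key u v huv hs t.1 t.2.1 t.2.2.1).2 t.2.2.2⟩
    have hg : Function.Injective g := by
      intro t t' h
      have h1 : pt u v t.1 = pt u v t'.1 := congrArg (fun z => (z.1 : V → ℝ)) h
      have h2 := congrFun h1 v
      rw [pt_right huv.ne, pt_right huv.ne] at h2
      exact Subtype.ext h2
    have := Finite.of_injective g hg
    exact Set.toFinite _
  refine ⟨hfin, ?_⟩
  let F : Finset (V × V) := Finset.univ.filter (fun p : V × V =>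
        r p.1 < r p.2 ∧ G.Adj p.1 p.2 ∧ s(φ p.1, δ p.1 p.2) = s(a, b))
  have hF : ∀ p ∈ F, r p.1 < r p.2 ∧ G.Adj p.1 p.2 ∧ s(φ p.1, δ p.1 p.2) = s(a, b) := by
    intro p hp
    exact (Finset.mem_filter.1 hp).2
  have hFinst : ∀ p : {p // p ∈ F},
      Finite {t : ℝ | 0 < t ∧ t < 1 ∧ coord G H f b p.1.1 p.1.2 t = y} := by
    intro p
    exact (hfin p.1.1 p.1.2 (hF p.1 p.2).2.1 (hF p.1 p.2).2.2).to_subtype
  let Ψ : (Σ p : {p // p ∈ F}, {t : ℝ | 0 < t ∧ t < 1 ∧ coord G H f b p.1.1 p.1.2 t = y}) →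
      {x // f x = ⟨pt a b y, pt_mem hab hy0.le hy1.le⟩} := fun q =>
    ⟨⟨pt q.1.1.1 q.1.1.2 q.2.1, pt_mem (hF q.1.1 q.1.2).2.1 q.2.2.1.le q.2.2.2.1.le⟩,
      (key _ _ (hF q.1.1 q.1.2).2.1 (hF q.1.1 q.1.2).2.2 q.2.1 q.2.2.1 q.2.2.2.1).2
        q.2.2.2.2⟩
  have hΨ : Function.Bijective Ψ := by
    constructor
    · rintro ⟨⟨⟨u, v⟩, hp⟩, ⟨t, ht⟩⟩ ⟨⟨⟨u', v'⟩, hp'⟩, ⟨t', ht'⟩⟩ h
      have h1 : pt u v t = pt u' v' t' := congrArg (fun z => (z.1 : V → ℝ)) h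
      have hu := hF _ hp
      have hu' := hF _ hp'
      simp only at hu hu'
      rcases pt_eq_pt hu.2.1.ne hu'.2.1.ne ht.1 ht.2.1 h1 with ⟨e1, e2, e3⟩ | ⟨e1, e2, e3⟩
      · subst e1 e2 e3
        rfl
      · exfalso
        subst e1 e2
        omega
    · rintro ⟨⟨x, hx⟩, hfx⟩
      rcases exists_pt hx with ⟨u, rfl⟩ | ⟨u, v, t, huv, h0, h1, rfl⟩
      · exfalso
        have h2 := hφ u
        have h3 : (f ⟨vtx u, vtx_mem G u⟩ : W → ℝ) = pt a b y := by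
          have := congrArg (fun z => (z.1 : W → ℝ)) hfx
          exact this
        rw [h3] at h2
        exact pt_ne_vtx hab.ne hy0 hy1 _ h2
      · have hs : s(φ u, δ u v) = s(a, b) := by
          obtain ⟨s, hs0, hs1, hfs⟩ := (hδ u v huv).2.2 t h0 h1
          have h3 : (f ⟨pt u v t, pt_mem huv h0.le h1.le⟩ : W → ℝ) = pt a b y :=
            congrArg (fun z => (z.1 : W → ℝ)) hfx
          rw [hfs] at h3
          rcases pt_eq_pt (hδ u v huv).1.ne hab.ne hs0 hs1 h3 with ⟨e1, e2, -⟩ | ⟨e1, e2, -⟩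
          · rw [e1, e2]
          · rw [e1, e2]; exact Sym2.eq_swap
        rcases lt_or_ge (r u) (r v) with hr1 | hr1
        · refine ⟨⟨⟨(u, v), Finset.mem_filter.2 ⟨Finset.mem_univ _, hr1, huv, hs⟩⟩,
            ⟨t, h0, h1, (key u v huv hs t h0 h1).1 hfx⟩⟩, rfl⟩
        · have hr2 : r v < r u := lt_of_le_of_ne hr1 (fun h => huv.ne (hr h).symm)
          have hs' : s(φ v, δ v u) = s(a, b) := by rw [← (hδ u v huv).2.1]; exact hs
          have he : pt v u (1 - t) = pt u v t := pt_swap u v t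
          have hx' : f ⟨pt v u (1 - t), pt_mem huv.symm (by linarith) (by linarith)⟩ =
              ⟨pt a b y, pt_mem hab hy0.le hy1.le⟩ := by
            rw [← hfx]
            congr 1
            exact Subtype.ext he
          refine ⟨⟨⟨(v, u), Finset.mem_filter.2 ⟨Finset.mem_univ _, hr2, huv.symm, hs'⟩⟩,
            ⟨1 - t, by linarith, by linarith,
              (key v u huv.symm hs' (1 - t) (by linarith) (by linarith)).1 hx'⟩⟩, ?_⟩
          exact Subtype.ext (Subtype.ext he)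
  have h1 := Nat.card_congr (Equiv.ofBijective Ψ hΨ)
  rw [hcard, Nat.card_sigma] at h1
  rw [← h1]
  rw [← Finset.sum_coe_sort F (fun p : V × V =>
    {t : ℝ | 0 < t ∧ t < 1 ∧ coord G H f b p.1 p.2 t = y}.ncard)]
  rfl

end Pool.Agent.Helper217.KT
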