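import Pool.Agent.Helper217.KT.Darts
import Pool.Agent.Helper217.KT.JCountableExtrValues
import Pool.Agent.Helper217.KT.JEdgeParity
import Pool.Agent.Helper217.KT.JFiberCardSum

set_option autoImplicit false

namespace Pool.Agent.Helper217.KT

open Classical

/-- TARGET -/
theorem parity_edgeCount {V W : Type} [Fintype V] [Fintype W] (k : ℕ) (hk : 1 < k)
    (G : SimpleGraph V)
    (H : SimpleGraph W) (f : real G → real H) (hf : Continuous f)
    (hfib : ∀ y, Nat.card {x // f x = y} = k)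
    (φ : V → W) (hφ : ∀ u, (f ⟨vtx u, vtx_mem G u⟩ : W → ℝ) = vtx (φ u))
    (δ : V → V → W) (hδ : ∀ u v (huv : G.Adj u v),
      H.Adj (φ u) (δ u v) ∧ s(φ u, δ u v) = s(φ v, δ v u) ∧
      ∀ t (h0 : 0 < t) (h1 : t < 1), ∃ s, 0 < s ∧ s < 1 ∧
        (f ⟨pt u v t, pt_mem huv h0.le h1.le⟩ : W → ℝ) = pt (φ u) (δ u v) s)
    (a b : W) (hab : H.Adj a b) :
    edgeCount G φ a b % 2 = k % 2 := by
  have hne : a ≠ b := hab.ne
  -- choice of the level
  have hcount : (⋃ p : V × V, {y : ℝ | ∃ t, 0 < t ∧ t < 1 ∧ coord G H f b p.1 p.2 t = y ∧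
      (IsLocalMin (coord G H f b p.1 p.2) t ∨ IsLocalMax (coord G H f b p.1 p.2) t)}).Countable :=
    Set.countable_iUnion fun p => countable_extr_values _
  obtain ⟨y, hyI, hyS⟩ := (hcount.dense_compl ℝ).inter_open_nonempty (Set.Ioo (0:ℝ) 1) isOpen_Ioo
    ⟨1 / 2, by norm_num, by norm_num⟩
  have hloc : ∀ u v t, 0 < t → t < 1 → coord G H f b u v t = y →
      ¬ IsLocalMin (coord G H f b u v) t ∧ ¬ IsLocalMax (coord G H f b u v) t := by
    intro u v t h0 h1 hy
    constructor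
    · intro hm
      exact hyS (Set.mem_iUnion.2 ⟨(u, v), t, h0, h1, hy, Or.inl hm⟩)
    · intro hm
      exact hyS (Set.mem_iUnion.2 ⟨(u, v), t, h0, h1, hy, Or.inr hm⟩)
  -- an injective ranking
  set r : V → ℕ := fun v => (Fintype.equivFin V v).val with hrdef
  have hr : Function.Injective r := fun u v h =>
    (Fintype.equivFin V).injective (Fin.ext h)
  obtain ⟨hfin, hsum⟩ := fiber_card_sum k hk G H f hf hfib φ hφ δ hδ a b hab r hr y hyI.1 hyI.2
  set T : Finset (V × V) := Finset.univ.filter (fun p : V × V =>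
        r p.1 < r p.2 ∧ G.Adj p.1 p.2 ∧ s(φ p.1, δ p.1 p.2) = s(a, b)) with hT
  set N : V × V → ℕ := fun p => {t : ℝ | 0 < t ∧ t < 1 ∧ coord G H f b p.1 p.2 t = y}.ncard
    with hN
  have hodd : ∀ p ∈ T, (Odd (N p) ↔ φ p.1 ≠ φ p.2) := by
    intro p hp
    obtain ⟨h1, h2, h3⟩ := (Finset.mem_filter.1 hp).2
    exact edge_parity G H f hf φ hφ δ hδ a b hab p.1 p.2 h2 h3 y hyI.1 hyI.2
      (hfin _ _ h2 h3) (hloc _ _)
  have hk2 : Odd k ↔ Odd (T.filter fun p => φ p.1 ≠ φ p.2).card := by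
    have h1 : k = ∑ p ∈ T, N p := hsum
    rw [h1, Finset.odd_sum_iff_odd_card_odd]
    have h2 : T.filter (fun p => Odd (N p)) = T.filter fun p => φ p.1 ≠ φ p.2 :=
      Finset.filter_congr hodd
    rw [h2]
  -- the count
  have hcard : edgeCount G φ a b = (Finset.univ.filter (fun p : V × V =>
      G.Adj p.1 p.2 ∧ φ p.1 = a ∧ φ p.2 = b)).card := by
    unfold edgeCount
    rw [Nat.card_eq_fintype_card, Fintype.card_subtype]
  have hbij : (Finset.univ.filter (fun p : V × V =>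
      G.Adj p.1 p.2 ∧ φ p.1 = a ∧ φ p.2 = b)).card = (T.filter fun p => φ p.1 ≠ φ p.2).card := by
    have key : ∀ u v, G.Adj u v → φ u = a → φ v = b →
        s(φ u, δ u v) = s(a, b) ∧ s(φ v, δ v u) = s(a, b) := by
      intro u v h h1 h2
      have h3 := (hδ u v h).2.1
      rw [← h3]
      refine ⟨?_, ?_⟩ <;>
      · rw [h1, h2] at h3
        rw [h1]
        rcases Sym2.eq_iff.1 h3 with ⟨h4, -⟩ | ⟨-, h4⟩
        · exact absurd h4 hne
        · rw [h4]
    have key2 : ∀ u v, G.Adj u v → s(φ u, δ u v) = s(a, b) → φ u ≠ φ v →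
        (φ u = a ∧ φ v = b) ∨ (φ u = b ∧ φ v = a) := by
      intro u v h h1 h2
      have h3 := (hδ u v h).2.1
      rw [h1] at h3
      rcases Sym2.eq_iff.1 h1 with ⟨h4, -⟩ | ⟨h4, -⟩
      · rcases Sym2.eq_iff.1 h3 with ⟨h5, -⟩ | ⟨-, h5⟩
        · exact absurd (h4.trans h5) h2
        · exact Or.inl ⟨h4, h5.symm⟩
      · rcases Sym2.eq_iff.1 h3 with ⟨h5, -⟩ | ⟨-, h5⟩
        · exact Or.inr ⟨h4, h5.symm⟩
        · exact absurd (h4.trans h5) h2
    refine Finset.card_nbij' (fun p => if r p.1 < r p.2 then p else p.swap)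
      (fun q => if φ q.1 = a then q else q.swap) ?_ ?_ ?_ ?_
    · intro p hp
      obtain ⟨h1, h2, h3⟩ := (Finset.mem_filter.1 (Finset.mem_coe.1 hp)).2
      obtain ⟨k1, k2⟩ := key _ _ h1 h2 h3
      rw [Finset.mem_coe, Finset.mem_filter, hT, Finset.mem_filter]
      by_cases hlt : r p.1 < r p.2
      · simp only [if_pos hlt]
        refine ⟨⟨Finset.mem_univ _, hlt, h1, k1⟩, ?_⟩
        rw [h2, h3]; exact hne
      · simp only [if_neg hlt, Prod.fst_swap, Prod.snd_swap]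
        have hlt' : r p.2 < r p.1 :=
          lt_of_le_of_ne (not_lt.1 hlt) fun h => h1.ne (hr h).symm
        refine ⟨⟨Finset.mem_univ _, hlt', h1.symm, k2⟩, ?_⟩
        rw [h2, h3]; exact hne.symm
    · intro q hq
      rw [Finset.mem_coe, Finset.mem_filter, hT, Finset.mem_filter] at hq
      obtain ⟨⟨-, h1, h2, h3⟩, h4⟩ := hq
      rw [Finset.mem_coe, Finset.mem_filter]
      rcases key2 _ _ h2 h3 h4 with ⟨h5, h6⟩ | ⟨h5, h6⟩
      · simp only [if_pos h5]
        exact ⟨Finset.mem_univ _, h2, h5, h6⟩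
      · have h7 : φ q.1 ≠ a := by rw [h5]; exact hne.symm
        simp only [if_neg h7, Prod.fst_swap, Prod.snd_swap]
        exact ⟨Finset.mem_univ _, h2.symm, h6, h5⟩
    · intro p hp
      obtain ⟨h1, h2, h3⟩ := (Finset.mem_filter.1 (Finset.mem_coe.1 hp)).2
      by_cases hlt : r p.1 < r p.2
      · simp only [if_pos hlt, if_pos h2]
      · have h7 : φ p.2 ≠ a := by rw [h3]; exact hne.symm
        simp only [if_neg hlt, Prod.fst_swap, if_neg h7, Prod.swap_swap]
    · intro q hq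
      rw [Finset.mem_coe, Finset.mem_filter, hT, Finset.mem_filter] at hq
      obtain ⟨⟨-, h1, h2, h3⟩, h4⟩ := hq
      by_cases h5 : φ q.1 = a
      · simp only [if_pos h5, if_pos h1]
      · have h6 : ¬ r q.2 < r q.1 := not_lt.2 h1.le
        simp only [if_neg h5, Prod.fst_swap, Prod.snd_swap, if_neg h6, Prod.swap_swap]
  rw [hcard, hbij]
  rcases Nat.even_or_odd k with he | ho
  · have h1 : ¬ Odd (T.filter fun p => φ p.1 ≠ φ p.2).card := fun h =>
      (Nat.not_odd_iff_even.2 he) (hk2.2 h)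
    rw [Nat.not_odd_iff_even] at h1
    rw [Nat.even_iff.1 h1, Nat.even_iff.1 he]
  · rw [Nat.odd_iff.1 (hk2.1 ho), Nat.odd_iff.1 ho]

end Pool.Agent.Helper217.KT
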