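import Pool.Agent.Helper217.KT.Darts
import Pool.Agent.Helper217.KT.JEdgeImage
import Pool.Agent.Helper217.KT.JDartsCardLe
import Pool.Agent.Helper217.KT.JDartsNonempty
import Pool.Agent.Helper217.KT.JParityEdgeCount
import Pool.Agent.Helper217.KT.JCompatibleOfDarts

set_option autoImplicit false

namespace Pool.Agent.Helper217.KT

open Classical

/-- TARGET -/
theorem compatible_of_map {V W : Type} [Fintype V] [Fintype W] (k : ℕ) (hk : 1 < k)
    (G : SimpleGraph V)
    (H : SimpleGraph W) (f : real G → real H) (hf : Continuous f)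
    (hfib : ∀ y, Nat.card {x // f x = y} = k)
    (φ : V → W) (hφ : ∀ u, (f ⟨vtx u, vtx_mem G u⟩ : W → ℝ) = vtx (φ u))
    (hv : ∀ x : real G, (∃ a, (f x : W → ℝ) = vtx a) → ∃ u, (x : V → ℝ) = vtx u) :
    Compatible k G H φ := by
  obtain ⟨δ, hδ⟩ := edge_image G H f hf φ hφ hv
  refine compatible_of_darts k hk G H φ ?_ δ (fun u v huv => ⟨(hδ u v huv).1, (hδ u v huv).2.1⟩)
    (fun a b hab => darts_card_le k hk G H f hf hfib φ hφ δ hδ a b hab)
    (fun a b hab => darts_nonempty k hk G H f hf hfib φ hφ δ hδ a b hab)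
    (fun a b hab => parity_edgeCount k hk G H f hf hfib φ hφ δ hδ a b hab)
  intro a
  rw [← hfib ⟨vtx a, vtx_mem H a⟩]
  have key : ∀ u : V, φ u = a → f ⟨vtx u, vtx_mem G u⟩ = ⟨vtx a, vtx_mem H a⟩ := by
    intro u hu
    apply Subtype.ext
    rw [hφ u, hu]
  refine Nat.card_congr (Equiv.ofBijective
    (fun u : {u : V // φ u = a} =>
      (⟨⟨vtx u.1, vtx_mem G u.1⟩, key u.1 u.2⟩ :
        {x : real G // f x = ⟨vtx a, vtx_mem H a⟩})) ⟨?_, ?_⟩)
  · intro u u' h
    have h1 : vtx u.1 = vtx u'.1 := congrArg (fun z => (z.1 : V → ℝ)) h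
    exact Subtype.ext (vtx_injective h1)
  · rintro ⟨x, hx⟩
    obtain ⟨u, hu⟩ := hv x ⟨a, by rw [hx]⟩
    have hxu : x = ⟨vtx u, vtx_mem G u⟩ := Subtype.ext hu
    have hφa : φ u = a := by
      have h2 := hφ u
      rw [← hxu, hx] at h2
      exact vtx_injective h2.symm
    exact ⟨⟨u, hφa⟩, Subtype.ext hxu.symm⟩

end Pool.Agent.Helper217.KT
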