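import Pool.Agent.Helper217.KT.Darts

set_option autoImplicit false

namespace Pool.Agent.Helper217.KT

open Classical

/-- TARGET -/
theorem exists_fiber_counts {α β : Type} [Nonempty β] (S : Finset α) (N : Finset β)
    (lo hi : β → ℕ) (hle : ∀ b ∈ N, lo b ≤ hi b) (h1 : ∑ b ∈ N, lo b ≤ S.card)
    (h2 : S.card ≤ ∑ b ∈ N, hi b) :
    ∃ f : α → β, (∀ s ∈ S, f s ∈ N) ∧
      ∀ b ∈ N, lo b ≤ (S.filter (fun s => f s = b)).card ∧
        (S.filter (fun s => f s = b)).card ≤ hi b := by
  induction N using Finset.induction_on generalizing S with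
  | empty =>
    have hS : S = ∅ := by
      rw [← Finset.card_eq_zero]
      simpa using h2
    subst hS
    exact ⟨fun _ => Classical.arbitrary β, by simp, by simp⟩
  | insert b0 N hb0 ih =>
    rw [Finset.sum_insert hb0] at h1 h2
    have hle0 : lo b0 ≤ hi b0 := hle b0 (Finset.mem_insert_self _ _)
    have hleN : ∀ b ∈ N, lo b ≤ hi b := fun b hb => hle b (Finset.mem_insert_of_mem hb)
    have hsum : ∑ b ∈ N, lo b ≤ ∑ b ∈ N, hi b := Finset.sum_le_sum hleN
    obtain ⟨x, hx1, hx2, hx3, hx4⟩ : ∃ x : ℕ, lo b0 ≤ x ∧ x ≤ hi b0 ∧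
        x + ∑ b ∈ N, lo b ≤ S.card ∧ S.card ≤ x + ∑ b ∈ N, hi b := by
      refine ⟨max (lo b0) (S.card - ∑ b ∈ N, hi b), ?_, ?_, ?_, ?_⟩ <;> omega
    obtain ⟨T, hTS, hTc⟩ := Finset.exists_subset_card_eq (s := S) (n := x) (by omega)
    have hc : (S \ T).card = S.card - x := by
      rw [Finset.card_sdiff_of_subset hTS, hTc]
    obtain ⟨g, hg1, hg2⟩ := ih (S \ T) hleN (by omega) (by omega)
    refine ⟨fun s => if s ∈ T then b0 else g s, ?_, ?_⟩
    · intro s hs
      by_cases hsT : s ∈ T
      · simp [hsT]
      · simp only [hsT, if_false]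
        exact Finset.mem_insert_of_mem (hg1 s (Finset.mem_sdiff.2 ⟨hs, hsT⟩))
    · intro b hb
      rcases Finset.mem_insert.1 hb with rfl | hbN
      · have : S.filter (fun s => (if s ∈ T then b else g s) = b) = T := by
          ext s
          simp only [Finset.mem_filter]
          constructor
          · rintro ⟨hs, h⟩
            by_contra hsT
            simp only [hsT, if_false] at h
            exact hb0 (h ▸ hg1 s (Finset.mem_sdiff.2 ⟨hs, hsT⟩))
          · intro hsT
            exact ⟨hTS hsT, by simp [hsT]⟩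
        rw [this, hTc]
        exact ⟨hx1, hx2⟩
      · have hne : b ≠ b0 := fun h => hb0 (h ▸ hbN)
        have : S.filter (fun s => (if s ∈ T then b0 else g s) = b)
            = (S \ T).filter (fun s => g s = b) := by
          ext s
          simp only [Finset.mem_filter, Finset.mem_sdiff]
          constructor
          · rintro ⟨hs, h⟩
            by_cases hsT : s ∈ T
            · simp only [hsT, if_true] at h
              exact absurd h.symm hne
            · simp only [hsT, if_false] at h
              exact ⟨⟨hs, hsT⟩, h⟩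
          · rintro ⟨⟨hs, hsT⟩, h⟩
            refine ⟨hs, ?_⟩
            simp only [hsT, if_false]
            exact h
        rw [this]
        exact hg2 b hbN

end Pool.Agent.Helper217.KT
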