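import Pool.Agent.Helper217.KT.Darts
import Pool.Agent.Helper217.KT.JExistsFiberCounts

set_option autoImplicit false

namespace Pool.Agent.Helper217.KT

open Classical

lemma exists_delta_natcard {α : Type} [Fintype α] (p : α → Prop) [DecidablePred p] :
    Nat.card {x // p x} = (Finset.univ.filter p).card := by
  rw [Nat.card_eq_fintype_card, Fintype.card_subtype]

lemma exists_delta_ec {V W : Type} [Fintype V] (G : SimpleGraph V) (φ : V → W) (a b : W) :
    edgeCount G φ a b =
      (Finset.univ.filter (fun p : V × V => G.Adj p.1 p.2 ∧ φ p.1 = a ∧ φ p.2 = b)).card :=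
  exists_delta_natcard (fun p : V × V => G.Adj p.1 p.2 ∧ φ p.1 = a ∧ φ p.2 = b)

/-- the loop darts at `a` -/
noncomputable def exists_delta_L {V W : Type} [Fintype V] (G : SimpleGraph V) (φ : V → W) (a : W) :
    Finset (V × V) :=
  Finset.univ.filter (fun p : V × V => G.Adj p.1 p.2 ∧ φ p.1 = a ∧ φ p.2 = a)

/-- the loop edges at `a` -/
noncomputable def exists_delta_S {V W : Type} [Fintype V] (G : SimpleGraph V) (φ : V → W) (a : W) :
    Finset (Sym2 V) :=
  (exists_delta_L G φ a).image (fun p => s(p.1, p.2))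

lemma exists_delta_two {V W : Type} [Fintype V] (G : SimpleGraph V) (φ : V → W) (a : W)
    (P : Sym2 V → Prop) :
    ((exists_delta_L G φ a).filter (fun p => P s(p.1, p.2))).card =
      2 * ((exists_delta_S G φ a).filter P).card := by
  have hmaps : Set.MapsTo (fun p : V × V => s(p.1, p.2))
      (((exists_delta_L G φ a).filter (fun p => P s(p.1, p.2)) : Finset (V × V)) : Set (V × V))
      (((exists_delta_S G φ a).filter P : Finset (Sym2 V)) : Set (Sym2 V)) := by
    intro p hp
    have hp' := Finset.mem_filter.mp (Finset.mem_coe.mp hp)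
    exact Finset.mem_coe.mpr (Finset.mem_filter.mpr ⟨Finset.mem_image.mpr ⟨p, hp'.1, rfl⟩, hp'.2⟩)
  rw [Finset.card_eq_sum_card_fiberwise hmaps, mul_comm]
  refine Finset.sum_const_nat ?_
  intro e he
  obtain ⟨he1, he2⟩ := Finset.mem_filter.mp he
  obtain ⟨⟨u, v⟩, huv, rfl⟩ := Finset.mem_image.mp he1
  have huv' := (Finset.mem_filter.mp huv).2
  have hne : u ≠ v := huv'.1.ne
  have hset : (((exists_delta_L G φ a).filter (fun p => P s(p.1, p.2))).filter
      (fun p => s(p.1, p.2) = s(u, v))) = {(u, v), (v, u)} := by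
    ext ⟨x, y⟩
    simp only [Finset.mem_filter, Finset.mem_insert, Finset.mem_singleton, exists_delta_L,
      Finset.mem_univ, true_and, Prod.mk.injEq]
    constructor
    · rintro ⟨_, h2⟩
      rcases Sym2.eq_iff.mp h2 with ⟨h3, h4⟩ | ⟨h3, h4⟩
      · exact Or.inl ⟨h3, h4⟩
      · exact Or.inr ⟨h3, h4⟩
    · rintro (⟨rfl, rfl⟩ | ⟨rfl, rfl⟩)
      · exact ⟨⟨huv', he2⟩, rfl⟩
      · refine ⟨⟨⟨huv'.1.symm, huv'.2.2, huv'.2.1⟩, ?_⟩, Sym2.eq_swap⟩
        rw [Sym2.eq_swap]; exact he2
  rw [hset, Finset.card_pair]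
  intro h
  exact hne (Prod.ext_iff.mp h).1

lemma exists_delta_lam {V W : Type} [Fintype V] [Fintype W] [Nonempty W] (k : ℕ) (hk : 1 < k)
    (G : SimpleGraph V) (H : SimpleGraph W) (φ : V → W) (h : Compatible k G H φ) (a : W) :
    ∃ f : Sym2 V → W, (∀ s ∈ exists_delta_S G φ a, H.Adj a (f s)) ∧
      ∀ b, H.Adj a b → (if edgeCount G φ a b = 0 then 1 else 0) ≤
          ((exists_delta_S G φ a).filter (fun s => f s = b)).card ∧
        ((exists_delta_S G φ a).filter (fun s => f s = b)).card ≤ (k - edgeCount G φ a b) / 2 := by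
  have hS : edgeCount G φ a a = 2 * (exists_delta_S G φ a).card := by
    have h1 := exists_delta_two G φ a (fun _ => True)
    simp only [Finset.filter_true] at h1
    rw [← h1]
    exact exists_delta_ec G φ a a
  have key := exists_fiber_counts (exists_delta_S G φ a) (Finset.univ.filter (fun b => H.Adj a b))
    (fun b => if edgeCount G φ a b = 0 then 1 else 0) (fun b => (k - edgeCount G φ a b) / 2)
    ?_ ?_ ?_
  · obtain ⟨f, hf1, hf2⟩ := key
    refine ⟨f, fun s hs => (Finset.mem_filter.mp (hf1 s hs)).2, fun b hb => ?_⟩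
    exact hf2 b (Finset.mem_filter.mpr ⟨Finset.mem_univ _, hb⟩)
  · intro b hb
    have hb' := (Finset.mem_filter.mp hb).2
    have hpar := h.parity a b hb'
    show (if edgeCount G φ a b = 0 then 1 else 0) ≤ (k - edgeCount G φ a b) / 2
    split_ifs with h0
    · rw [h0] at hpar ⊢
      omega
    · omega
  · have h1 : ∑ b ∈ Finset.univ.filter (fun b => H.Adj a b), (if edgeCount G φ a b = 0 then 1 else 0) =
        Nat.card {b : W // H.Adj a b ∧ edgeCount G φ a b = 0} := by
      rw [exists_delta_natcard (fun b : W => H.Adj a b ∧ edgeCount G φ a b = 0),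
        ← Finset.card_filter, Finset.filter_filter]
    have h2 := h.loops a
    rw [← h1, hS] at h2
    exact Nat.le_of_mul_le_mul_left h2 (by norm_num)
  · -- upper bound
    have hrow := h.row a
    have hdeg : deg H a = (Finset.univ.filter (fun b => H.Adj a b)).card :=
      exists_delta_natcard (fun b => H.Adj a b)
    have hnot : a ∉ Finset.univ.filter (fun b => H.Adj a b) := by simp
    have h1 : edgeCount G φ a a + ∑ b ∈ Finset.univ.filter (fun b => H.Adj a b), edgeCount G φ a b ≤
        ∑ b : W, edgeCount G φ a b := by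
      rw [← Finset.sum_insert hnot]
      exact Finset.sum_le_sum_of_subset (Finset.subset_univ _)
    have h2 : ∑ b ∈ Finset.univ.filter (fun b => H.Adj a b), (2 * ((k - edgeCount G φ a b) / 2) + edgeCount G φ a b) =
        k * (Finset.univ.filter (fun b => H.Adj a b)).card := by
      rw [mul_comm]
      refine Finset.sum_const_nat ?_
      intro b hb
      have hb' := (Finset.mem_filter.mp hb).2
      have hpar := h.parity a b hb'
      have hle := h.le a b hb'
      omega
    rw [Finset.sum_add_distrib, ← Finset.mul_sum] at h2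
    rw [hdeg] at hrow
    show (exists_delta_S G φ a).card ≤ ∑ b ∈ Finset.univ.filter (fun b => H.Adj a b), (k - edgeCount G φ a b) / 2
    omega

/-- TARGET -/
theorem exists_delta {V W : Type} [Fintype V] [Fintype W] (k : ℕ) (hk : 1 < k)
    (G : SimpleGraph V) (H : SimpleGraph W) (φ : V → W) (h : Compatible k G H φ) :
    ∃ δ : V → V → W,
      (∀ u v, G.Adj u v → H.Adj (φ u) (δ u v) ∧ s(φ u, δ u v) = s(φ v, δ v u)) ∧
      (∀ a b, H.Adj a b → (darts G φ δ a b).card ≤ k ∧
        (darts G φ δ a b).card % 2 = k % 2 ∧ (darts G φ δ a b).Nonempty) := by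
  rcases isEmpty_or_nonempty W with hW | hW
  · exact ⟨fun u _ => φ u, fun u => isEmptyElim (φ u), fun a => isEmptyElim a⟩
  choose lam hlam1 hlam2 using exists_delta_lam k hk G H φ h
  set δ : V → V → W := fun u v => if φ u = φ v then lam (φ u) s(u, v) else φ v with hδ
  refine ⟨δ, ?_, ?_⟩
  · intro u v huv
    by_cases he : φ u = φ v
    · have e1 : δ u v = lam (φ u) s(u, v) := by simp [hδ, he]
      have e2 : δ v u = lam (φ u) s(u, v) := by
        rw [hδ]
        show (if φ v = φ u then lam (φ v) s(v, u) else φ u) = _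
        rw [if_pos he.symm, he, Sym2.eq_swap]
      have hmem : s(u, v) ∈ exists_delta_S G φ (φ u) :=
        Finset.mem_image.mpr ⟨(u, v), Finset.mem_filter.mpr ⟨Finset.mem_univ _, huv, rfl, he.symm⟩, rfl⟩
      rw [e1, e2]
      refine ⟨hlam1 _ _ hmem, ?_⟩
      rw [he]
    · have e1 : δ u v = φ v := by simp [hδ, he]
      have e2 : δ v u = φ u := by
        rw [hδ]
        show (if φ v = φ u then lam (φ v) s(v, u) else φ u) = _
        rw [if_neg (fun h' => he h'.symm)]
      rw [e1, e2]
      refine ⟨?_, Sym2.eq_swap⟩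
      by_contra hna
      have h0 := h.nonadj _ _ he hna
      rw [exists_delta_ec, Finset.card_eq_zero] at h0
      have h2 : (u, v) ∈ (Finset.univ.filter (fun p : V × V => G.Adj p.1 p.2 ∧ φ p.1 = φ u ∧ φ p.2 = φ v)) :=
        Finset.mem_filter.mpr ⟨Finset.mem_univ _, huv, rfl, rfl⟩
      rw [h0] at h2
      simp at h2
  · intro a b hab
    have hne : a ≠ b := hab.ne
    obtain ⟨hlo, hhi⟩ := hlam2 a b hab
    have hle := h.le a b hab
    have hpar := h.parity a b hab
    have hcard : (darts G φ δ a b).card = edgeCount G φ a b +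
        2 * ((exists_delta_S G φ a).filter (fun s => lam a s = b)).card := by
      rw [← exists_delta_two G φ a (fun s => lam a s = b)]
      rw [exists_delta_ec G φ a b]
      rw [← Finset.card_union_of_disjoint]
      · congr 1
        ext ⟨x, y⟩
        simp only [darts, exists_delta_L, Finset.mem_union, Finset.mem_filter, Finset.mem_univ, true_and]
        constructor
        · rintro ⟨h2, h3, h4⟩
          by_cases h5 : φ x = φ y
          · right
            have h6 : δ x y = lam (φ x) s(x, y) := by simp [hδ, h5]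
            rw [h6, h3] at h4
            exact ⟨⟨h2, h3, h5.symm.trans h3⟩, h4⟩
          · left
            have h6 : δ x y = φ y := by simp [hδ, h5]
            rw [h6] at h4
            exact ⟨h2, h3, h4⟩
        · rintro (⟨h2, h3, h4⟩ | ⟨⟨h2, h3, h4⟩, h5⟩)
          · have h5 : φ x ≠ φ y := by rw [h3, h4]; exact hne
            have h6 : δ x y = φ y := by simp [hδ, h5]
            exact ⟨h2, h3, h6.trans h4⟩
          · have h6 : δ x y = lam (φ x) s(x, y) := by
              have : φ x = φ y := h3.trans h4.symm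
              simp [hδ, this]
            refine ⟨h2, h3, ?_⟩
            rw [h6, h3]; exact h5
      · rw [Finset.disjoint_left]
        rintro ⟨x, y⟩ h2 h3
        have h4 := (Finset.mem_filter.mp h2).2
        have h5 := (Finset.mem_filter.mp (Finset.mem_filter.mp h3).1).2
        exact hne (h5.2.2.symm.trans h4.2.2)
    rw [← Finset.card_pos, hcard]
    split_ifs at hlo with h0 <;> omega

end Pool.Agent.Helper217.KT
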