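import Pool.Agent.Helper217.KT.Darts
import Pool.Agent.Helper217.KT.JExistsDelta

set_option autoImplicit false

namespace Pool.Agent.Helper217.KT

open Classical

/-- TARGET -/
theorem exists_assignment {V W : Type} [Fintype V] [Fintype W] (k : ℕ) (hk : 1 < k)
    (G : SimpleGraph V) (H : SimpleGraph W) (φ : V → W) (h : Compatible k G H φ) :
    ∃ (δ : V → V → W) (j : V → V → ℕ),
      (∀ u v, G.Adj u v → H.Adj (φ u) (δ u v) ∧ s(φ u, δ u v) = s(φ v, δ v u)) ∧
      (∀ a b, H.Adj a b → ∑ p ∈ darts G φ δ a b, (2 * j p.1 p.2 + 1) = k) := by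
  obtain ⟨δ, h1, h2⟩ := exists_delta k hk G H φ h
  refine ⟨δ, fun u v => if hne : (darts G φ δ (φ u) (δ u v)).Nonempty then
    (if (u, v) = hne.choose then (k - (darts G φ δ (φ u) (δ u v)).card) / 2 else 0) else 0,
    h1, ?_⟩
  intro a b hab
  obtain ⟨g1, g2, g3⟩ := h2 a b hab
  have key : ∀ p ∈ darts G φ δ a b,
      (2 * (if hne : (darts G φ δ (φ p.1) (δ p.1 p.2)).Nonempty then
        (if (p.1, p.2) = hne.choose then (k - (darts G φ δ (φ p.1) (δ p.1 p.2)).card) / 2
          else 0) else 0) + 1) =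
      (if p = g3.choose then 2 * ((k - (darts G φ δ a b).card) / 2) else 0) + 1 := by
    intro p hp
    obtain ⟨_, e1, e2⟩ := (Finset.mem_filter.mp hp).2
    subst e1
    subst e2
    rw [dif_pos g3]
    by_cases hc : p = g3.choose
    · rw [if_pos hc, if_pos (show (p.1, p.2) = g3.choose from hc)]
    · rw [if_neg hc, if_neg (show ¬ (p.1, p.2) = g3.choose from hc)]
  have h3 := g3.choose_spec
  refine (Finset.sum_congr rfl key).trans ?_
  rw [Finset.sum_add_distrib, Finset.sum_ite_eq', if_pos h3, Finset.sum_const, smul_eq_mul,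
    mul_one]
  omega

end Pool.Agent.Helper217.KT
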