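import Pool.Agent.Helper217.KT.Darts

set_option autoImplicit false

namespace Pool.Agent.Helper217.KT

open Classical

lemma ecm836_half {V W : Type} (G : SimpleGraph V)
    (H : SimpleGraph W) (φ : V → W) (δ : V → V → W)
    (hδ : ∀ u v, G.Adj u v → H.Adj (φ u) (δ u v) ∧ s(φ u, δ u v) = s(φ v, δ v u))
    (u v : V) (h : G.Adj u v) :
    pt (φ u) (δ u v) (1 / 2) = pt (φ v) (δ v u) (1 / 2) := by
  have h2 := (hδ u v h).2
  rw [Sym2.eq_iff] at h2
  rcases h2 with ⟨h3, h4⟩ | ⟨h3, h4⟩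
  · rw [h3, h4]
  · rw [h3, h4]
    have h5 := pt_swap (δ v u) (φ v) (1 / 2)
    rw [← h5]
    norm_num

lemma ecm836_exists {V W : Type} [Fintype V] [Fintype W] (G : SimpleGraph V)
    (H : SimpleGraph W) (φ : V → W) (δ : V → V → W)
    (hδ : ∀ u v, G.Adj u v → H.Adj (φ u) (δ u v) ∧ s(φ u, δ u v) = s(φ v, δ v u))
    (Z : V → V → ℝ → ℝ)
    (hZ0 : ∀ u v, Z u v 0 = 0) (hZ1 : ∀ u v, Z u v (1 / 2) = 1 / 2)
    (hZ : ∀ u v t, 0 < t → t ≤ 1 / 2 → 0 < Z u v t ∧ Z u v t ≤ 1 / 2) (x : real G) :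
    ∃ y : real H, (∀ u, (x : V → ℝ) = vtx u → (y : W → ℝ) = vtx (φ u)) ∧
      ∀ u v t, G.Adj u v → 0 ≤ t → t ≤ 1 / 2 → (x : V → ℝ) = pt u v t →
        (y : W → ℝ) = pt (φ u) (δ u v) (Z u v t) := by
  obtain ⟨x, hx⟩ := x
  rcases exists_pt_half hx with ⟨u, rfl⟩ | ⟨u, v, t, h, h0, h1, rfl⟩
  · refine ⟨⟨vtx (φ u), vtx_mem H _⟩, ?_, ?_⟩
    · intro u' hu'
      have := vtx_injective hu'
      subst this
      rfl
    · intro u' v' t h h0 h1 he
      rcases h0.eq_or_lt with rfl | h0'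
      · have he' : vtx u = pt u' v' 0 := he
        rw [pt_zero] at he'
        have := vtx_injective he'
        subst this
        change vtx (φ u) = _
        rw [hZ0, pt_zero]
      · exact absurd he.symm (pt_ne_vtx h.ne h0' (by linarith) u)
  · have hz := hZ u v t h0 h1
    refine ⟨⟨pt (φ u) (δ u v) (Z u v t), pt_mem (hδ u v h).1 hz.1.le (by linarith)⟩, ?_, ?_⟩
    · intro u' hu'
      exact absurd hu' (pt_ne_vtx h.ne h0 (by linarith) u')
    · intro u' v' t' h' h0' h1' he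
      rcases pt_eq_pt h.ne h'.ne h0 (by linarith) he with ⟨e1, e2, e3⟩ | ⟨e1, e2, e3⟩
      · subst e1 e2 e3
        rfl
      · subst e1 e2
        have ht : t = 1 / 2 := by linarith
        have ht' : t' = 1 / 2 := by linarith
        subst ht ht'
        change pt (φ u) (δ u v) (Z u v (1 / 2)) = _
        rw [hZ1, hZ1]
        exact ecm836_half G H φ δ hδ u v h

/-- TARGET -/
theorem exists_cont_map {V W : Type} [Fintype V] [Fintype W] (G : SimpleGraph V)
    (H : SimpleGraph W) (φ : V → W) (δ : V → V → W)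
    (hδ : ∀ u v, G.Adj u v → H.Adj (φ u) (δ u v) ∧ s(φ u, δ u v) = s(φ v, δ v u))
    (Z : V → V → ℝ → ℝ) (hZc : ∀ u v, ContinuousOn (Z u v) (Set.Icc 0 (1 / 2)))
    (hZ0 : ∀ u v, Z u v 0 = 0) (hZ1 : ∀ u v, Z u v (1 / 2) = 1 / 2)
    (hZ : ∀ u v t, 0 < t → t ≤ 1 / 2 → 0 < Z u v t ∧ Z u v t ≤ 1 / 2) :
    ∃ f : real G → real H, Continuous f ∧ (∀ u, (f ⟨vtx u, vtx_mem G u⟩ : W → ℝ) = vtx (φ u)) ∧
      ∀ u v (huv : G.Adj u v) t (h0 : 0 ≤ t) (h1 : t ≤ 1 / 2),
        (f ⟨pt u v t, pt_mem huv h0 (h1.trans (by norm_num))⟩ : W → ℝ)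
          = pt (φ u) (δ u v) (Z u v t) := by
  choose f hf1 hf2 using ecm836_exists G H φ δ hδ Z hZ0 hZ1 hZ
  refine ⟨f, ?_, fun u => hf1 _ u rfl, fun u v huv t h0 h1 => hf2 _ u v t huv h0 h1 rfl⟩
  rw [Topology.IsInducing.subtypeVal.continuous_iff]
  let C : V ⊕ {p : V × V // G.Adj p.1 p.2} → Set (real G) := fun i =>
    match i with
    | Sum.inl u => {x | (x : V → ℝ) = vtx u}
    | Sum.inr p => {x | (x : V → ℝ) ∈ pt p.1.1 p.1.2 '' Set.Icc (0 : ℝ) (1 / 2)}
  apply LocallyFinite.continuous (f := C) (locallyFinite_of_finite C)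
  · rw [Set.eq_univ_iff_forall]
    intro x
    rw [Set.mem_iUnion]
    rcases exists_pt_half x.2 with ⟨u, hu⟩ | ⟨u, v, t, h, h0, h1, hx⟩
    · exact ⟨Sum.inl u, hu⟩
    · exact ⟨Sum.inr ⟨(u, v), h⟩, t, ⟨h0.le, h1⟩, hx.symm⟩
  · rintro (u | p)
    · exact isClosed_eq continuous_subtype_val continuous_const
    · exact (isCompact_Icc.image (continuous_pt _ _)).isClosed.preimage continuous_subtype_val
  · rintro (u | ⟨⟨u, v⟩, h⟩)
    · apply (continuousOn_const (c := (vtx (φ u) : W → ℝ))).congr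
      intro x hx
      exact hf1 x u hx
    · have h1 : ContinuousOn (fun x : real G => (x : V → ℝ) v) (C (Sum.inr ⟨(u, v), h⟩)) :=
        ((continuous_apply v).comp continuous_subtype_val).continuousOn
      have h2 : Set.MapsTo (fun x : real G => (x : V → ℝ) v) (C (Sum.inr ⟨(u, v), h⟩))
          (Set.Icc 0 (1 / 2)) := by
        rintro x ⟨t, ht, hx⟩
        change (x : V → ℝ) v ∈ _
        rw [← hx]
        change pt u v t v ∈ _
        rw [pt_right h.ne]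
        exact ht
      have h3 := (hZc u v).comp h1 h2
      have h4 : ContinuousOn (fun x : real G => pt (φ u) (δ u v) (Z u v ((x : V → ℝ) v)))
          (C (Sum.inr ⟨(u, v), h⟩)) := (continuous_pt (φ u) (δ u v)).comp_continuousOn h3
      apply h4.congr
      rintro x ⟨t, ht, hx⟩
      have hx' : pt u v t = (x : V → ℝ) := hx
      have h5 : (x : V → ℝ) v = t := by rw [← hx', pt_right h.ne]
      change ((f x : real H) : W → ℝ) = pt (φ u) (δ u v) (Z u v ((x : V → ℝ) v))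
      rw [h5]
      exact hf2 x u v t h ht.1 ht.2 hx'.symm

end Pool.Agent.Helper217.KT
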