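import Pool.Agent.Helper217.KT.Darts

set_option autoImplicit false

namespace Pool.Agent.Helper217.KT

open Classical

/-- triangle wave -/
noncomputable def exists_z_tri (x : ℝ) : ℝ :=
  min (2 * Int.fract (x / 2)) (2 - 2 * Int.fract (x / 2))

theorem exists_z_tri_cont : Continuous exists_z_tri := by
  have h : Continuous ((fun a : ℝ => min (2 * a) (2 - 2 * a)) ∘ Int.fract) := by
    apply ContinuousOn.comp_fract''
    · apply Continuous.continuousOn
      exact (continuous_const.mul continuous_id).min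
        (continuous_const.sub (continuous_const.mul continuous_id))
    · norm_num
  exact h.comp (continuous_id.div_const 2)

theorem exists_z_tri_nonneg (x : ℝ) : 0 ≤ exists_z_tri x := by
  unfold exists_z_tri
  have h1 := Int.fract_nonneg (x / 2)
  have h2 := Int.fract_lt_one (x / 2)
  exact le_min (by linarith) (by linarith)

theorem exists_z_tri_even (k : ℕ) (t : ℝ) (h0 : 0 ≤ t) (h1 : t < 1) :
    exists_z_tri ((2 * k : ℕ) + t) = t := by
  have h : Int.fract ((((2 * k : ℕ) : ℝ) + t) / 2) = t / 2 := by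
    have e : (((2 * k : ℕ) : ℝ) + t) / 2 = (k : ℝ) + t / 2 := by push_cast; ring
    rw [e, Int.fract_natCast_add, Int.fract_eq_self.2 ⟨by linarith, by linarith⟩]
  unfold exists_z_tri
  rw [h, min_eq_left (by linarith)]
  ring

theorem exists_z_tri_odd (k : ℕ) (t : ℝ) (h0 : 0 ≤ t) (h1 : t < 1) :
    exists_z_tri ((2 * k + 1 : ℕ) + t) = 1 - t := by
  have h : Int.fract ((((2 * k + 1 : ℕ) : ℝ) + t) / 2) = (1 + t) / 2 := by
    have e : (((2 * k + 1 : ℕ) : ℝ) + t) / 2 = (k : ℝ) + (1 + t) / 2 := by push_cast; ring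
    rw [e, Int.fract_natCast_add, Int.fract_eq_self.2 ⟨by linarith, by linarith⟩]
  unfold exists_z_tri
  rw [h, min_eq_right (by linarith)]
  ring

/-- the zigzag function -/
noncomputable def exists_z_z (j : ℕ) (s : ℝ) : ℝ :=
  s / (2 * j + 1) + (exists_z_tri ((2 * j + 1) * Int.fract (s / (2 * j + 1))) -
    Int.fract (s / (2 * j + 1)))

theorem exists_z_val (j q r : ℕ) (t : ℝ) (hr : r < 2 * j + 1) (h0 : 0 ≤ t) (h1 : t < 1) :
    exists_z_z j ((2 * j + 1) * q + r + t) = q + exists_z_tri (r + t) := by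
  have hN : (0 : ℝ) < 2 * j + 1 := by positivity
  have hr' : (r : ℝ) ≤ 2 * j := by
    have : r ≤ 2 * j := by omega
    exact_mod_cast this
  have e : ((2 * (j : ℝ) + 1) * q + r + t) / (2 * j + 1) = q + (r + t) / (2 * j + 1) := by
    field_simp
    ring
  have hf : Int.fract (((2 * (j : ℝ) + 1) * q + r + t) / (2 * j + 1)) = (r + t) / (2 * j + 1) := by
    rw [e, Int.fract_natCast_add, Int.fract_eq_self.2]
    constructor
    · positivity
    · rw [div_lt_one hN]; linarith
  unfold exists_z_z
  rw [hf, e, mul_div_cancel₀ _ hN.ne']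
  ring

theorem exists_z_dec (j : ℕ) (s : ℝ) (hs : 0 ≤ s) : ∃ (q r : ℕ) (t : ℝ), r < 2 * j + 1 ∧ 0 ≤ t ∧
    t < 1 ∧ s = (2 * j + 1) * q + r + t := by
  refine ⟨⌊s⌋₊ / (2 * j + 1), ⌊s⌋₊ % (2 * j + 1), s - ⌊s⌋₊, Nat.mod_lt _ (by omega), ?_, ?_, ?_⟩
  · linarith [Nat.floor_le hs]
  · linarith [Nat.lt_floor_add_one s]
  · have h := Nat.div_add_mod ⌊s⌋₊ (2 * j + 1)
    have h' : (2 * (j : ℝ) + 1) * (⌊s⌋₊ / (2 * j + 1) : ℕ) + (⌊s⌋₊ % (2 * j + 1) : ℕ) = ⌊s⌋₊ := by
      exact_mod_cast h
    linarith

theorem exists_z_cont (j : ℕ) : Continuous (exists_z_z j) := by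
  have hN : (0 : ℝ) < 2 * j + 1 := by positivity
  have h : Continuous ((fun a : ℝ => exists_z_tri ((2 * j + 1) * a) - a) ∘ Int.fract) := by
    apply ContinuousOn.comp_fract''
    · apply Continuous.continuousOn
      exact (exists_z_tri_cont.comp (continuous_const.mul continuous_id)).sub continuous_id
    · have h1 := exists_z_tri_even 0 0 le_rfl one_pos
      have h2 := exists_z_tri_odd j 0 le_rfl one_pos
      push_cast at h1 h2
      simp only [mul_zero, mul_one, add_zero, sub_zero, add_zero] at h1 h2 ⊢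
      rw [h1, h2]
      norm_num
  unfold exists_z_z
  exact (continuous_id.div_const _).add (h.comp (continuous_id.div_const _))

theorem exists_z_count1 (j m : ℕ) (θ : ℝ) (h0 : 0 < θ) (h1 : θ < 1) :
    {s : ℝ | 0 < s ∧ exists_z_z j s = m + θ}.ncard = 2 * j + 1 := by
  set f : ℕ → ℝ := fun r => (2 * j + 1) * m + r + (if Even r then θ else 1 - θ) with hf
  have hset : {s : ℝ | 0 < s ∧ exists_z_z j s = m + θ} =
      ↑((Finset.range (2 * j + 1)).image f) := by
    ext s
    rw [Finset.mem_coe, Finset.mem_image]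
    constructor
    · rintro ⟨hs, hz⟩
      obtain ⟨q, r, t, hr, ht0, ht1, rfl⟩ := exists_z_dec j s hs.le
      rw [exists_z_val j q r t hr ht0 ht1] at hz
      refine ⟨r, Finset.mem_range.2 hr, ?_⟩
      obtain ⟨k, rfl | rfl⟩ := Nat.even_or_odd' r
      · rw [exists_z_tri_even k t ht0 ht1] at hz
        have hq : q = m := by
          have a1 : (q : ℝ) < m + 1 := by linarith
          have a2 : (m : ℝ) < q + 1 := by linarith
          have a1' : q < m + 1 := by exact_mod_cast a1
          have a2' : m < q + 1 := by exact_mod_cast a2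
          omega
        subst hq
        simp only [hf]
        rw [if_pos (even_two_mul k)]
        linarith
      · rw [exists_z_tri_odd k t ht0 ht1] at hz
        have hq : q = m := by
          have a1 : (q : ℝ) < m + 1 := by linarith
          have a2 : (m : ℝ) < q + 1 := by linarith
          have a1' : q < m + 1 := by exact_mod_cast a1
          have a2' : m < q + 1 := by exact_mod_cast a2
          omega
        subst hq
        simp only [hf]
        rw [if_neg (by rw [Nat.not_even_iff_odd]; exact odd_two_mul_add_one k)]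
        linarith
    · rintro ⟨r, hr, rfl⟩
      rw [Finset.mem_range] at hr
      simp only [hf]
      obtain ⟨k, rfl | rfl⟩ := Nat.even_or_odd' r
      · rw [if_pos (even_two_mul k)]
        refine ⟨by positivity, ?_⟩
        rw [exists_z_val j m (2 * k) θ hr h0.le h1, exists_z_tri_even k θ h0.le h1]
      · rw [if_neg (by rw [Nat.not_even_iff_odd]; exact odd_two_mul_add_one k)]
        have h2 : 0 < 1 - θ := by linarith
        refine ⟨by positivity, ?_⟩
        rw [exists_z_val j m (2 * k + 1) (1 - θ) hr h2.le (by linarith),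
          exists_z_tri_odd k (1 - θ) h2.le (by linarith)]
        ring
  rw [hset, Set.ncard_coe_finset, Finset.card_image_of_injOn, Finset.card_range]
  intro r _ r' _ hrr
  simp only [hf] at hrr
  have b : ∀ r : ℕ, 0 < (if Even r then θ else 1 - θ) ∧ (if Even r then θ else 1 - θ) < 1 := by
    intro r
    split_ifs
    · exact ⟨h0, h1⟩
    · exact ⟨by linarith, by linarith⟩
  have b1 := b r
  have b2 := b r'
  have a1 : (r : ℝ) < r' + 1 := by linarith
  have a2 : (r' : ℝ) < r + 1 := by linarith
  have a1' : r < r' + 1 := by exact_mod_cast a1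
  have a2' : r' < r + 1 := by exact_mod_cast a2
  omega

theorem exists_z_count2 (j m : ℕ) :
    {s : ℝ | 0 < s ∧ exists_z_z j s = m + 1}.ncard = 2 * j + 1 := by
  set f : ℕ → ℝ := fun r => if Even r then (2 * j + 1) * ((m : ℝ) + 1) + r else
    (2 * j + 1) * (m : ℝ) + r with hf
  have hset : {s : ℝ | 0 < s ∧ exists_z_z j s = m + 1} =
      ↑((Finset.range (2 * j + 1)).image f) := by
    ext s
    rw [Finset.mem_coe, Finset.mem_image]
    constructor
    · rintro ⟨hs, hz⟩
      obtain ⟨q, r, t, hr, ht0, ht1, rfl⟩ := exists_z_dec j s hs.le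
      rw [exists_z_val j q r t hr ht0 ht1] at hz
      refine ⟨r, Finset.mem_range.2 hr, ?_⟩
      obtain ⟨k, rfl | rfl⟩ := Nat.even_or_odd' r
      · rw [exists_z_tri_even k t ht0 ht1] at hz
        have hq : q = m + 1 := by
          have a1 : (q : ℝ) < ((m + 1 : ℕ) : ℝ) + 1 := by push_cast; linarith
          have a2 : ((m + 1 : ℕ) : ℝ) < q + 1 := by push_cast; linarith
          have a1' : q < m + 1 + 1 := by exact_mod_cast a1
          have a2' : m + 1 < q + 1 := by exact_mod_cast a2
          omega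
        subst hq
        simp only [hf]
        rw [if_pos (even_two_mul k)]
        push_cast at hz ⊢
        linarith
      · rw [exists_z_tri_odd k t ht0 ht1] at hz
        have hq : q = m := by
          have a1 : (q : ℝ) < m + 1 := by linarith
          have a2 : (m : ℝ) < q + 1 := by linarith
          have a1' : q < m + 1 := by exact_mod_cast a1
          have a2' : m < q + 1 := by exact_mod_cast a2
          omega
        subst hq
        simp only [hf]
        rw [if_neg (by rw [Nat.not_even_iff_odd]; exact odd_two_mul_add_one k)]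
        linarith
    · rintro ⟨r, hr, rfl⟩
      rw [Finset.mem_range] at hr
      simp only [hf]
      obtain ⟨k, rfl | rfl⟩ := Nat.even_or_odd' r
      · rw [if_pos (even_two_mul k)]
        refine ⟨by positivity, ?_⟩
        have h2 := exists_z_val j (m + 1) (2 * k) 0 hr le_rfl one_pos
        rw [exists_z_tri_even k 0 le_rfl one_pos] at h2
        push_cast at h2 ⊢
        rw [add_zero, add_zero] at h2
        exact h2
      · rw [if_neg (by rw [Nat.not_even_iff_odd]; exact odd_two_mul_add_one k)]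
        refine ⟨by positivity, ?_⟩
        have h2 := exists_z_val j m (2 * k + 1) 0 hr le_rfl one_pos
        rw [exists_z_tri_odd k 0 le_rfl one_pos] at h2
        rw [add_zero, sub_zero] at h2
        exact h2
  rw [hset, Set.ncard_coe_finset, Finset.card_image_of_injOn, Finset.card_range]
  intro r hr r' hr' hrr
  rw [Finset.mem_coe, Finset.mem_range] at hr hr'
  have hrR : (r : ℝ) < 2 * j + 1 := by exact_mod_cast hr
  have hrR' : (r' : ℝ) < 2 * j + 1 := by exact_mod_cast hr'
  have n1 : (0 : ℝ) ≤ r := Nat.cast_nonneg r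
  have n2 : (0 : ℝ) ≤ r' := Nat.cast_nonneg r'
  simp only [hf] at hrr
  split_ifs at hrr
  · have : (r : ℝ) = r' := by linarith
    exact_mod_cast this
  · exfalso; nlinarith
  · exfalso; nlinarith
  · have : (r : ℝ) = r' := by linarith
    exact_mod_cast this

theorem exists_z_count0 (j : ℕ) : {s : ℝ | 0 < s ∧ exists_z_z j s = 0} =
    ↑((Finset.range j).image (fun k : ℕ => ((2 * (k + 1) : ℕ) : ℝ))) := by
  ext s
  rw [Finset.mem_coe, Finset.mem_image]
  constructor
  · rintro ⟨hs, hz⟩
    obtain ⟨q, r, t, hr, ht0, ht1, rfl⟩ := exists_z_dec j s hs.le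
    rw [exists_z_val j q r t hr ht0 ht1] at hz
    have hq0 : (0 : ℝ) ≤ q := Nat.cast_nonneg q
    obtain ⟨k, rfl | rfl⟩ := Nat.even_or_odd' r
    · rw [exists_z_tri_even k t ht0 ht1] at hz
      have hq : (q : ℝ) = 0 := by linarith
      have ht : t = 0 := by linarith
      rw [hq, ht, mul_zero, zero_add, add_zero] at hs
      have hk : 0 < 2 * k := by exact_mod_cast hs
      refine ⟨k - 1, Finset.mem_range.2 (by omega), ?_⟩
      rw [hq, ht, mul_zero, zero_add, add_zero]
      congr 1
      omega
    · rw [exists_z_tri_odd k t ht0 ht1] at hz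
      exfalso
      linarith
  · rintro ⟨k, hk, rfl⟩
    rw [Finset.mem_range] at hk
    refine ⟨by positivity, ?_⟩
    have h2 := exists_z_val j 0 (2 * (k + 1)) 0 (by omega) le_rfl one_pos
    rw [exists_z_tri_even (k + 1) 0 le_rfl one_pos] at h2
    simpa using h2

/-- TARGET -/
theorem exists_z (j : ℕ) : ∃ z : ℝ → ℝ, ContinuousOn z (Set.Ici 0) ∧ z 0 = 0 ∧
    (∀ s, 0 ≤ s → 0 ≤ z s) ∧ Filter.Tendsto z Filter.atTop Filter.atTop ∧
    (∀ y : ℝ, 0 < y → {s : ℝ | 0 < s ∧ z s = y}.ncard = 2 * j + 1) ∧
    {s : ℝ | 0 < s ∧ z s = 0}.Finite ∧ {s : ℝ | 0 < s ∧ z s = 0}.ncard = j := by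
  have hN : (0 : ℝ) < 2 * j + 1 := by positivity
  refine ⟨exists_z_z j, (exists_z_cont j).continuousOn, ?_, ?_, ?_, ?_, ?_, ?_⟩
  · have h2 := exists_z_val j 0 0 0 (by omega) le_rfl one_pos
    have h3 := exists_z_tri_even 0 0 le_rfl one_pos
    simp at h2 h3
    rw [h2, h3]
  · intro s hs
    obtain ⟨q, r, t, hr, ht0, ht1, rfl⟩ := exists_z_dec j s hs
    rw [exists_z_val j q r t hr ht0 ht1]
    exact add_nonneg (Nat.cast_nonneg q) (exists_z_tri_nonneg _)
  · have h1 : Filter.Tendsto (fun s : ℝ => s / (2 * j + 1) + (-1)) Filter.atTop Filter.atTop :=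
      Filter.tendsto_atTop_add_const_right _ _ (Filter.tendsto_id.atTop_div_const hN)
    apply Filter.tendsto_atTop_mono _ h1
    intro s
    unfold exists_z_z
    have h2 := exists_z_tri_nonneg ((2 * j + 1) * Int.fract (s / (2 * j + 1)))
    have h3 := Int.fract_lt_one (s / (2 * (j : ℝ) + 1))
    linarith
  · intro y hy
    have hfl := Nat.floor_le hy.le
    have hfl' := Nat.lt_floor_add_one y
    rcases hfl.eq_or_lt with h | h
    · obtain ⟨m, hm⟩ : ∃ m, ⌊y⌋₊ = m + 1 := by
        apply Nat.exists_eq_succ_of_ne_zero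
        intro h0
        rw [h0] at h
        simp at h
        linarith
      have hy' : y = m + 1 := by
        rw [← h, hm]; push_cast; ring
      rw [hy']
      exact exists_z_count2 j m
    · have hy' : y = (⌊y⌋₊ : ℝ) + (y - ⌊y⌋₊) := by ring
      have h3 := exists_z_count1 j ⌊y⌋₊ (y - ⌊y⌋₊) (by linarith) (by linarith)
      rw [← hy'] at h3
      exact h3
  · rw [exists_z_count0]
    exact Finset.finite_toSet _
  · rw [exists_z_count0, Set.ncard_coe_finset, Finset.card_image_of_injective, Finset.card_range]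
    intro a b hab
    have hab' : ((2 * (a + 1) : ℕ) : ℝ) = ((2 * (b + 1) : ℕ) : ℝ) := hab
    have : 2 * (a + 1) = 2 * (b + 1) := by exact_mod_cast hab'
    omega

end Pool.Agent.Helper217.KT
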