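import Pool.Agent.Helper217.KT.Darts
import Pool.Agent.Helper217.KT.JExistsZ

set_option autoImplicit false

namespace Pool.Agent.Helper217.KT

open Classical

theorem exists_zigzag_sigma {t : ℝ} (h0 : 0 < t) (h1 : t ≤ 1 / 2) : 0 ≤ 1 / (2 * t) - 1 := by
  rw [sub_nonneg, le_div_iff₀ (by positivity)]
  linarith

theorem exists_zigzag_sigma' {t : ℝ} (h0 : 0 < t) (h1 : t < 1 / 2) : 0 < 1 / (2 * t) - 1 := by
  rw [sub_pos, lt_div_iff₀ (by positivity)]
  linarith

/-- TARGET -/
theorem exists_zigzag (j : ℕ) : ∃ Z : ℝ → ℝ, ContinuousOn Z (Set.Icc 0 (1 / 2)) ∧ Z 0 = 0 ∧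
    Z (1 / 2) = 1 / 2 ∧ (∀ t, 0 < t → t ≤ 1 / 2 → 0 < Z t ∧ Z t ≤ 1 / 2) ∧
    (∀ τ, 0 < τ → τ < 1 / 2 → {t : ℝ | 0 < t ∧ t < 1 / 2 ∧ Z t = τ}.ncard = 2 * j + 1) ∧
    {t : ℝ | 0 < t ∧ t < 1 / 2 ∧ Z t = 1 / 2}.Finite ∧
    {t : ℝ | 0 < t ∧ t < 1 / 2 ∧ Z t = 1 / 2}.ncard = j := by
  obtain ⟨z, hzc, hz0, hzn, hzt, hz1, hz2, hz3⟩ := exists_z j
  let F : ℝ → ℝ := fun t => 1 / (2 * (1 + z (1 / (2 * t) - 1)))
  let Z : ℝ → ℝ := fun t => if t ≤ 0 then 0 else F t
  have hZpos : ∀ t, 0 < t → Z t = 1 / (2 * (1 + z (1 / (2 * t) - 1))) := by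
    intro t ht
    show (if t ≤ 0 then 0 else F t) = _
    rw [if_neg (not_le.2 ht)]
  have hZ0 : Z 0 = 0 := if_pos le_rfl
  -- the level sets
  let g : ℝ → ℝ := fun s => 1 / (2 * (1 + s))
  have hlev : ∀ y : ℝ, 0 ≤ y → {t : ℝ | 0 < t ∧ t < 1 / 2 ∧ Z t = 1 / (2 * (1 + y))} =
      g '' {s : ℝ | 0 < s ∧ z s = y} := by
    intro y hy
    ext t
    constructor
    · rintro ⟨h0, h1, h2⟩
      have hs := exists_zigzag_sigma' h0 h1
      refine ⟨1 / (2 * t) - 1, ⟨hs, ?_⟩, ?_⟩
      · rw [hZpos t h0] at h2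
        have h3 := hzn _ hs.le
        have h4 : 2 * (1 + z (1 / (2 * t) - 1)) = 2 * (1 + y) := by
          have := congrArg (fun u => u⁻¹) h2
          simpa only [one_div, inv_inv] using this
        linarith
      · show 1 / (2 * (1 + (1 / (2 * t) - 1))) = t
        field_simp
        ring
    · rintro ⟨s, ⟨hs, hzs⟩, rfl⟩
      have h0 : 0 < g s := by
        show 0 < 1 / (2 * (1 + s))
        positivity
      have h1 : 1 / (2 * g s) - 1 = s := by
        show 1 / (2 * (1 / (2 * (1 + s)))) - 1 = s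
        field_simp
        ring
      refine ⟨h0, ?_, ?_⟩
      · show 1 / (2 * (1 + s)) < 1 / 2
        rw [div_lt_div_iff₀ (by positivity) (by norm_num)]
        linarith
      · rw [hZpos _ h0, h1, hzs]
  have hginj : ∀ S : Set ℝ, (∀ s ∈ S, 0 < s) → Set.InjOn g S := by
    intro S hS a ha b hb hab
    have ha' := hS a ha
    have hb' := hS b hb
    have h4 : 2 * (1 + a) = 2 * (1 + b) := by
      have := congrArg (fun u => u⁻¹) hab
      simpa only [g, one_div, inv_inv] using this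
    linarith
  have hZc0 : ContinuousWithinAt Z (Set.Ici 0) 0 := by
    rw [← continuousWithinAt_Ioi_iff_Ici]
    show Filter.Tendsto Z (nhdsWithin 0 (Set.Ioi 0)) (nhds (Z 0))
    rw [hZ0]
    have h1 : Filter.Tendsto (fun t : ℝ => 1 / (2 * t) - 1) (nhdsWithin 0 (Set.Ioi 0))
        Filter.atTop := by
      have h2 : Filter.Tendsto (fun t : ℝ => (1 / 2) * t⁻¹ + (-1)) (nhdsWithin 0 (Set.Ioi 0))
          Filter.atTop :=
        Filter.tendsto_atTop_add_const_right _ _
          (Filter.Tendsto.const_mul_atTop (by norm_num) tendsto_inv_nhdsGT_zero)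
      refine h2.congr fun t => ?_
      rw [one_div (2 * t), mul_inv]
      ring
    have h3 : Filter.Tendsto (fun t : ℝ => 2 * (1 + z (1 / (2 * t) - 1)))
        (nhdsWithin 0 (Set.Ioi 0)) Filter.atTop :=
      Filter.Tendsto.const_mul_atTop (by norm_num)
        (Filter.tendsto_atTop_add_const_left _ _ (hzt.comp h1))
    have h4 := tendsto_inv_atTop_zero.comp h3
    refine h4.congr' ?_
    filter_upwards [self_mem_nhdsWithin] with t ht
    rw [hZpos t ht, one_div]
    rfl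
  have hF : ContinuousOn F (Set.Ioc 0 (1 / 2)) := by
    have h1 : ContinuousOn (fun t : ℝ => 1 / (2 * t) - 1) (Set.Ioc 0 (1 / 2)) := by
      apply ContinuousOn.sub _ continuousOn_const
      apply ContinuousOn.div continuousOn_const (by fun_prop)
      intro t ht
      have := ht.1
      positivity
    have h2 : ContinuousOn (fun t : ℝ => z (1 / (2 * t) - 1)) (Set.Ioc 0 (1 / 2)) :=
      hzc.comp h1 fun t ht => exists_zigzag_sigma ht.1 ht.2
    apply ContinuousOn.div continuousOn_const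
    · exact continuousOn_const.mul (continuousOn_const.add h2)
    · intro t ht
      have := hzn _ (exists_zigzag_sigma ht.1 ht.2)
      positivity
  refine ⟨Z, ?_, hZ0, ?_, ?_, ?_, ?_, ?_⟩
  · intro t ht
    rcases eq_or_lt_of_le ht.1 with h | h
    · rw [← h]
      exact hZc0.mono Set.Icc_subset_Ici_self
    · have h1 : ContinuousWithinAt F (Set.Icc 0 (1 / 2) ∩ Set.Ioi 0) t :=
        (hF t ⟨h, ht.2⟩).mono fun u hu => ⟨hu.2, hu.1.2⟩
      have h2 : ContinuousWithinAt Z (Set.Icc 0 (1 / 2) ∩ Set.Ioi 0) t := by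
        refine h1.congr (fun u hu => ?_) ?_
        · exact hZpos u hu.2
        · exact hZpos t h
      exact (continuousWithinAt_inter (Ioi_mem_nhds h)).1 h2
  · rw [hZpos _ (by norm_num)]
    norm_num [hz0]
  · intro t h0 h1
    have h2 := hzn _ (exists_zigzag_sigma h0 h1)
    rw [hZpos t h0]
    constructor
    · positivity
    · rw [div_le_div_iff₀ (by positivity) (by norm_num)]
      linarith
  · intro τ h0 h1
    have hy := exists_zigzag_sigma' h0 h1
    have hτ : τ = 1 / (2 * (1 + (1 / (2 * τ) - 1))) := by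
      field_simp
      ring
    have h2 := hlev _ hy.le
    rw [← hτ] at h2
    rw [h2, (hginj _ fun s hs => hs.1).ncard_image]
    exact hz1 _ hy
  · have h2 := hlev 0 le_rfl
    have h3 : (1 : ℝ) / (2 * (1 + 0)) = 1 / 2 := by norm_num
    rw [h3] at h2
    rw [h2]
    exact hz2.image _
  · have h2 := hlev 0 le_rfl
    have h3 : (1 : ℝ) / (2 * (1 + 0)) = 1 / 2 := by norm_num
    rw [h3] at h2
    rw [h2, (hginj _ fun s hs => hs.1).ncard_image]
    exact hz3

end Pool.Agent.Helper217.KT
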