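import Pool.Agent.Helper217.KT.Darts
import Pool.Agent.Helper217.KT.JExistsZigzag
import Pool.Agent.Helper217.KT.JExistsContMap
import Pool.Agent.Helper217.KT.JCardFiberVtx
import Pool.Agent.Helper217.KT.JCardFiberLt
import Pool.Agent.Helper217.KT.JCardFiberMid

set_option autoImplicit false

namespace Pool.Agent.Helper217.KT

open Classical

/-- TARGET -/
theorem exists_map {V W : Type} [Fintype V] [Fintype W] (k : ℕ) (hk : 1 < k)
    (G : SimpleGraph V) (H : SimpleGraph W) (φ : V → W)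
    (hφ : ∀ a : W, Nat.card {u : V // φ u = a} = k) (δ : V → V → W) (j : V → V → ℕ)
    (hδ : ∀ u v, G.Adj u v → H.Adj (φ u) (δ u v) ∧ s(φ u, δ u v) = s(φ v, δ v u))
    (hj : ∀ a b, H.Adj a b → ∑ p ∈ darts G φ δ a b, (2 * j p.1 p.2 + 1) = k) :
    ∃ f : real G → real H, Continuous f ∧ ∀ y, Nat.card {x // f x = y} = k := by
  choose Z hZc hZ0 hZ1 hZ hZn hZf hZm using fun (u v : V) => exists_zigzag (j u v)
  obtain ⟨f, hfc, hfv, hfe⟩ := exists_cont_map G H φ δ hδ Z hZc hZ0 hZ1 hZ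
  refine ⟨f, hfc, ?_⟩
  have hcard : ∀ y : real H, Nat.card {x // f x = y}
      = Nat.card {x : real G // (f x : W → ℝ) = (y : W → ℝ)} := by
    intro y
    exact Nat.card_congr (Equiv.subtypeEquivRight fun x => Subtype.ext_iff)
  have hlt : ∀ a b, H.Adj a b → ∀ τ : ℝ, 0 < τ → τ < 1 / 2 →
      Nat.card {x : real G // (f x : W → ℝ) = pt a b τ} = k := by
    intro a b hab τ h0 h1
    have hfin : ∀ u v, {t : ℝ | 0 < t ∧ t < 1 / 2 ∧ Z u v t = τ}.Finite := by
      intro u v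
      apply Set.finite_of_ncard_pos
      rw [hZn u v τ h0 h1]
      omega
    rw [card_fiber_lt G H φ δ hδ Z hZ1 hZ f hfv hfe a b hab τ h0 h1 hfin, ← hj a b hab]
    exact Finset.sum_congr rfl fun p _ => hZn p.1 p.2 τ h0 h1
  have hmid : ∀ a b, H.Adj a b →
      Nat.card {x : real G // (f x : W → ℝ) = pt a b (1 / 2)} = k := by
    intro a b hab
    have h := card_fiber_mid G H φ δ hδ Z hZ1 hZ f hfv hfe a b hab hZf
    have e1 : ∑ p ∈ darts G φ δ a b, {t : ℝ | 0 < t ∧ t < 1 / 2 ∧ Z p.1 p.2 t = 1 / 2}.ncard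
        = ∑ p ∈ darts G φ δ a b, j p.1 p.2 :=
      Finset.sum_congr rfl fun p _ => hZm p.1 p.2
    have e2 : ∑ p ∈ darts G φ δ b a, {t : ℝ | 0 < t ∧ t < 1 / 2 ∧ Z p.1 p.2 t = 1 / 2}.ncard
        = ∑ p ∈ darts G φ δ b a, j p.1 p.2 :=
      Finset.sum_congr rfl fun p _ => hZm p.1 p.2
    have h1 := hj a b hab
    have h2 := hj b a hab.symm
    rw [Finset.sum_add_distrib, ← Finset.mul_sum] at h1 h2
    simp only [Finset.sum_const, smul_eq_mul, mul_one] at h1 h2
    rw [e1, e2] at h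
    omega
  intro y
  rw [hcard y]
  rcases exists_pt y.2 with ⟨a, ha⟩ | ⟨a, b, τ, hab, h0, h1, hy⟩
  · rw [ha, card_fiber_vtx G H φ δ hδ Z hZ1 hZ f hfv hfe a]
    exact hφ a
  · rcases lt_trichotomy τ (1 / 2) with h | h | h
    · rw [hy]
      exact hlt a b hab τ h0 h
    · rw [hy, h]
      exact hmid a b hab
    · rw [hy, ← pt_swap a b τ]
      exact hlt b a hab.symm (1 - τ) (by linarith) (by linarith)

end Pool.Agent.Helper217.KT
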