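import Pool.Agent.Helper217.KT.Darts

set_option autoImplicit false

namespace Pool.Agent.Helper217.KT

open Classical

lemma iso_homeo_mem {V W : Type} [Fintype V] [Fintype W] {G : SimpleGraph V}
    {G' : SimpleGraph W} (e : G ≃g G') {x : W → ℝ} (hx : x ∈ real G') :
    (fun v => x (e v)) ∈ real G := by
  obtain ⟨h1, h2, u, v, h3, h4⟩ := hx
  refine ⟨fun v => h1 _, ?_, e.symm u, e.symm v, ?_, ?_⟩
  · rw [← h2]
    exact Equiv.sum_comp e.toEquiv x
  · rcases h3 with rfl | h3
    · exact Or.inl rfl
    · exact Or.inr (e.symm.map_adj_iff.2 h3)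
  · intro w hw
    rcases h4 (e w) hw with h | h
    · left
      rw [← h, RelIso.symm_apply_apply]
    · right
      rw [← h, RelIso.symm_apply_apply]

/-- TARGET -/
theorem iso_homeo {V W : Type} [Fintype V] [Fintype W] (G : SimpleGraph V) (G' : SimpleGraph W)
    (e : G ≃g G') :
    ∃ Φ : real G' ≃ₜ real G, ∀ v : V, ((Φ ⟨vtx (e v), vtx_mem _ _⟩ : real G) : V → ℝ) = vtx v := by
  refine ⟨⟨⟨fun x => ⟨fun v => x.1 (e v), iso_homeo_mem e x.2⟩,
    fun y => ⟨fun w => y.1 (e.symm w), iso_homeo_mem e.symm y.2⟩, ?_, ?_⟩, ?_, ?_⟩, ?_⟩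
  · intro x
    apply Subtype.ext
    funext w
    show x.1 (e (e.symm w)) = x.1 w
    rw [RelIso.apply_symm_apply]
  · intro y
    apply Subtype.ext
    funext v
    show y.1 (e.symm (e v)) = y.1 v
    rw [RelIso.symm_apply_apply]
  · refine Continuous.subtype_mk ?_ _
    exact continuous_pi fun v => (continuous_apply (e v)).comp continuous_subtype_val
  · refine Continuous.subtype_mk ?_ _
    exact continuous_pi fun w => (continuous_apply (e.symm w)).comp continuous_subtype_val
  · intro v
    funext w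
    show vtx (e v) (e w) = vtx v w
    unfold vtx
    by_cases h : w = v
    · rw [if_pos h, if_pos (by rw [h])]
    · rw [if_neg h, if_neg (fun h' => h (e.injective h'))]

end Pool.Agent.Helper217.KT
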