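import Pool.Agent.Helper217.KT.Darts

set_option autoImplicit false

namespace Pool.Agent.Helper217.KT

open Classical

/-- the linear map of the homeomorphism -/
noncomputable def sdeL {V : Type} (u v : V) (t : ℝ) (y : Option V → ℝ) : V → ℝ :=
  fun w => y (some w) + y none * pt u v t w

lemma sde_pt_nonneg {V : Type} (u v : V) {t : ℝ} (h0 : 0 < t) (h1 : t < 1) (w : V) :
    0 ≤ pt u v t w := by
  unfold pt vtx
  split_ifs <;> linarith

lemma sde_sum_pt {V : Type} [Fintype V] (u v : V) (t : ℝ) : ∑ w, pt u v t w = 1 := by
  simp only [pt, Finset.sum_add_distrib, ← Finset.mul_sum, sum_vtx]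
  ring

lemma sde_struct {V : Type} [Fintype V] (G : SimpleGraph V) (u v : V) (huv : u ≠ v)
    {y : Option V → ℝ} (hy : y ∈ real (subdivideEdge G u v)) :
    (y none = 0 ∧ ∃ a b, (a = b ∨ G.Adj a b) ∧ ¬ ((a = u ∧ b = v) ∨ (a = v ∧ b = u)) ∧
      ∀ w, y (some w) ≠ 0 → w = a ∨ w = b) ∨ (∀ w, y (some w) ≠ 0 → w = u) ∨
      (∀ w, y (some w) ≠ 0 → w = v) := by
  obtain ⟨-, -, p, q, hpq, hsupp⟩ := hy
  have hnone : p ≠ none → q ≠ none → y none = 0 := by
    intro hp hq
    by_contra h
    rcases hsupp none h with h' | h'
    · exact hp h'.symm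
    · exact hq h'.symm
  rcases hpq with rfl | (⟨a, b, rfl, rfl, hab, hn⟩ | ⟨rfl, rfl | rfl⟩ | ⟨rfl, rfl | rfl⟩)
  · rcases p with _ | x
    · right; left
      intro w hw
      rcases hsupp _ hw with h | h <;> cases h
    · left
      refine ⟨hnone (by simp) (by simp), x, x, Or.inl rfl, ?_, ?_⟩
      · rintro (⟨h1, h2⟩ | ⟨h1, h2⟩)
        · exact huv (h1.symm.trans h2)
        · exact huv (h2.symm.trans h1)
      · intro w hw
        rcases hsupp _ hw with h | h <;> (left; exact Option.some.inj h)
  · left
    refine ⟨hnone (by simp) (by simp), a, b, Or.inr hab, hn, ?_⟩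
    intro w hw
    rcases hsupp _ hw with h | h
    · left; exact Option.some.inj h
    · right; exact Option.some.inj h
  · right; left
    intro w hw
    rcases hsupp _ hw with h | h
    · cases h
    · exact Option.some.inj h
  · right; right
    intro w hw
    rcases hsupp _ hw with h | h
    · cases h
    · exact Option.some.inj h
  · right; left
    intro w hw
    rcases hsupp _ hw with h | h
    · exact Option.some.inj h
    · cases h
  · right; right
    intro w hw
    rcases hsupp _ hw with h | h
    · exact Option.some.inj h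
    · cases h

lemma sde_maps {V : Type} [Fintype V] (G : SimpleGraph V) (u v : V) (h : G.Adj u v)
    (t : ℝ) (h0 : 0 < t) (h1 : t < 1) {y : Option V → ℝ} (hy : y ∈ real (subdivideEdge G u v)) :
    sdeL u v t y ∈ real G := by
  have hst := sde_struct G u v h.ne hy
  obtain ⟨hnn, hsum, -⟩ := hy
  refine ⟨fun w => ?_, ?_, ?_⟩
  · have := mul_nonneg (hnn none) (sde_pt_nonneg u v h0 h1 w)
    have := hnn (some w)
    unfold sdeL
    linarith
  · unfold sdeL
    rw [Finset.sum_add_distrib, ← Finset.mul_sum, sde_sum_pt, mul_one]
    rw [Fintype.sum_option] at hsum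
    linarith
  · rcases hst with ⟨hn, a, b, hab, -, hw⟩ | hw | hw
    · refine ⟨a, b, hab, fun w hw' => hw w ?_⟩
      unfold sdeL at hw'
      rw [hn, zero_mul, add_zero] at hw'
      exact hw'
    · refine ⟨u, v, Or.inr h, fun w hw' => ?_⟩
      by_contra hc
      push Not at hc
      apply hw'
      unfold sdeL
      rw [pt_other hc.1 hc.2, mul_zero, add_zero]
      by_contra h'
      exact hc.1 (hw w h')
    · refine ⟨u, v, Or.inr h, fun w hw' => ?_⟩
      by_contra hc
      push Not at hc
      apply hw'
      unfold sdeL
      rw [pt_other hc.1 hc.2, mul_zero, add_zero]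
      by_contra h'
      exact hc.2 (hw w h')

lemma sde_prod {V : Type} [Fintype V] (G : SimpleGraph V) (u v : V) (h : u ≠ v)
    {y : Option V → ℝ} (hy : y ∈ real (subdivideEdge G u v)) :
    y (some u) = 0 ∨ y (some v) = 0 := by
  by_contra hc
  push Not at hc
  rcases sde_struct G u v h hy with ⟨-, a, b, -, hab, hw⟩ | hw | hw
  · have e1 := hw u hc.1
    have e2 := hw v hc.2
    rcases e1 with rfl | rfl <;> rcases e2 with rfl | rfl
    · exact h rfl
    · exact hab (Or.inl ⟨rfl, rfl⟩)
    · exact hab (Or.inr ⟨rfl, rfl⟩)
    · exact h rfl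
  · exact h (hw v hc.2).symm
  · exact h (hw u hc.1)

lemma sde_inj_aux {A B C A' B' C' t : ℝ} (h0 : 0 < t) (h1 : t < 1) (hA' : 0 ≤ A')
    (hB' : 0 ≤ B') (hAB : A = 0 ∨ B = 0) (e1 : A + C * (1 - t) = A' + C' * (1 - t))
    (e2 : B + C * t = B' + C' * t) : C' ≤ C := by
  by_contra hc
  push Not at hc
  have p1 : 0 < (C' - C) * (1 - t) := mul_pos (by linarith) (by linarith)
  have p2 : 0 < (C' - C) * t := mul_pos (by linarith) h0
  rcases hAB with h | h
  · nlinarith
  · nlinarith

lemma sde_inj {V : Type} [Fintype V] (G : SimpleGraph V) (u v : V) (h : u ≠ v)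
    (t : ℝ) (h0 : 0 < t) (h1 : t < 1) {y y' : Option V → ℝ}
    (hy : y ∈ real (subdivideEdge G u v)) (hy' : y' ∈ real (subdivideEdge G u v))
    (he : sdeL u v t y = sdeL u v t y') : y = y' := by
  have e1 := congrFun he u
  have e2 := congrFun he v
  unfold sdeL at e1 e2
  rw [pt_left h] at e1
  rw [pt_right h] at e2
  have hC : y none = y' none := by
    apply le_antisymm
    · exact sde_inj_aux h0 h1 (hy.1 _) (hy.1 _) (sde_prod G u v h hy') e1.symm e2.symm
    · exact sde_inj_aux h0 h1 (hy'.1 _) (hy'.1 _) (sde_prod G u v h hy) e1 e2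
  funext w
  rcases w with _ | w
  · exact hC
  · have := congrFun he w
    unfold sdeL at this
    rw [hC] at this
    linarith

lemma sde_surj {V : Type} [Fintype V] (G : SimpleGraph V) (u v : V) (h : G.Adj u v)
    (t : ℝ) (h0 : 0 < t) (h1 : t < 1) {x : V → ℝ} (hx : x ∈ real G) :
    ∃ y ∈ real (subdivideEdge G u v), sdeL u v t y = x := by
  have hne := h.ne
  obtain ⟨hnn, hsum, a, b, hab, hsupp⟩ := hx
  have h1t : 0 < 1 - t := by linarith
  obtain ⟨C, hC⟩ : ∃ C, C = min (x u / (1 - t)) (x v / t) := ⟨_, rfl⟩
  have hC0 : 0 ≤ C := by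
    rw [hC]
    exact le_min (div_nonneg (hnn u) h1t.le) (div_nonneg (hnn v) h0.le)
  have hCu : C * (1 - t) ≤ x u := by
    rw [← le_div_iff₀ h1t, hC]
    exact min_le_left _ _
  have hCv : C * t ≤ x v := by
    rw [← le_div_iff₀ h0, hC]
    exact min_le_right _ _
  have hCor : C * (1 - t) = x u ∨ C * t = x v := by
    rcases min_choice (x u / (1 - t)) (x v / t) with hm | hm
    · left
      rw [hC, hm, div_mul_cancel₀ _ h1t.ne']
    · right
      rw [hC, hm, div_mul_cancel₀ _ h0.ne']
  let y : Option V → ℝ := fun o => o.elim C (fun w => x w - C * pt u v t w)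
  have hyn : y none = C := rfl
  have hys : ∀ w, y (some w) = x w - C * pt u v t w := fun w => rfl
  refine ⟨y, ⟨?_, ?_, ?_⟩, ?_⟩
  · intro o
    rcases o with _ | w
    · exact hC0
    · rw [hys]
      by_cases hwu : w = u
      · subst hwu
        rw [pt_left hne]
        linarith
      · by_cases hwv : w = v
        · subst hwv
          rw [pt_right hne]
          linarith
        · rw [pt_other hwu hwv]
          have := hnn w
          linarith
  · rw [Fintype.sum_option, hyn]
    simp only [hys]
    rw [Finset.sum_sub_distrib, ← Finset.mul_sum, sde_sum_pt, hsum]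
    ring
  · by_cases hboth : x u ≠ 0 ∧ x v ≠ 0
    · -- support in {u, v}
      have hsup2 : ∀ w, x w ≠ 0 → w = u ∨ w = v := by
        intro w hw
        have e1 := hsupp u hboth.1
        have e2 := hsupp v hboth.2
        have e3 := hsupp w hw
        rcases e1 with rfl | rfl
        · rcases e2 with rfl | rfl
          · exact absurd rfl hne
          · exact e3
        · rcases e2 with rfl | rfl
          · exact e3.symm
          · exact absurd rfl hne
      have hyw : ∀ w, w ≠ u → w ≠ v → y (some w) = 0 := by
        intro w hwu hwv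
        rw [hys, pt_other hwu hwv]
        by_contra hc
        rw [mul_zero, sub_zero] at hc
        rcases hsup2 w hc with h' | h'
        · exact hwu h'
        · exact hwv h'
      rcases hCor with hc | hc
      · refine ⟨none, some v, Or.inr (Or.inr (Or.inl ⟨rfl, Or.inr rfl⟩)), ?_⟩
        intro o ho
        rcases o with _ | w
        · left; rfl
        · right
          by_contra hwv
          have hwv' : w ≠ v := fun e => hwv (by rw [e])
          by_cases hwu : w = u
          · subst hwu
            apply ho
            rw [hys, pt_left hne, hc, sub_self]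
          · exact ho (hyw w hwu hwv')
      · refine ⟨none, some u, Or.inr (Or.inr (Or.inl ⟨rfl, Or.inl rfl⟩)), ?_⟩
        intro o ho
        rcases o with _ | w
        · left; rfl
        · right
          by_contra hwu
          have hwu' : w ≠ u := fun e => hwu (by rw [e])
          by_cases hwv : w = v
          · subst hwv
            apply ho
            rw [hys, pt_right hne, hc, sub_self]
          · exact ho (hyw w hwu' hwv)
    · have hC00 : C = 0 := by
        apply le_antisymm _ hC0
        by_cases hxu : x u = 0
        · rw [hxu] at hCu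
          nlinarith
        · have hxv : x v = 0 := by
            by_contra hc
            exact hboth ⟨hxu, hc⟩
          rw [hxv] at hCv
          nlinarith
      have hys' : ∀ w, y (some w) = x w := by
        intro w
        rw [hys, hC00, zero_mul, sub_zero]
      have hyn' : y none = 0 := by rw [hyn, hC00]
      by_cases huv' : (a = u ∧ b = v) ∨ (a = v ∧ b = u)
      · -- x supported in {u,v} and one value is zero
        have hsup2 : ∀ w, x w ≠ 0 → w = u ∨ w = v := by
          intro w hw
          have e3 := hsupp w hw
          rcases huv' with ⟨rfl, rfl⟩ | ⟨rfl, rfl⟩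
          · exact e3
          · exact e3.symm
        by_cases hxu : x u = 0
        · refine ⟨some v, some v, Or.inl rfl, ?_⟩
          intro o ho
          rcases o with _ | w
          · exact absurd hyn' ho
          · rw [hys'] at ho
            rcases hsup2 w ho with rfl | rfl
            · exact absurd hxu ho
            · left; rfl
        · have hxv : x v = 0 := by
            by_contra hc
            exact hboth ⟨hxu, hc⟩
          refine ⟨some u, some u, Or.inl rfl, ?_⟩
          intro o ho
          rcases o with _ | w
          · exact absurd hyn' ho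
          · rw [hys'] at ho
            rcases hsup2 w ho with rfl | rfl
            · left; rfl
            · exact absurd hxv ho
      · refine ⟨some a, some b, ?_, ?_⟩
        · rcases hab with rfl | hab
          · left; rfl
          · right
            exact Or.inl ⟨a, b, rfl, rfl, hab, huv'⟩
        · intro o ho
          rcases o with _ | w
          · exact absurd hyn' ho
          · rw [hys'] at ho
            rcases hsupp w ho with rfl | rfl
            · left; rfl
            · right; rfl
  · funext w
    unfold sdeL
    rw [hyn, hys]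
    ring

/-- TARGET -/
theorem subdivideEdge_homeo {V : Type} [Fintype V] (G : SimpleGraph V) (u v : V) (h : G.Adj u v)
    (t : ℝ) (h0 : 0 < t) (h1 : t < 1) :
    ∃ Φ : real (subdivideEdge G u v) ≃ₜ real G,
      ((Φ ⟨vtx none, vtx_mem _ _⟩ : real G) : V → ℝ) = pt u v t ∧
      ∀ x : V, ((Φ ⟨vtx (some x), vtx_mem _ _⟩ : real G) : V → ℝ) = vtx x := by
  let f : real (subdivideEdge G u v) → real G := fun y => ⟨sdeL u v t y.1, sde_maps G u v h t h0 h1 y.2⟩
  have hbij : Function.Bijective f := by
    constructor
    · intro y y' hyy
      apply Subtype.ext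
      exact sde_inj G u v h.ne t h0 h1 y.2 y'.2 (congrArg Subtype.val hyy)
    · rintro ⟨x, hx⟩
      obtain ⟨y, hy, hyx⟩ := sde_surj G u v h t h0 h1 hx
      exact ⟨⟨y, hy⟩, Subtype.ext hyx⟩
  have hcont : Continuous f := by
    apply Continuous.subtype_mk
    apply continuous_pi
    intro w
    unfold sdeL
    have c1 : Continuous fun y : real (subdivideEdge G u v) => (y : Option V → ℝ) (some w) :=
      (continuous_apply (some w)).comp continuous_subtype_val
    have c2 : Continuous fun y : real (subdivideEdge G u v) => (y : Option V → ℝ) none :=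
      (continuous_apply none).comp continuous_subtype_val
    exact c1.add (c2.mul continuous_const)
  refine ⟨Continuous.homeoOfEquivCompactToT2 (f := Equiv.ofBijective f hbij) hcont, ?_, ?_⟩
  · show sdeL u v t (vtx none) = pt u v t
    funext w
    unfold sdeL
    rw [vtx_self, vtx_ne (by simp), zero_add, one_mul]
  · intro x
    show sdeL u v t (vtx (some x)) = vtx x
    funext w
    unfold sdeL
    rw [vtx_ne (show (none : Option V) ≠ some x by simp), zero_mul, add_zero]
    unfold vtx
    simp

end Pool.Agent.Helper217.KT
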