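import Pool.Agent.Helper217.KT.Darts
import Pool.Agent.Helper217.KT.JSubdivideEdgeHomeo
import Pool.Agent.Helper217.KT.JIsoHomeo

set_option autoImplicit false

namespace Pool.Agent.Helper217.KT

open Classical

theorem exists_subdivision_aux_12017 (N : ℕ) : ∀ (V : Type) [Fintype V] (G : SimpleGraph V)
    (P : Set (V → ℝ)), (P \ Set.range vtx).ncard = N → P.Finite → P ⊆ real G →
    (∀ u, vtx u ∈ P) →
    ∃ (n : ℕ) (G' : SimpleGraph (Fin n)) (Φ : real G' ≃ₜ real G), IsSubdivision G G' ∧
      n = P.ncard ∧
      ∀ x : real G', ((Φ x : real G) : V → ℝ) ∈ P ↔ ∃ i : Fin n, (x : Fin n → ℝ) = vtx i := by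
  induction N using Nat.strong_induction_on with
  | _ N ih =>
    intro V _ G P hN hP hsub hv
    by_cases hex : ∃ p ∈ P, p ∉ Set.range vtx
    · obtain ⟨p, hpP, hpv⟩ := hex
      rcases exists_pt (hsub hpP) with ⟨u, hu⟩ | ⟨u, v, t, hadj, h0, h1, hpt⟩
      · exact absurd ⟨u, hu.symm⟩ hpv
      · obtain ⟨Φ1, hΦn, hΦs⟩ := subdivideEdge_homeo G u v hadj t h0 h1
        obtain ⟨P1, hP1⟩ : ∃ P1 : Set (Option V → ℝ), P1 =
          {y | ∃ h : y ∈ real (subdivideEdge G u v), ((Φ1 ⟨y, h⟩ : real G) : V → ℝ) ∈ P} :=
          ⟨_, rfl⟩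
        have hP1mem : ∀ y : real (subdivideEdge G u v),
            (y : Option V → ℝ) ∈ P1 ↔ ((Φ1 y : real G) : V → ℝ) ∈ P := by
          intro y
          rw [hP1]
          constructor
          · rintro ⟨h, h2⟩
            exact h2
          · intro h
            exact ⟨y.2, h⟩
        have hP1sub : P1 ⊆ real (subdivideEdge G u v) := by
          rw [hP1]; rintro y ⟨h, _⟩; exact h
        have hcard : P.ncard = P1.ncard := by
          refine Set.ncard_congr (fun a ha => (Φ1.symm ⟨a, hsub ha⟩).1) ?_ ?_ ?_
          · intro a ha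
            rw [hP1mem, Homeomorph.apply_symm_apply]
            exact ha
          · intro a b ha hb hab
            have h2 := Φ1.symm.injective (Subtype.ext hab)
            exact congrArg Subtype.val h2
          · intro y hy
            have hy2 := hy
            rw [hP1] at hy2
            obtain ⟨h, h2⟩ := hy2
            exact ⟨_, h2, by
              show (Φ1.symm (Φ1 ⟨y, h⟩)).1 = y
              rw [Homeomorph.symm_apply_apply]⟩
        have hP1fin : P1.Finite := by
          have h2 : (Subtype.val ⁻¹' P : Set (real G)).Finite :=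
            hP.preimage Subtype.val_injective.injOn
          have h3 : (Φ1 ⁻¹' (Subtype.val ⁻¹' P)).Finite := h2.preimage Φ1.injective.injOn
          refine (h3.image Subtype.val).subset ?_
          intro y hy
          exact ⟨⟨y, hP1sub hy⟩, (hP1mem ⟨y, hP1sub hy⟩).mp hy, rfl⟩
        have hP1v : ∀ w, vtx w ∈ P1 := by
          intro w
          have h2 : vtx w ∈ real (subdivideEdge G u v) := vtx_mem _ w
          have h3 := hP1mem ⟨vtx w, h2⟩
          apply h3.mpr
          cases w with
          | none => rw [hΦn, ← hpt]; exact hpP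
          | some x => rw [hΦs]; exact hv x
        have hlt : (P1 \ Set.range vtx).ncard < N := by
          have hfin2 : (P \ Set.range vtx).Finite := hP.subset Set.sdiff_subset
          have hp2 : p ∈ P \ Set.range vtx := ⟨hpP, hpv⟩
          have h2 : ((P \ Set.range vtx) \ {p}).ncard < N := by
            rw [← hN]
            exact Set.ncard_sdiff_singleton_lt_of_mem hp2 hfin2
          refine lt_of_le_of_lt ?_ h2
          refine Set.ncard_le_ncard_of_injOn
            (fun y => if h : y ∈ real (subdivideEdge G u v) then (Φ1 ⟨y, h⟩).1 else 0) ?_ ?_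
            (hfin2.subset Set.sdiff_subset)
          · rintro y ⟨hy1, hy2⟩
            have h3 := hP1sub hy1
            simp only [dif_pos h3]
            refine ⟨⟨(hP1mem ⟨y, h3⟩).mp hy1, ?_⟩, ?_⟩
            · rintro ⟨x, hx⟩
              rw [← hΦs x] at hx
              have h4 := Φ1.injective (Subtype.ext hx)
              apply hy2
              exact ⟨some x, congrArg Subtype.val h4⟩
            · intro hx
              rw [Set.mem_singleton_iff, hpt, ← hΦn] at hx
              have h4 := Φ1.injective (Subtype.ext hx)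
              apply hy2
              exact ⟨none, (congrArg Subtype.val h4).symm⟩
          · rintro y ⟨hy1, _⟩ y' ⟨hy1', _⟩ hyy
            have h3 := hP1sub hy1
            have h3' := hP1sub hy1'
            simp only [dif_pos h3, dif_pos h3'] at hyy
            have h4 := Φ1.injective (Subtype.ext hyy)
            exact congrArg Subtype.val h4
        obtain ⟨n, G', Φ, hsd, hn, hx⟩ := ih _ hlt (Option V) (subdivideEdge G u v) P1 rfl hP1fin
          hP1sub hP1v
        refine ⟨n, G', Φ.trans Φ1, IsSubdivision.step G u v G' hadj hsd, hn.trans hcard.symm, ?_⟩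
        intro x
        rw [← hx x, hP1mem]
        rfl
    · have hPr : P = Set.range vtx := by
        apply Set.Subset.antisymm
        · intro p hp
          by_contra h
          exact hex ⟨p, hp, h⟩
        · rintro _ ⟨u, rfl⟩
          exact hv u
      let e : G ≃g G.map (Fintype.equivFin V).toEmbedding := SimpleGraph.Iso.map _ G
      obtain ⟨Φ, hΦ⟩ := iso_homeo G (G.map (Fintype.equivFin V).toEmbedding) e
      refine ⟨Fintype.card V, G.map (Fintype.equivFin V).toEmbedding, Φ,
        IsSubdivision.iso _ _ ⟨e⟩, ?_, ?_⟩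
      · rw [hPr, ← Set.image_univ, Set.ncard_image_of_injective _ vtx_injective, Set.ncard_univ,
          Nat.card_eq_fintype_card]
      · intro x
        rw [hPr]
        constructor
        · rintro ⟨v, hv2⟩
          rw [← hΦ v] at hv2
          have h4 := Φ.injective (Subtype.ext hv2)
          exact ⟨e v, (congrArg Subtype.val h4).symm⟩
        · rintro ⟨i, hi⟩
          refine ⟨e.symm i, ?_⟩
          rw [← hΦ]
          congr 2
          apply Subtype.ext
          rw [hi]
          show vtx (e (e.symm i)) = vtx i
          rw [RelIso.apply_symm_apply]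

/-- TARGET -/
theorem exists_subdivision {V : Type} [Fintype V] (G : SimpleGraph V) (P : Set (V → ℝ))
    (hP : P.Finite) (hsub : P ⊆ real G) (hv : ∀ u, vtx u ∈ P) :
    ∃ (n : ℕ) (G' : SimpleGraph (Fin n)) (Φ : real G' ≃ₜ real G), IsSubdivision G G' ∧
      n = P.ncard ∧
      ∀ x : real G', ((Φ x : real G) : V → ℝ) ∈ P ↔ ∃ i : Fin n, (x : Fin n → ℝ) = vtx i := by
  exact exists_subdivision_aux_12017 _ V G P rfl hP hsub hv

end Pool.Agent.Helper217.KT
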