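import Pool.Agent.Helper217.KT.Darts
import Pool.Agent.Helper217.KT.JSubdivideEdgeHomeo
import Pool.Agent.Helper217.KT.JIsoHomeo

set_option autoImplicit false

namespace Pool.Agent.Helper217.KT

open Classical

/-- TARGET -/
theorem isSubdivision_homeo {V W : Type} (G : SimpleGraph V) (G' : SimpleGraph W)
    (h : IsSubdivision G G') :
    ∀ (_ : Fintype V) (_ : Fintype W), Nonempty (real G' ≃ₜ real G) := by
  induction h with
  | iso G G' e =>
    intro _ _
    obtain ⟨e⟩ := e
    obtain ⟨Φ, _⟩ := iso_homeo G G' e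
    exact ⟨Φ⟩
  | step G u v G' huv _ ih =>
    intro fV fW
    obtain ⟨Φ, _⟩ := subdivideEdge_homeo G u v huv (1 / 2) (by norm_num) (by norm_num)
    obtain ⟨Ψ⟩ := ih inferInstance fW
    exact ⟨Ψ.trans Φ⟩

end Pool.Agent.Helper217.KT
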