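import Pool.Agent.Helper217.KT.Darts
import Pool.Agent.Helper217.KT.JExistsSubdivision
import Pool.Agent.Helper217.KT.JCompatibleOfMap

set_option autoImplicit false

namespace Pool.Agent.Helper217.KT

open Classical

/-- the marked points of the target -/
def mnPH {V W : Type} [Fintype V] [Fintype W] (G : SimpleGraph V) (H : SimpleGraph W)
    (f : real G → real H) : Set (W → ℝ) :=
  Set.range (vtx : W → W → ℝ) ∪ Set.range (fun u : V => (f ⟨vtx u, vtx_mem G u⟩ : W → ℝ))

/-- the marked points of the source -/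
def mnPG {V W : Type} [Fintype V] [Fintype W] (G : SimpleGraph V) (H : SimpleGraph W)
    (f : real G → real H) : Set (V → ℝ) :=
  {x | ∃ h : x ∈ real G, (f ⟨x, h⟩ : W → ℝ) ∈ mnPH G H f}

lemma mn_mem_PG {V W : Type} [Fintype V] [Fintype W] {G : SimpleGraph V} {H : SimpleGraph W}
    {f : real G → real H} (x : real G) :
    (x : V → ℝ) ∈ mnPG G H f ↔ (f x : W → ℝ) ∈ mnPH G H f := by
  constructor
  · rintro ⟨_, h2⟩
    exact h2
  · intro h
    exact ⟨x.2, h⟩

lemma mn_PH_finite {V W : Type} [Fintype V] [Fintype W] (G : SimpleGraph V) (H : SimpleGraph W)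
    (f : real G → real H) : (mnPH G H f).Finite :=
  (Set.finite_range _).union (Set.finite_range _)

lemma mn_PH_sub {V W : Type} [Fintype V] [Fintype W] (G : SimpleGraph V) (H : SimpleGraph W)
    (f : real G → real H) : mnPH G H f ⊆ real H := by
  rintro x (⟨a, rfl⟩ | ⟨u, rfl⟩)
  · exact vtx_mem H a
  · exact (f ⟨vtx u, vtx_mem G u⟩).2

lemma mn_PH_card {V W : Type} [Fintype V] [Fintype W] (G : SimpleGraph V) (H : SimpleGraph W)
    (f : real G → real H) : (mnPH G H f).ncard ≤ Fintype.card V + Fintype.card W := by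
  have h1 : ∀ {α β : Type} [Fintype α] (g : α → β), (Set.range g).ncard ≤ Fintype.card α := by
    intro α β _ g
    rw [← Set.image_univ, ← Nat.card_eq_fintype_card, ← Set.ncard_univ]
    exact Set.ncard_image_le Set.finite_univ
  refine (Set.ncard_union_le _ _).trans ?_
  rw [add_comm]
  exact add_le_add (h1 _) (h1 _)

lemma mn_PG_card {V W : Type} [Fintype V] [Fintype W] (G : SimpleGraph V) (H : SimpleGraph W)
    (f : real G → real H) (k : ℕ) (hk : 1 < k) (hfib : ∀ y, Nat.card {x // f x = y} = k) :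
    (mnPG G H f).Finite ∧ (mnPG G H f).ncard = k * (mnPH G H f).ncard := by
  have hfinPH := mn_PH_finite G H f
  have : Finite (mnPH G H f) := hfinPH
  have : Fintype (mnPH G H f) := Fintype.ofFinite _
  have hfin : ∀ y : mnPH G H f, Finite {x : real G // f x = ⟨y.1, mn_PH_sub G H f y.2⟩} := by
    intro y
    apply Nat.finite_of_card_ne_zero
    rw [hfib]
    omega
  let e : mnPG G H f ≃
      (Σ y : mnPH G H f, {x : real G // f x = ⟨y.1, mn_PH_sub G H f y.2⟩}) :=
    { toFun := fun x => ⟨⟨(f ⟨x.1, x.2.choose⟩ : W → ℝ), x.2.choose_spec⟩,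
        ⟨⟨x.1, x.2.choose⟩, rfl⟩⟩
      invFun := fun p => ⟨(p.2.1 : V → ℝ), by
        rw [mn_mem_PG, p.2.2]
        exact p.1.2⟩
      left_inv := fun x => rfl
      right_inv := by
        rintro ⟨⟨y, hy⟩, ⟨x, hx⟩⟩
        have h1 : (f x : W → ℝ) = y := congrArg Subtype.val hx
        subst h1
        rfl }
  have hfinG : Finite (mnPG G H f) := Finite.of_equiv _ e.symm
  refine ⟨hfinG, ?_⟩
  rw [← Nat.card_coe_set_eq, Nat.card_congr e, Nat.card_sigma]
  rw [Finset.sum_congr rfl (fun y _ => hfib _), Finset.sum_const, Finset.card_univ,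
    ← Nat.card_eq_fintype_card, Nat.card_coe_set_eq, smul_eq_mul, mul_comm]

/-- TARGET -/
theorem main_necessity {V W : Type} [Fintype V] [Fintype W] (k : ℕ) (hk : 1 < k)
    (G : SimpleGraph V) (H : SimpleGraph W) (f : real G → real H) (hf : Continuous f)
    (hfib : ∀ y, Nat.card {x // f x = y} = k) :
    ∃ m, m ≤ Fintype.card V + Fintype.card W ∧
      ∃ (G' : SimpleGraph (Fin (k * m))) (H' : SimpleGraph (Fin m)) (φ : Fin (k * m) → Fin m),
        IsSubdivision G G' ∧ IsSubdivision H H' ∧ Compatible k G' H' φ := by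
  obtain ⟨hGfin, hGcard⟩ := mn_PG_card G H f k hk hfib
  obtain ⟨n, G', ΦG, hsG, hn, hΦG⟩ := exists_subdivision G (mnPG G H f) hGfin
    (by rintro x ⟨h, _⟩; exact h)
    (fun u => ⟨vtx_mem G u, Or.inr ⟨u, rfl⟩⟩)
  obtain ⟨m, H', ΦH, hsH, hm, hΦH⟩ := exists_subdivision H (mnPH G H f) (mn_PH_finite G H f)
    (mn_PH_sub G H f) (fun a => Or.inl ⟨a, rfl⟩)
  have hnm : n = k * m := by rw [hn, hGcard, hm]
  clear hn
  subst hnm
  refine ⟨m, by rw [hm]; exact mn_PH_card G H f, G', H', ?_⟩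
  have hv : ∀ x : real G', (∃ i, ((ΦH.symm (f (ΦG x)) : real H') : Fin m → ℝ) = vtx i) ↔
      ∃ i, (x : Fin (k * m) → ℝ) = vtx i := by
    intro x
    rw [← hΦH, ← hΦG, ΦH.apply_symm_apply, mn_mem_PG]
  have hφ : ∀ i : Fin (k * m), ∃ a : Fin m,
      ((ΦH.symm (f (ΦG ⟨vtx i, vtx_mem G' i⟩)) : real H') : Fin m → ℝ) = vtx a :=
    fun i => (hv ⟨vtx i, vtx_mem G' i⟩).2 ⟨i, rfl⟩
  choose φ hφ using hφ
  refine ⟨φ, hsG, hsH, compatible_of_map k hk G' H' (fun x => ΦH.symm (f (ΦG x)))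
    (ΦH.symm.continuous.comp (hf.comp ΦG.continuous)) ?_ φ hφ (fun x hx => (hv x).1 hx)⟩
  intro y
  refine Eq.trans ?_ (hfib (ΦH y))
  refine Nat.card_congr (ΦG.toEquiv.subtypeEquiv (fun x => ?_))
  show ΦH.symm (f (ΦG x)) = y ↔ f (ΦG x) = ΦH y
  rw [Homeomorph.symm_apply_eq]

end Pool.Agent.Helper217.KT
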