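import Pool.Agent.Helper217.KT.Darts
import Pool.Agent.Helper217.KT.JIsSubdivisionHomeo
import Pool.Agent.Helper217.KT.JExistsAssignment
import Pool.Agent.Helper217.KT.JExistsMap

set_option autoImplicit false

namespace Pool.Agent.Helper217.KT

open Classical

/-- TARGET -/
theorem main_sufficiency {V W V' W' : Type} [Fintype V] [Fintype W] [Fintype V'] [Fintype W']
    (k : ℕ) (hk : 1 < k)
    (G : SimpleGraph V) (H : SimpleGraph W) (G' : SimpleGraph V') (H' : SimpleGraph W')
    (φ : V' → W') (hG : IsSubdivision G G') (hH : IsSubdivision H H')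
    (hc : Compatible k G' H' φ) :
    ∃ f : real G → real H, Continuous f ∧ ∀ y, Nat.card {x // f x = y} = k := by
  obtain ⟨δ, j, hδ, hj⟩ := exists_assignment k hk G' H' φ hc
  obtain ⟨f', hf', hcard⟩ := exists_map k hk G' H' φ hc.fiber δ j hδ hj
  obtain ⟨eG⟩ := isSubdivision_homeo G G' hG inferInstance inferInstance
  obtain ⟨eH⟩ := isSubdivision_homeo H H' hH inferInstance inferInstance
  refine ⟨eH ∘ f' ∘ eG.symm, eH.continuous.comp (hf'.comp eG.symm.continuous), fun y => ?_⟩
  rw [← hcard (eH.symm y)]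
  refine Nat.card_congr (eG.symm.toEquiv.subtypeEquiv fun x => ?_)
  show eH (f' (eG.symm x)) = y ↔ f' (eG.symm x) = eH.symm y
  constructor
  · intro h
    rw [← h, Homeomorph.symm_apply_apply]
  · intro h
    rw [h, Homeomorph.apply_symm_apply]

end Pool.Agent.Helper217.KT
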